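import Pool.Agent.Helper23.Free.Proper

set_option autoImplicit false

namespace Pool.Agent.Helper23.Free

variable {V : Type} {G : SimpleGraph V} {f : V → Pt} {T : Fin 9 → Fr} {x y z : V}
  {e : In (.bg T) → V}

theorem Bv_ne (h : Pl G (.bg T) x y z e) {p q : Fin 7} (hpq : p ≠ q) :
    Bv x y e p ≠ Bv x y e q := by
  have ee : ∀ k l : Fin 5, k ≠ l → e (Sum.inl k) ≠ e (Sum.inl l) := by
    intro k l hkl hc
    apply hkl
    have := h.inj hc
    injection this
  have hx : ∀ k : Fin 5, e (Sum.inl k) ≠ x := fun k => h.nx _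
  have hy : ∀ k : Fin 5, e (Sum.inl k) ≠ y := fun k => h.ny _
  have hx' : ∀ k : Fin 5, x ≠ e (Sum.inl k) := fun k => (h.nx _).symm
  have hy' : ∀ k : Fin 5, y ≠ e (Sum.inl k) := fun k => (h.ny _).symm
  have hxy : x ≠ y := h.xy.ne
  have hyx : y ≠ x := h.xy.ne.symm
  fin_cases p <;> fin_cases q <;>
    first
    | exact absurd rfl hpq
    | exact ee _ _ (by decide)
    | exact hx _
    | exact hy _
    | exact hx' _
    | exact hy' _
    | exact hxy
    | exact hyx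

/-- all new vertices lie in the triangle of `t x y` -/
theorem base_ins (h : Pl G (.bg T) x y z e) (hf : Dw G f)
    (hi : ∀ i, Ins (f (e i)) (f x) (f y) (f z)) (p : Fin 7) (hp : 3 ≤ p.val) :
    Ins (f (Bv x y e p)) (f (Bv x y e 0)) (f (Bv x y e 1)) (f (Bv x y e 2)) := by
  have a01 : G.Adj (Bv x y e 0) (Bv x y e 1) := h.bA (by decide)
  have a02 : G.Adj (Bv x y e 0) (Bv x y e 2) := h.bA (by decide)
  have a12 : G.Adj (Bv x y e 1) (Bv x y e 2) := h.bA (by decide)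
  have h6 : Ins (f (Bv x y e 6)) (f (Bv x y e 0)) (f (Bv x y e 1)) (f (Bv x y e 2)) := by
    refine k4child hf (o3 := z) h.xy h.yz h.xz a01 a02 h.bz (hi _) (Bv_ne h (by decide))
      (h.bA (by decide)) (h.bA (by decide)) (hi _)
  have st : ∀ q : Fin 7, 3 ≤ q.val → bA 6 q = true →
      Ins (f (Bv x y e q)) (f (Bv x y e 0)) (f (Bv x y e 1)) (f (Bv x y e 2)) := by
    intro q hq ha
    refine hf.step a01 a12 a02 h6 (h.bA ha) (Bv_ne h ?_) (Bv_ne h ?_) (Bv_ne h ?_) <;>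
      · rintro rfl
        revert hq
        decide
  fin_cases p
  · exact absurd hp (by decide)
  · exact absurd hp (by decide)
  · exact absurd hp (by decide)
  · exact st 3 (by decide) (by decide)
  · exact st 4 (by decide) (by decide)
  · exact st 5 (by decide) (by decide)
  · exact h6

theorem FC_inner : ∀ i : Fin 9, 3 ≤ (FC i).1.val ∨ 3 ≤ (FC i).2.1.val ∨ 3 ≤ (FC i).2.2.val := by
  decide

theorem ch_ins (h : Pl G (.bg T) x y z e) (hf : Dw G f)
    (hi : ∀ i, Ins (f (e i)) (f x) (f y) (f z)) (i : Fin 9) (j : In (T i)) :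
    Ins (f (e (Sum.inr ⟨i, j⟩))) (f (Bv x y e 0)) (f (Bv x y e 1)) (f (Bv x y e 2)) := by
  have a01 : G.Adj (Bv x y e 0) (Bv x y e 1) := h.bA (by decide)
  have a02 : G.Adj (Bv x y e 0) (Bv x y e 2) := h.bA (by decide)
  have a12 : G.Adj (Bv x y e 1) (Bv x y e 2) := h.bA (by decide)
  have hd1 := (h.ch i).hdx j
  refine allIns (h.ch i) hf a01 a12 a02 (fun j => h.bv_ne _ _ _) (fun j => h.bv_ne _ _ _)
    (fun j => h.bv_ne _ _ _) j ?_
  rcases FC_inner i with h1 | h1 | h1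
  · exact hf.step a01 a12 a02 (base_ins h hf hi _ h1) hd1.1.symm (h.bv_ne _ _ _)
      (h.bv_ne _ _ _) (h.bv_ne _ _ _)
  · exact hf.step a01 a12 a02 (base_ins h hf hi _ h1) hd1.2.1.symm (h.bv_ne _ _ _)
      (h.bv_ne _ _ _) (h.bv_ne _ _ _)
  · exact hf.step a01 a12 a02 (base_ins h hf hi _ h1) hd1.2.2.symm (h.bv_ne _ _ _)
      (h.bv_ne _ _ _) (h.bv_ne _ _ _)

/-- a point of the outer triangle different from the outer vertex `o` -/
def Ok (f : V → Pt) (B : Fin 7 → V) (o : Fin 7) (P : Pt) : Prop :=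
  Ins P (f (B 0)) (f (B 1)) (f (B 2)) ∨ ∃ p : Fin 7, p ≠ o ∧ P = f (B p)

theorem outerNot (h : Pl G (.bg T) x y z e) (hf : Dw G f)
    (hi : ∀ i, Ins (f (e i)) (f x) (f y) (f z)) {o : Fin 7} (ho : o.val < 3) {P Q R : Pt}
    (hP : Ok f (Bv x y e) o P) (hQ : Ok f (Bv x y e) o Q) (hR : Ok f (Bv x y e) o R) :
    ¬ Ins (f (Bv x y e o)) P Q R := by
  have a01 : G.Adj (Bv x y e 0) (Bv x y e 1) := h.bA (by decide)
  have a02 : G.Adj (Bv x y e 0) (Bv x y e 2) := h.bA (by decide)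
  have a12 : G.Adj (Bv x y e 1) (Bv x y e 2) := h.bA (by decide)
  have nd := hf.nondeg a01 a12 a02
  have hB := base_ins h hf hi
  have case0 : ∀ P : Pt, Ok f (Bv x y e) 0 P →
      Cl P (f (Bv x y e 0)) (f (Bv x y e 1)) (f (Bv x y e 2)) := by
    rintro P (hP | ⟨p, hp, rfl⟩)
    · exact hP.cl
    · rcases Nat.lt_or_ge p.val 3 with h3 | h3
      · have : p = 1 ∨ p = 2 := by
          revert hp h3; revert p; decide
        rcases this with rfl | rfl
        · exact Cl.left _ _ _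
        · exact Cl.right _ _ _
      · exact (hB p h3).cl
  have case1 : ∀ P : Pt, Ok f (Bv x y e) 1 P →
      Cl P (f (Bv x y e 1)) (f (Bv x y e 2)) (f (Bv x y e 0)) := by
    rintro P (hP | ⟨p, hp, rfl⟩)
    · exact hP.rot.cl
    · rcases Nat.lt_or_ge p.val 3 with h3 | h3
      · have : p = 2 ∨ p = 0 := by
          revert hp h3; revert p; decide
        rcases this with rfl | rfl
        · exact Cl.left _ _ _
        · exact Cl.right _ _ _
      · exact (hB p h3).rot.cl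
  have case2 : ∀ P : Pt, Ok f (Bv x y e) 2 P →
      Cl P (f (Bv x y e 2)) (f (Bv x y e 0)) (f (Bv x y e 1)) := by
    rintro P (hP | ⟨p, hp, rfl⟩)
    · exact hP.rot.rot.cl
    · rcases Nat.lt_or_ge p.val 3 with h3 | h3
      · have : p = 0 ∨ p = 1 := by
          revert hp h3; revert p; decide
        rcases this with rfl | rfl
        · exact Cl.left _ _ _
        · exact Cl.right _ _ _
      · exact (hB p h3).rot.rot.cl
  have aux : ∀ o : Fin 7, o.val < 3 → o = 0 ∨ o = 1 ∨ o = 2 := by decide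
  have ho' := aux o ho
  rcases ho' with rfl | rfl | rfl
  · exact extreme nd (case0 P hP) (case0 Q hQ) (case0 R hR)
  · exact extreme (by rwa [D3_rot]) (case1 P hP) (case1 Q hQ) (case1 R hR)
  · exact extreme (by rwa [D3_rot, D3_rot]) (case2 P hP) (case2 Q hQ) (case2 R hR)

theorem closure (h : Pl G (.bg T) x y z e) (hf : Dw G f) {X Y Z : V} (hXY : G.Adj X Y)
    (hYZ : G.Adj Y Z) (hXZ : G.Adj X Z) (i : Fin 9)
    (nX : ∀ q, nF i q = true → Bv x y e q ≠ X) (nY : ∀ q, nF i q = true → Bv x y e q ≠ Y)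
    (nZ : ∀ q, nF i q = true → Bv x y e q ≠ Z) (w : Fin 7) (hw : nF i w = true)
    (hi : Ins (f (Bv x y e w)) (f X) (f Y) (f Z)) :
    ∃ o : Fin 7, o.val < 3 ∧ nF i o = true ∧ Ins (f (Bv x y e o)) (f X) (f Y) (f Z) := by
  obtain ⟨o, h1, h2, h3⟩ := reach i w hw
  refine ⟨o, h1, h2, ?_⟩
  rcases h3 with rfl | h3 | ⟨q, hq, h3, h4⟩
  · exact hi
  · exact hf.step hXY hYZ hXZ hi (h.bA h3) (nX _ h2) (nY _ h2) (nZ _ h2)
  · exact hf.step hXY hYZ hXZ (hf.step hXY hYZ hXZ hi (h.bA h3) (nX _ hq) (nY _ hq) (nZ _ hq))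
      (h.bA h4) (nX _ h2) (nY _ h2) (nZ _ h2)

theorem nF_iff {i : Fin 9} {w : Fin 7} :
    nF i w = true ↔ w ≠ (FC i).1 ∧ w ≠ (FC i).2.1 ∧ w ≠ (FC i).2.2 := by
  unfold nF
  simp [and_assoc]

/-- faces are empty of base vertices -/
theorem face_empty (h : Pl G (.bg T) x y z e) (hf : Dw G f)
    (hi : ∀ i, Ins (f (e i)) (f x) (f y) (f z)) (i : Fin 9) (w : Fin 7) (hw : nF i w = true) :
    ¬ Ins (f (Bv x y e w)) (f (Bv x y e (FC i).1)) (f (Bv x y e (FC i).2.1))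
      (f (Bv x y e (FC i).2.2)) := by
  intro hc
  obtain ⟨o, h1, h2, h3⟩ := closure h hf (h.bA (FC_adj i).1) (h.bA (FC_adj i).2.1)
    (h.bA (FC_adj i).2.2) i (fun q hq => Bv_ne h (nF_iff.mp hq).1)
    (fun q hq => Bv_ne h (nF_iff.mp hq).2.1) (fun q hq => Bv_ne h (nF_iff.mp hq).2.2) w hw hc
  obtain ⟨g1, g2, g3⟩ := nF_iff.mp h2
  exact outerNot h hf hi h1 (Or.inr ⟨_, g1.symm, rfl⟩) (Or.inr ⟨_, g2.symm, rfl⟩)
    (Or.inr ⟨_, g3.symm, rfl⟩) h3

/-- the fragments of a proper `bg` node are proper -/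
theorem ch_proper (h : Pl G (.bg T) x y z e) (hf : Dw G f)
    (hi : ∀ i, Ins (f (e i)) (f x) (f y) (f z)) (i : Fin 9) (j : In (T i)) :
    Ins (f (e (Sum.inr ⟨i, j⟩))) (f (Bv x y e (FC i).1)) (f (Bv x y e (FC i).2.1))
      (f (Bv x y e (FC i).2.2)) := by
  have a12 := h.bA (FC_adj i).1
  have a23 := h.bA (FC_adj i).2.1
  have a13 := h.bA (FC_adj i).2.2
  refine allIns (h.ch i) hf a12 a23 a13 (fun j => h.bv_ne _ _ _) (fun j => h.bv_ne _ _ _)
    (fun j => h.bv_ne _ _ _) j ?_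
  obtain ⟨t1, t2, t3⟩ := (h.ch i).hdx j
  have tIns := ch_ins h hf hi i (hd (T i) j)
  obtain ⟨⟨w1, n1, b1⟩, ⟨w2, n2, b2⟩, ⟨w3, n3, b3⟩⟩ := nbr i
  rcases hf.k4 a12 a23 a13 t1 t2 t3 with hc | hc | hc | hc
  · exact hc
  · exfalso
    have hw := hf.step t2 a23 t3 hc (h.bA b1) (h.bv_ne _ _ _).symm
      (Bv_ne h (nF_iff.mp n1).2.1) (Bv_ne h (nF_iff.mp n1).2.2)
    obtain ⟨o, h1, h2, h3⟩ := closure h hf t2 a23 t3 i (fun q _ => (h.bv_ne _ _ _).symm)
      (fun q hq => Bv_ne h (nF_iff.mp hq).2.1) (fun q hq => Bv_ne h (nF_iff.mp hq).2.2) w1 n1 hw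
    obtain ⟨g1, g2, g3⟩ := nF_iff.mp h2
    exact outerNot h hf hi h1 (Or.inl tIns) (Or.inr ⟨_, g2.symm, rfl⟩)
      (Or.inr ⟨_, g3.symm, rfl⟩) h3
  · exfalso
    have hw := hf.step t1.symm t3 a13 hc (h.bA b2) (Bv_ne h (nF_iff.mp n2).1)
      (h.bv_ne _ _ _).symm (Bv_ne h (nF_iff.mp n2).2.2)
    obtain ⟨o, h1, h2, h3⟩ := closure h hf t1.symm t3 a13 i
      (fun q hq => Bv_ne h (nF_iff.mp hq).1) (fun q _ => (h.bv_ne _ _ _).symm)
      (fun q hq => Bv_ne h (nF_iff.mp hq).2.2) w2 n2 hw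
    obtain ⟨g1, g2, g3⟩ := nF_iff.mp h2
    exact outerNot h hf hi h1 (Or.inr ⟨_, g1.symm, rfl⟩) (Or.inl tIns)
      (Or.inr ⟨_, g3.symm, rfl⟩) h3
  · exfalso
    have hw := hf.step a12 t2.symm t1.symm hc (h.bA b3) (Bv_ne h (nF_iff.mp n3).1)
      (Bv_ne h (nF_iff.mp n3).2.1) (h.bv_ne _ _ _).symm
    obtain ⟨o, h1, h2, h3⟩ := closure h hf a12 t2.symm t1.symm i
      (fun q hq => Bv_ne h (nF_iff.mp hq).1)
      (fun q hq => Bv_ne h (nF_iff.mp hq).2.1) (fun q _ => (h.bv_ne _ _ _).symm) w3 n3 hw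
    obtain ⟨g1, g2, g3⟩ := nF_iff.mp h2
    exact outerNot h hf hi h1 (Or.inr ⟨_, g1.symm, rfl⟩) (Or.inr ⟨_, g2.symm, rfl⟩)
      (Or.inl tIns) h3

/-- `p q r` is an inner face, in any order -/
def isF (p q r : Fin 7) : Bool :=
  ∃ i : Fin 9, FC i = (p, q, r) ∨ FC i = (q, r, p) ∨ FC i = (r, p, q) ∨ FC i = (q, p, r) ∨
    FC i = (p, r, q) ∨ FC i = (r, q, p)

theorem empty' (h : Pl G (.bg T) x y z e) (hf : Dw G f)
    (hi : ∀ i, Ins (f (e i)) (f x) (f y) (f z)) {p q r w : Fin 7} (hF : isF p q r = true)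
    (h1 : w ≠ p) (h2 : w ≠ q) (h3 : w ≠ r) :
    ¬ Ins (f (Bv x y e w)) (f (Bv x y e p)) (f (Bv x y e q)) (f (Bv x y e r)) := by
  unfold isF at hF
  simp only [decide_eq_true_eq] at hF
  obtain ⟨i, hF⟩ := hF
  have key := face_empty h hf hi i w
  rcases hF with hF | hF | hF | hF | hF | hF <;> rw [nF_iff, hF] at key <;>
    simp only at key
  · exact key ⟨h1, h2, h3⟩
  · exact fun hc => key ⟨h2, h3, h1⟩ hc.rot
  · exact fun hc => key ⟨h3, h1, h2⟩ hc.rot.rot
  · exact fun hc => key ⟨h2, h1, h3⟩ hc.swap12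
  · exact fun hc => key ⟨h1, h3, h2⟩ hc.swap23
  · exact fun hc => key ⟨h3, h2, h1⟩ hc.swap13

/-- consecutive faces around a base vertex are equally oriented -/
theorem cons (h : Pl G (.bg T) x y z e) (hf : Dw G f)
    (hi : ∀ i, Ins (f (e i)) (f x) (f y) (f z)) {v a b c : Fin 7} (F1 : isF v a b = true)
    (F2 : isF v b c = true) (hvb : bA v b = true) (hba : bA b a = true) (hva : bA v a = true)
    (hbc : bA b c = true) (hvc : bA v c = true) (hac : a ≠ c) (hav : a ≠ v) (hab : a ≠ b)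
    (hcv : c ≠ v) (hcb : c ≠ b) :
    0 < D3 (f (Bv x y e v)) (f (Bv x y e a)) (f (Bv x y e b)) *
      D3 (f (Bv x y e v)) (f (Bv x y e b)) (f (Bv x y e c)) := by
  have := hf.opp (h.bA hvb) (h.bA hba) (h.bA hva) (h.bA hbc) (h.bA hvc) (Bv_ne h hac)
    (fun hc => empty' h hf hi F1 hcv hac.symm hcb hc.swap23)
    (empty' h hf hi F2 hav hab hac)
  have e1 := D3_swap23 (f (Bv x y e v)) (f (Bv x y e a)) (f (Bv x y e b))
  rw [e1] at this
  linarith

theorem higher (h : Pl G (.bg T) x y z e) (hf : Dw G f)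
    (hi : ∀ i, Ins (f (e i)) (f x) (f y) (f z)) (p : Fin 7) (hp : 3 ≤ p.val) :
    (∃ q : Fin 7, bA p q = true ∧ (f (Bv x y e p)).2 < (f (Bv x y e q)).2) ∧
      (∃ q : Fin 7, bA p q = true ∧ (f (Bv x y e q)).2 < (f (Bv x y e p)).2) := by
  have c4 : ∀ v a b c d : Fin 7,
      (isF v a b = true ∧ isF v b c = true ∧ isF v c d = true ∧ isF v d a = true) →
      (bA v a = true ∧ bA v b = true ∧ bA v c = true ∧ bA v d = true ∧
        bA a b = true ∧ bA b c = true ∧ bA c d = true ∧ bA d a = true ∧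
        bA b a = true ∧ bA c b = true ∧ bA d c = true ∧ bA a d = true) →
      (a ≠ c ∧ b ≠ d ∧ a ≠ v ∧ b ≠ v ∧ c ≠ v ∧ d ≠ v ∧ a ≠ b ∧ b ≠ c ∧ c ≠ d ∧ d ≠ a) →
      (∃ q : Fin 7, bA v q = true ∧ (f (Bv x y e v)).2 < (f (Bv x y e q)).2) ∧
      (∃ q : Fin 7, bA v q = true ∧ (f (Bv x y e q)).2 < (f (Bv x y e v)).2) := by
    rintro v a b c d ⟨f1, f2, f3, f4⟩ ⟨va, vb, vc, vd, ab, bc, cd, da, ba, cb, dc, ad⟩
      ⟨nac, nbd, nav, nbv, ncv, ndv, nab, nbc, ncd, nda⟩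
    have k1 := cons h hf hi f1 f2 vb ba va bc vc nac nav nab ncv nbc.symm
    have k2 := cons h hf hi f2 f3 vc cb vb cd vd nbd nbv nbc ndv ncd.symm
    have k3 := cons h hf hi f3 f4 vd dc vc da va nac.symm ncv ncd nav nda.symm
    obtain ⟨g1, g2⟩ := link4 k1 k2 k3
    constructor
    · rcases g1 with g | g | g | g
      · exact ⟨a, va, g⟩
      · exact ⟨b, vb, g⟩
      · exact ⟨c, vc, g⟩
      · exact ⟨d, vd, g⟩
    · rcases g2 with g | g | g | g
      · exact ⟨a, va, g⟩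
      · exact ⟨b, vb, g⟩
      · exact ⟨c, vc, g⟩
      · exact ⟨d, vd, g⟩
  fin_cases p
  · exact absurd hp (by decide)
  · exact absurd hp (by decide)
  · exact absurd hp (by decide)
  · exact c4 3 0 2 6 4 (by decide) (by decide) (by decide)
  · exact c4 4 0 3 6 5 (by decide) (by decide) (by decide)
  · exact c4 5 0 4 6 1 (by decide) (by decide) (by decide)
  · have k1 := cons h hf hi (v := 6) (a := 1) (b := 2) (c := 3) (by decide) (by decide)
      (by decide) (by decide) (by decide) (by decide) (by decide) (by decide) (by decide)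
      (by decide) (by decide) (by decide)
    have k2 := cons h hf hi (v := 6) (a := 2) (b := 3) (c := 4) (by decide) (by decide)
      (by decide) (by decide) (by decide) (by decide) (by decide) (by decide) (by decide)
      (by decide) (by decide) (by decide)
    have k3 := cons h hf hi (v := 6) (a := 3) (b := 4) (c := 5) (by decide) (by decide)
      (by decide) (by decide) (by decide) (by decide) (by decide) (by decide) (by decide)
      (by decide) (by decide) (by decide)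
    have k4 := cons h hf hi (v := 6) (a := 4) (b := 5) (c := 1) (by decide) (by decide)
      (by decide) (by decide) (by decide) (by decide) (by decide) (by decide) (by decide)
      (by decide) (by decide) (by decide)
    obtain ⟨g1, g2⟩ := link5 k1 k2 k3 k4
    constructor
    · rcases g1 with g | g | g | g | g
      · exact ⟨1, by decide, g⟩
      · exact ⟨2, by decide, g⟩
      · exact ⟨3, by decide, g⟩
      · exact ⟨4, by decide, g⟩
      · exact ⟨5, by decide, g⟩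
    · rcases g2 with g | g | g | g | g
      · exact ⟨1, by decide, g⟩
      · exact ⟨2, by decide, g⟩
      · exact ⟨3, by decide, g⟩
      · exact ⟨4, by decide, g⟩
      · exact ⟨5, by decide, g⟩

end Pool.Agent.Helper23.Free
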