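import Pool.Agent.Helper23.Free.Base

set_option autoImplicit false

namespace Pool.Agent.Helper23.Free

/-- sets of inner base vertices with their outer neighbourhoods -/
def KN : List (List (Fin 7) × List (Fin 7)) :=
  [([3], [0, 2, 4, 6]),
   ([4], [0, 3, 5, 6]),
   ([5], [0, 1, 4, 6]),
   ([6], [1, 2, 3, 4, 5]),
   ([3, 4], [0, 2, 5, 6]),
   ([3, 5], [0, 1, 2, 4, 6]),
   ([3, 6], [0, 1, 2, 4, 5]),
   ([4, 5], [0, 1, 3, 6]),
   ([4, 6], [0, 1, 2, 3, 5]),
   ([5, 6], [0, 1, 2, 3, 4]),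
   ([3, 4, 5], [0, 1, 2, 6]),
   ([3, 4, 6], [0, 1, 2, 5]),
   ([3, 5, 6], [0, 1, 2, 4]),
   ([4, 5, 6], [0, 1, 2, 3]),
   ([3, 4, 5, 6], [0, 1, 2])]

theorem KN_spec : ∀ q ∈ KN, q.1 ≠ [] ∧ (∀ v ∈ q.1, 3 ≤ v.val ∧
    ∀ w : Fin 7, bA v w = true → w ∈ q.1 ∨ w ∈ q.2) := by
  decide +kernel

def valid (c : Fin 7 → Bool) : Bool :=
  KN.all (fun q => (!(q.1.all c)) || q.2.any c) &&
    KN.all (fun q => (!(q.1.all (fun v => !(c v)))) || q.2.any (fun v => !(c v)))

theorem valid_of_heights (h : Fin 7 → ℝ)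
    (hs : ∀ p : Fin 7, 3 ≤ p.val → (∃ q : Fin 7, bA p q = true ∧ h p < h q) ∧
      (∃ q : Fin 7, bA p q = true ∧ h q < h p)) :
    valid (fun p => decide (0 ≤ h p)) = true := by
  unfold valid
  rw [Bool.and_eq_true, List.all_eq_true, List.all_eq_true]
  constructor
  · intro q hq
    obtain ⟨hne, hsp⟩ := KN_spec q hq
    by_cases hall : q.1.all (fun p => decide (0 ≤ h p)) = true
    · have hn : q.1.toFinset.Nonempty := by
        rw [List.toFinset_nonempty_iff]; exact hne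
      obtain ⟨v, hv, hmax⟩ := Finset.exists_max_image q.1.toFinset h hn
      rw [List.mem_toFinset] at hv
      obtain ⟨h3, hadj⟩ := hsp v hv
      obtain ⟨w, hw1, hw2⟩ := (hs v h3).1
      have hv0 : 0 ≤ h v := by
        have := List.all_eq_true.mp hall v hv
        simpa using this
      have hwN : w ∈ q.2 := by
        rcases hadj w hw1 with hk | hk
        · exact absurd (hmax w (List.mem_toFinset.mpr hk)) (not_le.mpr hw2)
        · exact hk
      have : q.2.any (fun p => decide (0 ≤ h p)) = true := by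
        rw [List.any_eq_true]
        exact ⟨w, hwN, by simp; linarith⟩
      rw [this, Bool.or_true]
    · rw [Bool.not_eq_true] at hall
      rw [hall]; rfl
  · intro q hq
    obtain ⟨hne, hsp⟩ := KN_spec q hq
    by_cases hall : q.1.all (fun p => !decide (0 ≤ h p)) = true
    · have hn : q.1.toFinset.Nonempty := by
        rw [List.toFinset_nonempty_iff]; exact hne
      obtain ⟨v, hv, hmin⟩ := Finset.exists_min_image q.1.toFinset h hn
      rw [List.mem_toFinset] at hv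
      obtain ⟨h3, hadj⟩ := hsp v hv
      obtain ⟨w, hw1, hw2⟩ := (hs v h3).2
      have hv0 : h v < 0 := by
        have := List.all_eq_true.mp hall v hv
        simpa using this
      have hwN : w ∈ q.2 := by
        rcases hadj w hw1 with hk | hk
        · exact absurd (hmin w (List.mem_toFinset.mpr hk)) (not_le.mpr hw2)
        · exact hk
      have : q.2.any (fun p => !decide (0 ≤ h p)) = true := by
        rw [List.any_eq_true]
        exact ⟨w, hwN, by simp; linarith⟩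
      rw [this, Bool.or_true]
    · rw [Bool.not_eq_true] at hall
      rw [hall]; rfl

def vl (bx cy dz : ℕ) (a b c : Bool) : ℕ :=
  if a = b then (if b = c then 0 else dz) else if a = c then cy else bx

def b2n (b : Bool) : ℕ := if b then 1 else 0

/-- face `i` is met, special vertex not isolated -/
def ns (c : Fin 7 → Bool) (i : Fin 9) : ℕ := b2n (c (FC i).1 != c (FC i).2.1)

/-- the special vertex of face `i` is isolated -/
def sp (c : Fin 7 → Bool) (i : Fin 9) : ℕ :=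
  b2n ((c (FC i).1 == c (FC i).2.1) && (c (FC i).2.1 != c (FC i).2.2))

theorem vl_iso (b g : ℕ) (c : Fin 7 → Bool) (i : Fin 9) :
    vl b b g (c (FC i).1) (c (FC i).2.1) (c (FC i).2.2) = ns c i * b + sp c i * g := by
  unfold vl ns sp b2n
  cases c (FC i).1 <;> cases c (FC i).2.1 <;> cases c (FC i).2.2 <;> simp

theorem fun7 (c : Fin 7 → Bool) : c = ![c 0, c 1, c 2, c 3, c 4, c 5, c 6] := by
  funext i
  fin_cases i <;> rfl

theorem decA : ∀ c0 c1 c2 c3 c4 c5 c6 : Bool,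
    valid ![c0, c1, c2, c3, c4, c5, c6] = true → c1 ≠ c2 →
    (ns ![c0, c1, c2, c3, c4, c5, c6] 0 + sp ![c0, c1, c2, c3, c4, c5, c6] 0 +
     (ns ![c0, c1, c2, c3, c4, c5, c6] 1 + sp ![c0, c1, c2, c3, c4, c5, c6] 1) +
     (ns ![c0, c1, c2, c3, c4, c5, c6] 3 + sp ![c0, c1, c2, c3, c4, c5, c6] 3) +
     (ns ![c0, c1, c2, c3, c4, c5, c6] 4 + sp ![c0, c1, c2, c3, c4, c5, c6] 4) +
     (ns ![c0, c1, c2, c3, c4, c5, c6] 7 + sp ![c0, c1, c2, c3, c4, c5, c6] 7) +
     (ns ![c0, c1, c2, c3, c4, c5, c6] 8 + sp ![c0, c1, c2, c3, c4, c5, c6] 8) +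
     b2n (c4 != c3)) ≤ 6 := by
  decide +kernel

theorem decB : ∀ c0 c1 c2 c3 c4 c5 c6 : Bool,
    valid ![c0, c1, c2, c3, c4, c5, c6] = true →
    (sp ![c0, c1, c2, c3, c4, c5, c6] 3 + sp ![c0, c1, c2, c3, c4, c5, c6] 4 +
     sp ![c0, c1, c2, c3, c4, c5, c6] 5 + sp ![c0, c1, c2, c3, c4, c5, c6] 6 +
     sp ![c0, c1, c2, c3, c4, c5, c6] 7 + sp ![c0, c1, c2, c3, c4, c5, c6] 8) +
    5 * ((ns ![c0, c1, c2, c3, c4, c5, c6] 3 + sp ![c0, c1, c2, c3, c4, c5, c6] 3) +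
     (ns ![c0, c1, c2, c3, c4, c5, c6] 4 + sp ![c0, c1, c2, c3, c4, c5, c6] 4) +
     (ns ![c0, c1, c2, c3, c4, c5, c6] 5 + sp ![c0, c1, c2, c3, c4, c5, c6] 5) +
     (ns ![c0, c1, c2, c3, c4, c5, c6] 6 + sp ![c0, c1, c2, c3, c4, c5, c6] 6) +
     (ns ![c0, c1, c2, c3, c4, c5, c6] 7 + sp ![c0, c1, c2, c3, c4, c5, c6] 7) +
     (ns ![c0, c1, c2, c3, c4, c5, c6] 8 + sp ![c0, c1, c2, c3, c4, c5, c6] 8)) ≤
      (if c1 ≠ c2 then 0 else 2) + 5 * 6 := by
  decide +kernel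

end Pool.Agent.Helper23.Free
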