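import Pool.Agent.Helper23.Free.Geo

set_option autoImplicit false

namespace Pool.Agent.Helper23.Free

/-- fragments: recursive ways to fill a triangle -/
inductive Fr : Type
  | nil : Fr
  | st : Fr → Fr → Fr → Fr
  | bg : (Fin 9 → Fr) → Fr

/-- inner vertices of a fragment -/
def In : Fr → Type
  | .nil => Empty
  | .st a b c => Unit ⊕ (In a ⊕ (In b ⊕ In c))
  | .bg T => Fin 5 ⊕ ((i : Fin 9) × In (T i))

instance instFin : (T : Fr) → Fintype (In T)
  | .nil => inferInstanceAs (Fintype Empty)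
  | .st a b c =>
    letI := instFin a
    letI := instFin b
    letI := instFin c
    inferInstanceAs (Fintype (Unit ⊕ (In a ⊕ (In b ⊕ In c))))
  | .bg T =>
    letI := fun i => instFin (T i)
    inferInstanceAs (Fintype (Fin 5 ⊕ ((i : Fin 9) × In (T i))))

/-- edges of the base graph (bipyramid) except the outer edge 12 -/
def bE : List (Fin 7 × Fin 7) :=
  [(0, 1), (0, 2), (0, 3), (0, 4), (0, 5), (6, 1), (6, 2), (6, 3), (6, 4), (6, 5),
    (2, 3), (3, 4), (4, 5), (5, 1)]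

/-- inner faces of the bipyramid with outer face 012 -/
def FC : Fin 9 → Fin 7 × Fin 7 × Fin 7 :=
  ![(0, 2, 3), (0, 5, 1), (6, 1, 2), (6, 3, 2), (6, 5, 1), (0, 4, 3), (6, 3, 4), (0, 4, 5),
    (6, 5, 4)]

/-- base vertices -/
def bv {V : Type} (x y : V) (e : Fin 5 → V) : Fin 7 → V :=
  ![e 0, x, y, e 1, e 2, e 3, e 4]

/-- edges of a placed fragment (each with at least one inner end) -/
def Ed {V : Type} : (T : Fr) → V → V → V → (In T → V) → V → V → Prop
  | .nil, _, _, _, _, _, _ => False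
  | .st a b c, x, y, z, e, u, v =>
    (u = e (Sum.inl ()) ∧ (v = x ∨ v = y ∨ v = z)) ∨
      Ed a (e (Sum.inl ())) y z (fun i => e (Sum.inr (Sum.inl i))) u v ∨
      Ed b x (e (Sum.inl ())) z (fun i => e (Sum.inr (Sum.inr (Sum.inl i)))) u v ∨
      Ed c x y (e (Sum.inl ())) (fun i => e (Sum.inr (Sum.inr (Sum.inr i)))) u v
  | .bg T, x, y, z, e, u, v =>
    (u = e (Sum.inl 0) ∧ v = z) ∨
      (∃ q ∈ bE, u = bv x y (fun k => e (Sum.inl k)) q.1 ∧
        v = bv x y (fun k => e (Sum.inl k)) q.2) ∨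
      ∃ i : Fin 9, Ed (T i) (bv x y (fun k => e (Sum.inl k)) (FC i).1)
        (bv x y (fun k => e (Sum.inl k)) (FC i).2.1)
        (bv x y (fun k => e (Sum.inl k)) (FC i).2.2) (fun j => e (Sum.inr ⟨i, j⟩)) u v

/-- the fragment `T` is placed in the triangle `x y z` of the graph `G` -/
structure Pl {V : Type} (G : SimpleGraph V) (T : Fr) (x y z : V) (e : In T → V) : Prop where
  xy : G.Adj x y
  yz : G.Adj y z
  xz : G.Adj x z
  inj : Function.Injective e
  nx : ∀ i, e i ≠ x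
  ny : ∀ i, e i ≠ y
  nz : ∀ i, e i ≠ z
  ed : ∀ u v, Ed T x y z e u v → G.Adj u v

variable {V : Type} {G : SimpleGraph V}

theorem Pl.tx {a b c : Fr} {x y z : V} {e : In (.st a b c) → V} (h : Pl G (.st a b c) x y z e) :
    G.Adj (e (Sum.inl ())) x := h.ed _ _ (Or.inl ⟨rfl, Or.inl rfl⟩)

theorem Pl.ty {a b c : Fr} {x y z : V} {e : In (.st a b c) → V} (h : Pl G (.st a b c) x y z e) :
    G.Adj (e (Sum.inl ())) y := h.ed _ _ (Or.inl ⟨rfl, Or.inr (Or.inl rfl)⟩)

theorem Pl.tz {a b c : Fr} {x y z : V} {e : In (.st a b c) → V} (h : Pl G (.st a b c) x y z e) :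
    G.Adj (e (Sum.inl ())) z := h.ed _ _ (Or.inl ⟨rfl, Or.inr (Or.inr rfl)⟩)

theorem Pl.c1 {a b c : Fr} {x y z : V} {e : In (.st a b c) → V} (h : Pl G (.st a b c) x y z e) :
    Pl G a (e (Sum.inl ())) y z (fun i => e (Sum.inr (Sum.inl i))) where
  xy := h.ty
  yz := h.yz
  xz := h.tz
  inj := fun i j hij => by
    have := h.inj hij
    injection this with h1
    injection h1
  nx := fun i hi => by
    have := h.inj hi
    injection this
  ny := fun i => h.ny _
  nz := fun i => h.nz _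
  ed := fun u v huv => h.ed _ _ (Or.inr (Or.inl huv))

theorem Pl.c2 {a b c : Fr} {x y z : V} {e : In (.st a b c) → V} (h : Pl G (.st a b c) x y z e) :
    Pl G b x (e (Sum.inl ())) z (fun i => e (Sum.inr (Sum.inr (Sum.inl i)))) where
  xy := h.tx.symm
  yz := h.tz
  xz := h.xz
  inj := fun i j hij => by
    have := h.inj hij
    injection this with h1
    injection h1 with h2
    injection h2
  nx := fun i => h.nx _
  ny := fun i hi => by
    have := h.inj hi
    injection this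
  nz := fun i => h.nz _
  ed := fun u v huv => h.ed _ _ (Or.inr (Or.inr (Or.inl huv)))

theorem Pl.c3 {a b c : Fr} {x y z : V} {e : In (.st a b c) → V} (h : Pl G (.st a b c) x y z e) :
    Pl G c x y (e (Sum.inl ())) (fun i => e (Sum.inr (Sum.inr (Sum.inr i)))) where
  xy := h.xy
  yz := h.ty.symm
  xz := h.tx.symm
  inj := fun i j hij => by
    have := h.inj hij
    injection this with h1
    injection h1 with h2
    injection h2
  nx := fun i => h.nx _
  ny := fun i => h.ny _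
  nz := fun i hi => by
    have := h.inj hi
    injection this
  ed := fun u v huv => h.ed _ _ (Or.inr (Or.inr (Or.inr huv)))

/-- base vertices of a placed `bg` fragment -/
def Bv {T : Fin 9 → Fr} (x y : V) (e : In (.bg T) → V) : Fin 7 → V :=
  bv x y (fun k => e (Sum.inl k))

/-- adjacency of base vertices -/
def bA (p q : Fin 7) : Bool :=
  (p, q) ∈ bE ∨ (q, p) ∈ bE ∨ (p = 1 ∧ q = 2) ∨ (p = 2 ∧ q = 1)

theorem Pl.bz {T : Fin 9 → Fr} {x y z : V} {e : In (.bg T) → V} (h : Pl G (.bg T) x y z e) :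
    G.Adj (e (Sum.inl 0)) z := h.ed _ _ (Or.inl ⟨rfl, rfl⟩)

theorem Pl.bA {T : Fin 9 → Fr} {x y z : V} {e : In (.bg T) → V} (h : Pl G (.bg T) x y z e)
    {p q : Fin 7} (hpq : bA p q = true) : G.Adj (Bv x y e p) (Bv x y e q) := by
  simp only [Free.bA, Bool.decide_or, Bool.or_eq_true, decide_eq_true_eq] at hpq
  rcases hpq with h1 | h1 | ⟨rfl, rfl⟩ | ⟨rfl, rfl⟩
  · exact h.ed _ _ (Or.inr (Or.inl ⟨_, h1, rfl, rfl⟩))
  · exact (h.ed _ _ (Or.inr (Or.inl ⟨_, h1, rfl, rfl⟩))).symm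
  · exact h.xy
  · exact h.xy.symm

theorem FC_adj : ∀ i : Fin 9, bA (FC i).1 (FC i).2.1 = true ∧ bA (FC i).2.1 (FC i).2.2 = true ∧
    bA (FC i).1 (FC i).2.2 = true := by decide

theorem Pl.bv_ne {T : Fin 9 → Fr} {x y z : V} {e : In (.bg T) → V} (h : Pl G (.bg T) x y z e)
    (p : Fin 7) (i : Fin 9) (j : In (T i)) : e (Sum.inr ⟨i, j⟩) ≠ Bv x y e p := by
  have k : ∀ k : Fin 5, e (Sum.inr ⟨i, j⟩) ≠ e (Sum.inl k) := by
    intro k hk
    have := h.inj hk
    injection this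
  fin_cases p
  · exact k 0
  · exact h.nx _
  · exact h.ny _
  · exact k 1
  · exact k 2
  · exact k 3
  · exact k 4

theorem Pl.ch {T : Fin 9 → Fr} {x y z : V} {e : In (.bg T) → V} (h : Pl G (.bg T) x y z e)
    (i : Fin 9) :
    Pl G (T i) (Bv x y e (FC i).1) (Bv x y e (FC i).2.1) (Bv x y e (FC i).2.2)
      (fun j => e (Sum.inr ⟨i, j⟩)) where
  xy := h.bA (FC_adj i).1
  yz := h.bA (FC_adj i).2.1
  xz := h.bA (FC_adj i).2.2
  inj := fun j k hjk => by
    have := h.inj hjk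
    injection this with h1
    injection h1 with _ h2
  nx := fun j => h.bv_ne _ _ _
  ny := fun j => h.bv_ne _ _ _
  nz := fun j => h.bv_ne _ _ _
  ed := fun u v huv => h.ed _ _ (Or.inr (Or.inr ⟨i, huv⟩))

/-- the first vertex of a fragment -/
def hd : (T : Fr) → In T → In T
  | .nil, i => i
  | .st _ _ _, _ => Sum.inl ()
  | .bg _, _ => Sum.inl 0

theorem Pl.hdx {T : Fr} {x y z : V} {e : In T → V} (h : Pl G T x y z e) (i : In T) :
    G.Adj (e (hd T i)) x ∧ G.Adj (e (hd T i)) y ∧ G.Adj (e (hd T i)) z := by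
  match T, e, h, i with
  | .nil, e, h, i => exact i.elim
  | .st a b c, e, h, i => exact ⟨h.tx, h.ty, h.tz⟩
  | .bg T, e, h, i =>
    exact ⟨h.bA (p := 0) (q := 1) (by decide), h.bA (p := 0) (q := 2) (by decide), h.bz⟩

end Pool.Agent.Helper23.Free
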