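import Pool.Agent.Helper23.Free.Glue

set_option autoImplicit false

namespace Pool.Agent.Helper23.Free

def wB : Fin 8 → I3 :=
  ![(5, 5, 5), (15, 0, 0), (0, 15, 0), (4, 10, 1), (6, 6, 3), (10, 4, 1), (7, 7, 1), (0, 0, 15)]

def wS : Fin 8 → I3 :=
  ![(1, 1, 1), (3, 0, 0), (0, 3, 0), (1, 1, 1), (1, 1, 1), (1, 1, 1), (1, 1, 1), (0, 0, 3)]

def nk : Fin 5 → Fin 8 := ![0, 3, 4, 5, 6]

def FB (i : Fin 9) : Cell := ((FC i).1.castSucc, (FC i).2.1.castSucc, (FC i).2.2.castSucc)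

noncomputable def pos : (T : Fr) → Pt → Pt → Pt → In T → Pt
  | .nil, _, _, _, i => i.elim
  | .st a b c, A, B, C, i =>
    match i with
    | Sum.inl _ => Pw A B C ((3 : ℤ) : ℝ) (wS 0)
    | Sum.inr (Sum.inl i) => pos a (Pw A B C ((3 : ℤ) : ℝ) (wS 0)) B C i
    | Sum.inr (Sum.inr (Sum.inl i)) => pos b A (Pw A B C ((3 : ℤ) : ℝ) (wS 0)) C i
    | Sum.inr (Sum.inr (Sum.inr i)) => pos c A B (Pw A B C ((3 : ℤ) : ℝ) (wS 0)) i
  | .bg T, A, B, C, i =>
    match i with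
    | Sum.inl k => Pw A B C ((15 : ℤ) : ℝ) (wB (nk k))
    | Sum.inr ⟨i, j⟩ => pos (T i) (Pw A B C ((15 : ℤ) : ℝ) (wB (FB i).1))
        (Pw A B C ((15 : ℤ) : ℝ) (wB (FB i).2.1)) (Pw A B C ((15 : ℤ) : ℝ) (wB (FB i).2.2)) j

def dd (a b c : I3) : ℤ :=
  a.1 * (b.2.1 * c.2.2 - b.2.2 * c.2.1) - a.2.1 * (b.1 * c.2.2 - b.2.2 * c.1) +
    a.2.2 * (b.1 * c.2.1 - b.2.1 * c.1)

theorem D3_Pw {A B C : Pt} {S : ℤ} (hS : 0 < S) {a b c : I3} (ha : sm a = S) (hb : sm b = S)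
    (hc : sm c = S) : D3 (Pw A B C S a) (Pw A B C S b) (Pw A B C S c) =
      (dd a b c : ℝ) / (S : ℝ) ^ 3 * D3 A B C := by
  obtain ⟨a1, a2, a3⟩ := a
  obtain ⟨b1, b2, b3⟩ := b
  obtain ⟨c1, c2, c3⟩ := c
  unfold sm at ha hb hc
  simp only at ha hb hc
  have e1 : a3 = S - a1 - a2 := by linarith
  have e2 : b3 = S - b1 - b2 := by linarith
  have e3 : c3 = S - c1 - c2 := by linarith
  subst e1 e2 e3
  have hSr : (S : ℝ) ≠ 0 := by exact_mod_cast hS.ne'
  unfold Pw dd D3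
  push_cast
  field_simp
  ring

theorem D3_Pw_ne {A B C : Pt} (nd : D3 A B C ≠ 0) {S : ℤ} (hS : 0 < S) {a b c : I3}
    (ha : sm a = S) (hb : sm b = S) (hc : sm c = S) (hd : dd a b c ≠ 0) :
    D3 (Pw A B C S a) (Pw A B C S b) (Pw A B C S c) ≠ 0 := by
  rw [D3_Pw hS ha hb hc]
  have hSr : (S : ℝ) ≠ 0 := by exact_mod_cast hS.ne'
  have hdr : (dd a b c : ℝ) ≠ 0 := by exact_mod_cast hd
  positivity

def LB : List I3 :=
  [(-1, 1, 0), (1, -1, 0), (1, 1, -14), (-1, -1, 14), (-3, 1, 2), (-1, 3, -2), (4, -1, -6),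
   (1, -4, 6), (0, -1, 4), (1, 0, -4), (-1, 0, 4), (0, 1, -4), (3, -1, -2), (1, -3, 2),
   (0, -1, 7), (1, 0, -7), (-4, 1, 6), (-1, 4, -6), (0, 1, -7), (-1, 0, 7), (0, 1, -1),
   (-1, 0, 1), (0, -1, 1), (1, 0, -1)]

def LS : List I3 := [(1, -1, 0), (-1, 1, 0), (1, 0, -1), (-1, 0, 1), (0, 1, -1), (0, -1, 1)]

def VB : List (Fin 8) := [0, 3, 4, 5, 6]

def EB : List (Fin 8 × Fin 8) :=
  [(0, 7), (0, 1), (0, 2), (0, 3), (0, 4), (0, 5), (6, 1), (6, 2), (6, 3), (6, 4), (6, 5),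
    (2, 3), (3, 4), (4, 5), (5, 1)]

def FS : Fin 3 → Cell := ![(0, 2, 7), (1, 0, 7), (1, 2, 0)]

def ES : List (Fin 8 × Fin 8) := [(0, 1), (0, 2), (0, 7)]

theorem b1 : ∀ s ∈ VB.map (fun k => ((k, k, k) : Cell)) ++ EB.map (fun q => (q.1, q.2, q.2)) ++
      List.ofFn FB, ∀ t ∈ VB.map (fun k => ((k, k, k) : Cell)) ++
      EB.map (fun q => (q.1, q.2, q.2)) ++
      List.ofFn FB, s = t ∨ ∃ l ∈ LB, sepb wB l s t = true := by
  decide +kernel

theorem b2 : ∀ s ∈ VB.map (fun k => ((k, k, k) : Cell)) ++ EB.map (fun q => (q.1, q.2, q.2)) ++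
      List.ofFn FB, inn wB s = true := by
  decide +kernel

theorem s1 : ∀ s ∈ [(0 : Fin 8)].map (fun k => ((k, k, k) : Cell)) ++
      ES.map (fun q => (q.1, q.2, q.2)) ++
      List.ofFn FS, ∀ t ∈ [(0 : Fin 8)].map (fun k => ((k, k, k) : Cell)) ++
      ES.map (fun q => (q.1, q.2, q.2)) ++
      List.ofFn FS, s = t ∨ ∃ l ∈ LS, sepb wS l s t = true := by
  decide +kernel

theorem s2 : ∀ s ∈ [(0 : Fin 8)].map (fun k => ((k, k, k) : Cell)) ++
      ES.map (fun q => (q.1, q.2, q.2)) ++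
      List.ofFn FS, inn wS s = true := by
  decide +kernel

theorem Val.congr {V : Type} {P : V → Pt} {N N' : V → Prop} {R R' : V → V → Prop} {x y z : V}
    (h : Val P N R x y z) (hN : ∀ v, N' v → N v) (hR : ∀ u v, R' u v → R u v) :
    Val P N' R' x y z where
  ins := fun v hv => h.ins v (hN v hv)
  inj := fun v v' hv hv' => h.inj v v' (hN v hv) (hN v' hv')
  edge := fun u v huv => h.edge u v (hR u v huv)
  ve := fun u v huv s hs => h.ve u v (hR u v huv) s (hN s hs)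
  ee := fun u v u' v' h1 h2 => h.ee u v u' v' (hR _ _ h1) (hR _ _ h2)

theorem Pw_A (A B C : Pt) (S : ℤ) (hS : 0 < S) : Pw A B C S (S, 0, 0) = A := by
  have hSr : (S : ℝ) ≠ 0 := by exact_mod_cast hS.ne'
  unfold Pw
  ext <;> simp <;> field_simp

theorem Pw_B (A B C : Pt) (S : ℤ) (hS : 0 < S) : Pw A B C S (0, S, 0) = B := by
  have hSr : (S : ℝ) ≠ 0 := by exact_mod_cast hS.ne'
  unfold Pw
  ext <;> simp <;> field_simp

theorem Pw_C (A B C : Pt) (S : ℤ) (hS : 0 < S) : Pw A B C S (0, 0, S) = C := by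
  have hSr : (S : ℝ) ≠ 0 := by exact_mod_cast hS.ne'
  unfold Pw
  ext <;> simp <;> field_simp

theorem wB_sm : ∀ k, sm (wB k) = 15 := by decide

theorem wS_sm : ∀ k, sm (wS k) = 3 := by decide

theorem FB_dd : ∀ i, dd (wB (FB i).1) (wB (FB i).2.1) (wB (FB i).2.2) ≠ 0 := by decide

theorem draw (T : Fr) : ∀ {V : Type} (P : V → Pt) {x y z : V} (e : In T → V),
    D3 (P x) (P y) (P z) ≠ 0 → (∀ i, P (e i) = pos T (P x) (P y) (P z) i) →
    Val P (fun v => ∃ i, v = e i) (Ed T x y z e) x y z := by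
  induction T with
  | nil =>
    intro V P x y z e nd h
    exact ⟨fun v ⟨i, _⟩ => i.elim, fun v v' ⟨i, _⟩ => i.elim, fun u v huv => huv.elim,
      fun u v huv => huv.elim, fun u v u' v' huv => huv.elim⟩
  | st a b c iha ihb ihc =>
    intro V P x y z e nd h
    set t := e (Sum.inl ()) with ht
    let QV : Fin 8 → V := ![t, x, y, t, t, t, t, z]
    have hT : P t = Pw (P x) (P y) (P z) ((3 : ℤ) : ℝ) (wS 0) := h (Sum.inl ())
    have hP : ∀ k, P (QV k) = Pw (P x) (P y) (P z) ((3 : ℤ) : ℝ) (wS k) := by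
      intro k
      fin_cases k
      · exact hT
      · exact (Pw_A _ _ _ 3 (by norm_num)).symm
      · exact (Pw_B _ _ _ 3 (by norm_num)).symm
      · exact hT
      · exact hT
      · exact hT
      · exact hT
      · exact (Pw_C _ _ _ 3 (by norm_num)).symm
    have nd0 : D3 (P t) (P y) (P z) ≠ 0 := by
      have := D3_Pw_ne nd (S := 3) (by norm_num) (wS_sm 0) (wS_sm 2) (wS_sm 7) (by decide)
      rw [← hP, ← hP, ← hP] at this
      exact this
    have nd1 : D3 (P x) (P t) (P z) ≠ 0 := by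
      have := D3_Pw_ne nd (S := 3) (by norm_num) (wS_sm 1) (wS_sm 0) (wS_sm 7) (by decide)
      rw [← hP, ← hP, ← hP] at this
      exact this
    have nd2 : D3 (P x) (P y) (P t) ≠ 0 := by
      have := D3_Pw_ne nd (S := 3) (by norm_num) (wS_sm 1) (wS_sm 2) (wS_sm 0) (by decide)
      rw [← hP, ← hP, ← hP] at this
      exact this
    have v0 := iha P (x := t) (y := y) (z := z) (fun i => e (Sum.inr (Sum.inl i))) nd0
      (fun i => by rw [hT]; exact h (Sum.inr (Sum.inl i)))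
    have v1 := ihb P (x := x) (y := t) (z := z) (fun i => e (Sum.inr (Sum.inr (Sum.inl i)))) nd1
      (fun i => by rw [hT]; exact h (Sum.inr (Sum.inr (Sum.inl i))))
    have v2 := ihc P (x := x) (y := y) (z := t) (fun i => e (Sum.inr (Sum.inr (Sum.inr i)))) nd2
      (fun i => by rw [hT]; exact h (Sum.inr (Sum.inr (Sum.inr i))))
    have hV : ∀ i : Fin 3, Val P
        ((![fun v => ∃ i, v = e (Sum.inr (Sum.inl i)),
          fun v => ∃ i, v = e (Sum.inr (Sum.inr (Sum.inl i))),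
          fun v => ∃ i, v = e (Sum.inr (Sum.inr (Sum.inr i)))] : Fin 3 → V → Prop) i)
        ((![Ed a t y z (fun i => e (Sum.inr (Sum.inl i))),
          Ed b x t z (fun i => e (Sum.inr (Sum.inr (Sum.inl i)))),
          Ed c x y t (fun i => e (Sum.inr (Sum.inr (Sum.inr i))))] : Fin 3 → V → V → Prop) i)
        (QV (FS i).1) (QV (FS i).2.1) (QV (FS i).2.2) := by
      intro i
      fin_cases i
      · exact v0
      · exact v1
      · exact v2
    refine (glue QV FS [0] ES LS _ _ nd (S := 3) (by norm_num) wS_sm hP hV s1 s2 (by decide)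
      (by decide) (by decide)).congr ?_ ?_
    · rintro v ⟨i, rfl⟩
      match i with
      | Sum.inl () => exact Or.inl ⟨0, by simp, rfl⟩
      | Sum.inr (Sum.inl i) => exact Or.inr ⟨0, i, rfl⟩
      | Sum.inr (Sum.inr (Sum.inl i)) => exact Or.inr ⟨1, i, rfl⟩
      | Sum.inr (Sum.inr (Sum.inr i)) => exact Or.inr ⟨2, i, rfl⟩
    · rintro u v (⟨rfl, h1⟩ | h1 | h1 | h1)
      · rcases h1 with rfl | rfl | rfl
        · exact Or.inl ⟨(0, 1), by decide, rfl, rfl⟩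
        · exact Or.inl ⟨(0, 2), by decide, rfl, rfl⟩
        · exact Or.inl ⟨(0, 7), by decide, rfl, rfl⟩
      · exact Or.inr ⟨0, h1⟩
      · exact Or.inr ⟨1, h1⟩
      · exact Or.inr ⟨2, h1⟩
  | bg T ih =>
    intro V P x y z e nd h
    let QV : Fin 8 → V := ![e (Sum.inl 0), x, y, e (Sum.inl 1), e (Sum.inl 2), e (Sum.inl 3),
      e (Sum.inl 4), z]
    have hP : ∀ k, P (QV k) = Pw (P x) (P y) (P z) ((15 : ℤ) : ℝ) (wB k) := by
      intro k
      fin_cases k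
      · exact h (Sum.inl 0)
      · exact (Pw_A _ _ _ 15 (by norm_num)).symm
      · exact (Pw_B _ _ _ 15 (by norm_num)).symm
      · exact h (Sum.inl 1)
      · exact h (Sum.inl 2)
      · exact h (Sum.inl 3)
      · exact h (Sum.inl 4)
      · exact (Pw_C _ _ _ 15 (by norm_num)).symm
    have hb : ∀ k : Fin 7, bv x y (fun k => e (Sum.inl k)) k = QV k.castSucc := by
      intro k
      fin_cases k <;> rfl
    have hV : ∀ i : Fin 9, Val P (fun v => ∃ j, v = e (Sum.inr ⟨i, j⟩))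
        (Ed (T i) (QV (FB i).1) (QV (FB i).2.1) (QV (FB i).2.2) (fun j => e (Sum.inr ⟨i, j⟩)))
        (QV (FB i).1) (QV (FB i).2.1) (QV (FB i).2.2) := by
      intro i
      refine ih i P (x := QV (FB i).1) (y := QV (FB i).2.1) (z := QV (FB i).2.2)
        (fun j => e (Sum.inr ⟨i, j⟩)) ?_ ?_
      · rw [hP, hP, hP]
        exact D3_Pw_ne nd (by norm_num) (wB_sm _) (wB_sm _) (wB_sm _) (FB_dd i)
      · intro j
        rw [hP, hP, hP]
        exact h (Sum.inr ⟨i, j⟩)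
    refine (glue QV FB VB EB LB _ _ nd (S := 15) (by norm_num) wB_sm hP hV b1 b2 (by decide)
      (by decide) (by decide)).congr ?_ ?_
    · rintro v ⟨i, rfl⟩
      match i with
      | Sum.inl k =>
        left
        fin_cases k
        · exact ⟨0, by decide, rfl⟩
        · exact ⟨3, by decide, rfl⟩
        · exact ⟨4, by decide, rfl⟩
        · exact ⟨5, by decide, rfl⟩
        · exact ⟨6, by decide, rfl⟩
      | Sum.inr ⟨i, j⟩ => exact Or.inr ⟨i, j, rfl⟩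
    · rintro u v (⟨rfl, rfl⟩ | ⟨q, hq, rfl, rfl⟩ | ⟨i, h1⟩)
      · exact Or.inl ⟨(0, 7), by decide, rfl, rfl⟩
      · refine Or.inl ⟨(q.1.castSucc, q.2.castSucc), ?_, hb _, hb _⟩
        have : ∀ q ∈ bE, ((q.1.castSucc, q.2.castSucc) : Fin 8 × Fin 8) ∈ EB := by decide
        exact this q hq
      · refine Or.inr ⟨i, ?_⟩
        rw [hb, hb, hb] at h1
        exact h1

end Pool.Agent.Helper23.Free
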