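import Mathlib

set_option autoImplicit false

namespace Pool.Agent.Helper23.Free

abbrev Pt := ℝ × ℝ

def D3 (a b c : Pt) : ℝ := (b.1 - a.1) * (c.2 - a.2) - (b.2 - a.2) * (c.1 - a.1)

def Ins (p a b c : Pt) : Prop :=
  ∃ α β γ : ℝ, 0 < α ∧ 0 < β ∧ 0 < γ ∧ α + β + γ = 1 ∧
    p.1 = α * a.1 + β * b.1 + γ * c.1 ∧ p.2 = α * a.2 + β * b.2 + γ * c.2

theorem Ins.swap12 {p a b c : Pt} (h : Ins p a b c) : Ins p b a c := by
  obtain ⟨α, β, γ, h1, h2, h3, h4, h5, h6⟩ := h
  exact ⟨β, α, γ, h2, h1, h3, by linarith, by linarith, by linarith⟩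

theorem Ins.swap23 {p a b c : Pt} (h : Ins p a b c) : Ins p a c b := by
  obtain ⟨α, β, γ, h1, h2, h3, h4, h5, h6⟩ := h
  exact ⟨α, γ, β, h1, h3, h2, by linarith, by linarith, by linarith⟩

theorem Ins.swap13 {p a b c : Pt} (h : Ins p a b c) : Ins p c b a :=
  h.swap12.swap23.swap12

theorem Ins.rot {p a b c : Pt} (h : Ins p a b c) : Ins p b c a :=
  h.swap12.swap23

theorem Ins.rot' {p a b c : Pt} (h : Ins p a b c) : Ins p c a b :=
  h.rot.rot

theorem D3_rot (a b c : Pt) : D3 b c a = D3 a b c := by unfold D3; ring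

theorem D3_swap12 (a b c : Pt) : D3 b a c = - D3 a b c := by unfold D3; ring

theorem D3_swap23 (a b c : Pt) : D3 a c b = - D3 a b c := by unfold D3; ring

theorem bary {a b c : Pt} (h : D3 a b c ≠ 0) (p : Pt) :
    ∃ α β γ : ℝ, α + β + γ = 1 ∧
      p.1 = α * a.1 + β * b.1 + γ * c.1 ∧ p.2 = α * a.2 + β * b.2 + γ * c.2 := by
  refine ⟨D3 p b c / D3 a b c, D3 a p c / D3 a b c, D3 a b p / D3 a b c, ?_, ?_, ?_⟩
  · field_simp
    unfold D3; ring
  · field_simp
    unfold D3; ring
  · field_simp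
    unfold D3; ring

theorem D3_comb {p a b c u v : Pt} {α β γ : ℝ} (hs : α + β + γ = 1)
    (h1 : p.1 = α * a.1 + β * b.1 + γ * c.1) (h2 : p.2 = α * a.2 + β * b.2 + γ * c.2) :
    D3 p u v = α * D3 a u v + β * D3 b u v + γ * D3 c u v := by
  have hα : α = 1 - β - γ := by linarith
  subst hα
  unfold D3
  rw [h1, h2]
  ring

theorem mem_seg {p a b : Pt} {s t : ℝ} (hs : 0 ≤ s) (ht : 0 ≤ t) (h : s + t = 1)
    (h1 : p.1 = s * a.1 + t * b.1) (h2 : p.2 = s * a.2 + t * b.2) : p ∈ segment ℝ a b := by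
  refine ⟨s, t, hs, ht, h, ?_⟩
  ext <;> simp [h1, h2]

theorem seg_mem {p a b : Pt} (h : p ∈ segment ℝ a b) : ∃ s t : ℝ, 0 ≤ s ∧ 0 ≤ t ∧ s + t = 1 ∧
    p.1 = s * a.1 + t * b.1 ∧ p.2 = s * a.2 + t * b.2 := by
  obtain ⟨s, t, hs, ht, h, rfl⟩ := h
  exact ⟨s, t, hs, ht, h, by simp, by simp⟩

/-- A crossing-free straight-line drawing, in the form of the frozen statement. -/
structure Dw {V : Type} (G : SimpleGraph V) (f : V → Pt) : Prop where
  inj : Function.Injective f
  ve : ∀ u v w : V, G.Adj u v → w ≠ u → w ≠ v → f w ∉ segment ℝ (f u) (f v)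
  ee : ∀ u v x y : V, G.Adj u v → G.Adj x y → ¬(u = x ∧ v = y) → ¬(u = y ∧ v = x) →
    ∀ p ∈ segment ℝ (f u) (f v), p ∈ segment ℝ (f x) (f y) →
      p ∈ f '' (({u, v} : Set V) ∩ {x, y})

variable {V : Type} {G : SimpleGraph V} {f : V → Pt}

theorem Dw.noX (h : Dw G f) {u v x y : V} (huv : G.Adj u v) (hxy : G.Adj x y)
    (h1 : u ≠ x) (h2 : u ≠ y) (h3 : v ≠ x) (h4 : v ≠ y) {p : Pt}
    (hp : p ∈ segment ℝ (f u) (f v)) (hq : p ∈ segment ℝ (f x) (f y)) : False := by
  have := h.ee u v x y huv hxy (fun e => h1 e.1) (fun e => h2 e.1) p hp hq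
  obtain ⟨w, ⟨hw1, hw2⟩, _⟩ := this
  simp only [Set.mem_insert_iff, Set.mem_singleton_iff] at hw1 hw2
  rcases hw1 with rfl | rfl <;> rcases hw2 with rfl | rfl <;> simp_all

theorem collin {a b c : Pt} (h : D3 a b c = 0) (hab : a ≠ b) :
    ∃ t : ℝ, c.1 = (1 - t) * a.1 + t * b.1 ∧ c.2 = (1 - t) * a.2 + t * b.2 := by
  have hn : (b.1 - a.1) ^ 2 + (b.2 - a.2) ^ 2 ≠ 0 := by
    intro h0
    apply hab
    have h1 : b.1 - a.1 = 0 := by nlinarith [sq_nonneg (b.1 - a.1), sq_nonneg (b.2 - a.2)]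
    have h2 : b.2 - a.2 = 0 := by nlinarith [sq_nonneg (b.1 - a.1), sq_nonneg (b.2 - a.2)]
    ext <;> linarith
  refine ⟨((c.1 - a.1) * (b.1 - a.1) + (c.2 - a.2) * (b.2 - a.2)) /
    ((b.1 - a.1) ^ 2 + (b.2 - a.2) ^ 2), ?_, ?_⟩
  · field_simp
    unfold D3 at h
    linear_combination (-(b.2 - a.2)) * h
  · field_simp
    unfold D3 at h
    linear_combination (b.1 - a.1) * h

theorem Dw.nondeg (h : Dw G f) {x y z : V} (hxy : G.Adj x y) (hyz : G.Adj y z)
    (hxz : G.Adj x z) : D3 (f x) (f y) (f z) ≠ 0 := by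
  intro h0
  have nxy := hxy.ne
  have nyz := hyz.ne
  have nxz := hxz.ne
  obtain ⟨t, h1, h2⟩ := collin h0 (fun e => nxy (h.inj e))
  rcases lt_trichotomy t 0 with ht | ht | ht
  · -- x between z and y
    apply h.ve z y x hyz.symm nxz nxy
    refine mem_seg (s := 1 / (1 - t)) (t := (-t) / (1 - t)) ?_ ?_ ?_ ?_ ?_
    · exact div_nonneg (by norm_num) (by linarith)
    · exact div_nonneg (by linarith) (by linarith)
    · have : (1 - t) ≠ 0 := by linarith
      field_simp
      ring
    · have : (1 - t) ≠ 0 := by linarith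
      rw [h1]; field_simp; ring
    · have : (1 - t) ≠ 0 := by linarith
      rw [h2]; field_simp; ring
  · subst ht
    apply nxz
    apply h.inj
    ext <;> simp_all
  · rcases le_or_gt t 1 with ht1 | ht1
    · apply h.ve x y z hxy nxz.symm nyz.symm
      exact mem_seg (s := 1 - t) (t := t) (by linarith) (by linarith) (by ring) h1 h2
    · apply h.ve x z y hxz nxy.symm nyz
      refine mem_seg (s := (t - 1) / t) (t := 1 / t) ?_ ?_ ?_ ?_ ?_
      · exact div_nonneg (by linarith) (by linarith)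
      · exact div_nonneg (by norm_num) (by linarith)
      · have : t ≠ 0 := by linarith
        field_simp
        ring
      · have : t ≠ 0 := by linarith
        rw [h1]; field_simp; ring
      · have : t ≠ 0 := by linarith
        rw [h2]; field_simp; ring

theorem exit_time {a1 a2 a3 b1 b2 b3 : ℝ} (h1 : 0 < a1) (h2 : 0 < a2) (h3 : 0 < a3)
    (hb : ¬ (0 < b1 ∧ 0 < b2 ∧ 0 < b3)) :
    ∃ t : ℝ, 0 ≤ t ∧ t ≤ 1 ∧ 0 ≤ (1 - t) * a1 + t * b1 ∧ 0 ≤ (1 - t) * a2 + t * b2 ∧
      0 ≤ (1 - t) * a3 + t * b3 ∧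
      ((1 - t) * a1 + t * b1 = 0 ∨ (1 - t) * a2 + t * b2 = 0 ∨ (1 - t) * a3 + t * b3 = 0) := by
  let g : ℝ → ℝ := fun t => min ((1 - t) * a1 + t * b1)
    (min ((1 - t) * a2 + t * b2) ((1 - t) * a3 + t * b3))
  have hg : Continuous g := by
    apply Continuous.min (by fun_prop)
    apply Continuous.min (by fun_prop) (by fun_prop)
  have g0 : 0 ≤ g 0 := by simp [g, h1.le, h2.le, h3.le]
  have g1 : g 1 ≤ 0 := by
    simp only [g, sub_self, zero_mul, one_mul, zero_add]
    by_contra hc
    push Not at hc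
    rw [lt_min_iff, lt_min_iff] at hc
    exact hb hc
  have := intermediate_value_Icc' (show (0 : ℝ) ≤ 1 by norm_num) hg.continuousOn
  obtain ⟨t, ⟨ht0, ht1⟩, ht⟩ := this ⟨g1, g0⟩
  refine ⟨t, ht0, ht1, ?_, ?_, ?_, ?_⟩
  · rw [← ht]; exact min_le_left _ _
  · rw [← ht]; exact (min_le_right _ _).trans (min_le_left _ _)
  · rw [← ht]; exact (min_le_right _ _).trans (min_le_right _ _)
  · simp only [g] at ht
    rcases min_choice ((1 - t) * a1 + t * b1)
      (min ((1 - t) * a2 + t * b2) ((1 - t) * a3 + t * b3)) with h | h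
    · left; rw [← h]; exact ht
    · right
      rw [h] at ht
      rcases min_choice ((1 - t) * a2 + t * b2) ((1 - t) * a3 + t * b3) with h' | h'
      · left; rw [← h']; exact ht
      · right; rw [← h']; exact ht

theorem not_Ins_self {a b c : Pt} (h : D3 a b c ≠ 0) : ¬ Ins a a b c := by
  rintro ⟨α, β, γ, hα, hβ, hγ, hs, h1, h2⟩
  have := D3_comb (u := b) (v := c) hs h1 h2
  have e1 : D3 b b c = 0 := by unfold D3; ring
  have e2 : D3 c b c = 0 := by unfold D3; ring
  rw [e1, e2] at this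
  have h3 : (1 - α) * D3 a b c = 0 := by linarith
  rcases mul_eq_zero.mp h3 with h4 | h4
  · linarith
  · exact h h4

/-- neighbours of an interior vertex stay in the triangle -/
theorem Dw.step (h : Dw G f) {x y z u v : V} (hxy : G.Adj x y) (hyz : G.Adj y z)
    (hxz : G.Adj x z) (hu : Ins (f u) (f x) (f y) (f z)) (huv : G.Adj u v)
    (h1 : v ≠ x) (h2 : v ≠ y) (h3 : v ≠ z) : Ins (f v) (f x) (f y) (f z) := by
  have nd := h.nondeg hxy hyz hxz
  have nux : u ≠ x := by
    rintro rfl; exact not_Ins_self nd hu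
  have nuy : u ≠ y := by
    rintro rfl
    exact not_Ins_self (a := f u) (b := f z) (c := f x) (by rwa [D3_rot]) hu.rot
  have nuz : u ≠ z := by
    rintro rfl
    exact not_Ins_self (a := f u) (b := f x) (c := f y) (by rw [D3_rot, D3_rot] ; exact nd)
      hu.rot.rot
  obtain ⟨α, β, γ, hα, hβ, hγ, hs, e1, e2⟩ := hu
  obtain ⟨α', β', γ', hs', e1', e2'⟩ := bary nd (f v)
  by_contra hcon
  have hb : ¬ (0 < α' ∧ 0 < β' ∧ 0 < γ') := by
    rintro ⟨q1, q2, q3⟩
    exact hcon ⟨α', β', γ', q1, q2, q3, hs', e1', e2'⟩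
  obtain ⟨t, t0, t1, c1, c2, c3, hz⟩ := exit_time hα hβ hγ hb
  set p : Pt := ((1 - t) * (f u).1 + t * (f v).1, (1 - t) * (f u).2 + t * (f v).2) with hp
  have pm : p ∈ segment ℝ (f u) (f v) :=
    mem_seg (s := 1 - t) (t := t) (by linarith) t0 (by ring) rfl rfl
  have hsum : ((1 - t) * α + t * α') + ((1 - t) * β + t * β') + ((1 - t) * γ + t * γ') = 1 := by
    linear_combination (1 - t) * hs + t * hs'
  rcases hz with hz | hz | hz
  · refine h.noX huv hyz nuy nuz h2 h3 pm
      (mem_seg (s := (1 - t) * β + t * β') (t := (1 - t) * γ + t * γ') c2 c3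
        (by linarith) ?_ ?_)
    · simp only [hp, e1, e1']; linear_combination (f x).1 * hz
    · simp only [hp, e2, e2']; linear_combination (f x).2 * hz
  · refine h.noX huv hxz nux nuz h1 h3 pm
      (mem_seg (s := (1 - t) * α + t * α') (t := (1 - t) * γ + t * γ') c1 c3
        (by linarith) ?_ ?_)
    · simp only [hp, e1, e1']; linear_combination (f y).1 * hz
    · simp only [hp, e2, e2']; linear_combination (f y).2 * hz
  · refine h.noX huv hxy nux nuy h1 h2 pm
      (mem_seg (s := (1 - t) * α + t * α') (t := (1 - t) * β + t * β') c1 c2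
        (by linarith) ?_ ?_)
    · simp only [hp, e1, e1']; linear_combination (f z).1 * hz
    · simp only [hp, e2, e2']; linear_combination (f z).2 * hz


/-- four mutually adjacent vertices: one of them is inside the triangle of the others -/
theorem Dw.k4 (h : Dw G f) {t x y z : V} (hxy : G.Adj x y) (hyz : G.Adj y z)
    (hxz : G.Adj x z) (htx : G.Adj t x) (hty : G.Adj t y) (htz : G.Adj t z) :
    Ins (f t) (f x) (f y) (f z) ∨ Ins (f x) (f t) (f y) (f z) ∨
      Ins (f y) (f x) (f t) (f z) ∨ Ins (f z) (f x) (f y) (f t) := by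
  have nd := h.nondeg hxy hyz hxz
  obtain ⟨α, β, γ, hs, e1, e2⟩ := bary nd (f t)
  have d1 : D3 (f t) (f y) (f z) = α * D3 (f x) (f y) (f z) := by
    rw [D3_comb hs e1 e2]; unfold D3; ring
  have d2 : D3 (f t) (f z) (f x) = β * D3 (f x) (f y) (f z) := by
    rw [D3_comb hs e1 e2]; unfold D3; ring
  have d3 : D3 (f t) (f x) (f y) = γ * D3 (f x) (f y) (f z) := by
    rw [D3_comb hs e1 e2]; unfold D3; ring
  have n1 := h.nondeg hty hyz htz
  have n2 := h.nondeg htz hxz.symm htx
  have n3 := h.nondeg htx hxy hty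
  have a0 : α ≠ 0 := by rintro rfl; apply n1; rw [d1]; ring
  have b0 : β ≠ 0 := by rintro rfl; apply n2; rw [d2]; ring
  have c0 : γ ≠ 0 := by rintro rfl; apply n3; rw [d3]; ring
  have crossing : ∀ {α β γ : ℝ} {x y z : V}, G.Adj x y → G.Adj t z → t ≠ x → t ≠ y → z ≠ x →
      z ≠ y → α + β + γ = 1 → (f t).1 = α * (f x).1 + β * (f y).1 + γ * (f z).1 →
      (f t).2 = α * (f x).2 + β * (f y).2 + γ * (f z).2 → 0 < α → 0 < β → γ < 0 → False := by
    intro α β γ x y z hxy htz q1 q2 q3 q4 hs e1 e2 ha hb hc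
    have hpos : 0 < 1 - γ := by linarith
    have hne : 1 - γ ≠ 0 := hpos.ne'
    refine h.noX (u := t) (v := z) (x := x) (y := y)
      (p := ((α * (f x).1 + β * (f y).1) / (1 - γ), (α * (f x).2 + β * (f y).2) / (1 - γ)))
      htz hxy q1 q2 q3 q4
      (mem_seg (s := 1 / (1 - γ)) (t := (-γ) / (1 - γ)) (by positivity)
        (div_nonneg (by linarith) hpos.le) (by field_simp; ring) ?_ ?_)
      (mem_seg (s := α / (1 - γ)) (t := β / (1 - γ)) (by positivity) (by positivity)
        (by field_simp; linarith) ?_ ?_)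
    · simp only [e1]; field_simp; ring
    · simp only [e2]; field_simp; ring
    · field_simp
    · field_simp
  have two : ∀ {α β γ : ℝ} {T X Y Z : Pt}, α + β + γ = 1 →
      T.1 = α * X.1 + β * Y.1 + γ * Z.1 → T.2 = α * X.2 + β * Y.2 + γ * Z.2 →
      0 < α → β < 0 → γ < 0 → Ins X T Y Z := by
    intro α β γ T X Y Z hs e1 e2 ha hb hc
    refine ⟨1 / α, (-β) / α, (-γ) / α, by positivity, div_pos (by linarith) ha,
      div_pos (by linarith) ha, ?_, ?_, ?_⟩
    · field_simp; linarith
    · rw [e1]; field_simp; ring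
    · rw [e2]; field_simp; ring
  rcases lt_or_gt_of_ne a0 with ha | ha <;> rcases lt_or_gt_of_ne b0 with hb | hb <;>
    rcases lt_or_gt_of_ne c0 with hc | hc
  · exfalso; linarith
  · -- only γ > 0
    right; right; right
    have := two (α := γ) (β := β) (γ := α) (T := f t) (X := f z) (Y := f y) (Z := f x)
      (by linarith) (by linarith) (by linarith) hc hb ha
    exact this.swap13
  · right; right; left
    have := two (α := β) (β := α) (γ := γ) (T := f t) (X := f y) (Y := f x) (Z := f z)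
      (by linarith) (by linarith) (by linarith) hb ha hc
    exact this.swap12
  · exfalso
    exact crossing (α := β) (β := γ) (γ := α) (x := y) (y := z) (z := x) hyz htx hty.ne htz.ne
      hxy.ne hxz.ne (by linarith) (by linarith) (by linarith) hb hc ha
  · right; left
    exact two hs e1 e2 ha hb hc
  · exfalso
    exact crossing (α := α) (β := γ) (γ := β) (x := x) (y := z) (z := y) hxz hty htx.ne htz.ne
      hxy.ne.symm hyz.ne (by linarith) (by linarith) (by linarith) ha hc hb
  · exfalso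
    exact crossing (α := α) (β := β) (γ := γ) (x := x) (y := y) (z := z) hxy htz htx.ne hty.ne
      hxz.ne.symm hyz.ne.symm (by linarith) (by linarith) (by linarith) ha hb hc
  · left
    exact ⟨α, β, γ, ha, hb, hc, hs, e1, e2⟩

/-- two empty triangles on a common edge lie on opposite sides -/
theorem Dw.opp (h : Dw G f) {x y z w : V} (hxy : G.Adj x y) (hyz : G.Adj y z)
    (hxz : G.Adj x z) (hyw : G.Adj y w) (hxw : G.Adj x w) (hzw : z ≠ w)
    (i1 : ¬ Ins (f w) (f x) (f y) (f z)) (i2 : ¬ Ins (f z) (f x) (f y) (f w)) :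
    D3 (f x) (f y) (f z) * D3 (f x) (f y) (f w) < 0 := by
  have nd := h.nondeg hxy hyz hxz
  have nd2 := h.nondeg hxy hyw hxw
  obtain ⟨α, β, γ, hs, e1, e2⟩ := bary nd (f w)
  have d3 : D3 (f x) (f y) (f w) = γ * D3 (f x) (f y) (f z) := by
    rw [← D3_rot (f x) (f y) (f w), ← D3_rot (f y) (f w) (f x), D3_comb hs e1 e2]
    unfold D3; ring
  have c0 : γ ≠ 0 := by rintro rfl; apply nd2; rw [d3]; ring
  have key : γ < 0 := by
    by_contra hc0
    have hc : 0 < γ := lt_of_le_of_ne (not_lt.mp hc0) (Ne.symm c0)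
    -- a symmetric sub-argument
    have sub : ∀ {α β : ℝ} {x y : V}, G.Adj y z → G.Adj x w → G.Adj y w → x ≠ y → x ≠ z →
        α + β + γ = 1 →
        (f w).1 = α * (f x).1 + β * (f y).1 + γ * (f z).1 →
        (f w).2 = α * (f x).2 + β * (f y).2 + γ * (f z).2 → α < 0 → 0 ≤ β → False := by
      intro α β x y hyz hxw hyw q1 q2 hs e1 e2 ha hb
      have hpos : 0 < 1 - α := by linarith
      have hne : 1 - α ≠ 0 := hpos.ne'
      refine h.noX (u := x) (v := w) (x := y) (y := z)
        (p := ((β * (f y).1 + γ * (f z).1) / (1 - α), (β * (f y).2 + γ * (f z).2) / (1 - α)))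
        hxw hyz q1 q2 hyw.ne.symm hzw.symm
        (mem_seg (s := (-α) / (1 - α)) (t := 1 / (1 - α)) (div_nonneg (by linarith) hpos.le)
          (by positivity) (by field_simp; ring) ?_ ?_)
        (mem_seg (s := β / (1 - α)) (t := γ / (1 - α)) (div_nonneg hb hpos.le)
          (div_nonneg hc.le hpos.le) (by field_simp; linarith) ?_ ?_)
      · simp only [e1]; field_simp; ring
      · simp only [e2]; field_simp; ring
      · field_simp
      · field_simp
    have zero : ∀ {β : ℝ} {y : V}, G.Adj y z → G.Adj y w → β + γ = 1 →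
        (f w).1 = β * (f y).1 + γ * (f z).1 → (f w).2 = β * (f y).2 + γ * (f z).2 → False := by
      intro β y hyz hyw hs e1 e2
      rcases le_or_gt 0 β with hb | hb
      · exact h.ve y z w hyz hyw.ne.symm hzw.symm (mem_seg hb hc.le hs e1 e2)
      · apply h.ve y w z hyw hyz.ne.symm hzw
        refine mem_seg (s := (-β) / γ) (t := 1 / γ) (div_nonneg (by linarith) hc.le)
          (by positivity) (by field_simp; linarith) ?_ ?_
        · rw [e1]; field_simp; ring
        · rw [e2]; field_simp; ring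
    rcases lt_trichotomy α 0 with ha | ha | ha
    · rcases le_or_gt 0 β with hb | hb
      · exact sub hyz hxw hyw hxy.ne hxz.ne hs e1 e2 ha hb
      · apply i2
        refine ⟨(-α) / γ, (-β) / γ, 1 / γ, div_pos (by linarith) hc, div_pos (by linarith) hc,
          by positivity, by field_simp; linarith, ?_, ?_⟩
        · rw [e1]; field_simp; ring
        · rw [e2]; field_simp; ring
    · subst ha
      exact zero (β := β) hyz hyw (by linarith) (by linarith) (by linarith)
    · rcases lt_trichotomy β 0 with hb | hb | hb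
      · exact sub (α := β) (β := α) (x := y) (y := x) hxz hyw hxw hxy.ne.symm hyz.ne
          (by linarith) (by linarith) (by linarith) hb ha.le
      · subst hb
        exact zero (β := α) hxz hxw (by linarith) (by linarith) (by linarith)
      · exact i1 ⟨α, β, γ, ha, hb, hc, hs, e1, e2⟩
  rw [d3]
  nlinarith [mul_self_pos.mpr nd]

/-- points of the closed triangle different from the corner `a` -/
def Cl (p a b c : Pt) : Prop := ∃ s : ℝ, 0 ≤ s ∧ s < 1 ∧ D3 p b c = s * D3 a b c

theorem Cl.left (a b c : Pt) : Cl b a b c := ⟨0, le_refl _, by norm_num, by unfold D3; ring⟩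

theorem Cl.right (a b c : Pt) : Cl c a b c := ⟨0, le_refl _, by norm_num, by unfold D3; ring⟩

theorem Ins.cl {p a b c : Pt} (h : Ins p a b c) : Cl p a b c := by
  obtain ⟨α, β, γ, h1, h2, h3, h4, h5, h6⟩ := h
  refine ⟨α, h1.le, by linarith, ?_⟩
  rw [D3_comb h4 h5 h6]; unfold D3; ring

theorem extreme {a b c p q r : Pt} (nd : D3 a b c ≠ 0) (hp : Cl p a b c) (hq : Cl q a b c)
    (hr : Cl r a b c) : ¬ Ins a p q r := by
  rintro ⟨α, β, γ, h1, h2, h3, h4, h5, h6⟩
  obtain ⟨s, s0, s1, hs⟩ := hp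
  obtain ⟨t, t0, t1, ht⟩ := hq
  obtain ⟨u, u0, u1, hu⟩ := hr
  have := D3_comb (u := b) (v := c) h4 h5 h6
  rw [hs, ht, hu] at this
  have h7 : (1 - (α * s + β * t + γ * u)) * D3 a b c = 0 := by linarith
  rcases mul_eq_zero.mp h7 with h8 | h8
  · nlinarith
  · exact nd h8

/-- location of a point with respect to an interior point `t` -/
theorem locate {p t x y z : Pt} (ht : Ins t x y z) (hp : Ins p x y z) :
    Ins p t y z ∨ Ins p x t z ∨ Ins p x y t ∨ p ∈ segment ℝ t x ∨ p ∈ segment ℝ t y ∨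
      p ∈ segment ℝ t z := by
  obtain ⟨a, b, c, ha, hb, hc, hs, t1, t2⟩ := ht
  obtain ⟨α, β, γ, hα, hβ, hγ, hs', p1, p2⟩ := hp
  -- compare the ratios
  have main : ∀ {a b c α β γ : ℝ} {x y z : Pt}, 0 < a → 0 < b → 0 < c → a + b + c = 1 →
      0 < α → 0 < β → 0 < γ → α + β + γ = 1 →
      t.1 = a * x.1 + b * y.1 + c * z.1 → t.2 = a * x.2 + b * y.2 + c * z.2 →
      p.1 = α * x.1 + β * y.1 + γ * z.1 → p.2 = α * x.2 + β * y.2 + γ * z.2 →
      α / a ≤ β / b → α / a ≤ γ / c →
      Ins p t y z ∨ p ∈ segment ℝ t y ∨ p ∈ segment ℝ t z := by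
    intro a b c α β γ x y z ha hb hc hs hα hβ hγ hs' t1 t2 p1 p2 h1 h2
    have e1 : 0 ≤ β - α / a * b := by
      have := mul_le_mul_of_nonneg_right h1 hb.le
      rw [div_mul_cancel₀ β hb.ne'] at this
      linarith
    have e2 : 0 ≤ γ - α / a * c := by
      have := mul_le_mul_of_nonneg_right h2 hc.le
      rw [div_mul_cancel₀ γ hc.ne'] at this
      linarith
    have e0 : 0 < α / a := by positivity
    have ex : α / a * a = α := div_mul_cancel₀ α ha.ne'
    have es : α / a + (β - α / a * b) + (γ - α / a * c) = 1 := by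
      have : α / a * (a + b + c) = α / a := by rw [hs]; ring
      linarith
    rcases eq_or_lt_of_le e1 with e1 | e1
    · right; right
      refine mem_seg (s := α / a) (t := γ - α / a * c) e0.le e2 (by linarith) ?_ ?_
      · rw [p1, t1]; linear_combination (-x.1) * ex + (-y.1) * e1
      · rw [p2, t2]; linear_combination (-x.2) * ex + (-y.2) * e1
    · rcases eq_or_lt_of_le e2 with e2 | e2
      · right; left
        refine mem_seg (s := α / a) (t := β - α / a * b) e0.le e1.le (by linarith) ?_ ?_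
        · rw [p1, t1]; linear_combination (-x.1) * ex + (-z.1) * e2
        · rw [p2, t2]; linear_combination (-x.2) * ex + (-z.2) * e2
      · left
        refine ⟨α / a, β - α / a * b, γ - α / a * c, e0, e1, e2, es, ?_, ?_⟩
        · rw [p1, t1]; linear_combination (-x.1) * ex
        · rw [p2, t2]; linear_combination (-x.2) * ex
  rcases le_total (α / a) (β / b) with h1 | h1
  · rcases le_total (α / a) (γ / c) with h2 | h2
    · rcases main ha hb hc hs hα hβ hγ hs' t1 t2 p1 p2 h1 h2 with h | h | h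
      · exact Or.inl h
      · exact Or.inr (Or.inr (Or.inr (Or.inr (Or.inl h))))
      · exact Or.inr (Or.inr (Or.inr (Or.inr (Or.inr h))))
    · rcases main (a := c) (b := a) (c := b) (α := γ) (β := α) (γ := β) (x := z) (y := x) (z := y)
        hc ha hb (by linarith) hγ hα hβ (by linarith) (by linarith) (by linarith) (by linarith)
        (by linarith) h2 (h2.trans h1) with h | h | h
      · exact Or.inr (Or.inr (Or.inl h.rot))
      · exact Or.inr (Or.inr (Or.inr (Or.inl h)))
      · exact Or.inr (Or.inr (Or.inr (Or.inr (Or.inl h))))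
  · rcases le_total (β / b) (γ / c) with h2 | h2
    · rcases main (a := b) (b := a) (c := c) (α := β) (β := α) (γ := γ) (x := y) (y := x) (z := z)
        hb ha hc (by linarith) hβ hα hγ (by linarith) (by linarith) (by linarith) (by linarith)
        (by linarith) h1 h2 with h | h | h
      · exact Or.inr (Or.inl h.swap12)
      · exact Or.inr (Or.inr (Or.inr (Or.inl h)))
      · exact Or.inr (Or.inr (Or.inr (Or.inr (Or.inr h))))
    · rcases main (a := c) (b := a) (c := b) (α := γ) (β := α) (γ := β) (x := z) (y := x) (z := y)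
        hc ha hb (by linarith) hγ hα hβ (by linarith) (by linarith) (by linarith) (by linarith)
        (by linarith) (h2.trans h1) h2 with h | h | h
      · exact Or.inr (Or.inr (Or.inl h.rot))
      · exact Or.inr (Or.inr (Or.inr (Or.inl h)))
      · exact Or.inr (Or.inr (Or.inr (Or.inr (Or.inl h))))

end Pool.Agent.Helper23.Free
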