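import Pool.Agent.Helper23.Free.Defs

set_option autoImplicit false

namespace Pool.Agent.Helper23.Free

abbrev I3 := ℤ × ℤ × ℤ
abbrev Cell := Fin 8 × Fin 8 × Fin 8

noncomputable def Pw (A B C : Pt) (S : ℝ) (w : I3) : Pt :=
  (((w.1 : ℝ) * A.1 + w.2.1 * B.1 + w.2.2 * C.1) / S,
    ((w.1 : ℝ) * A.2 + w.2.1 * B.2 + w.2.2 * C.2) / S)

def dt (l w : I3) : ℤ := l.1 * w.1 + l.2.1 * w.2.1 + l.2.2 * w.2.2

def sm (w : I3) : ℤ := w.1 + w.2.1 + w.2.2

/-- affine functional with values `l` at the corners (times a positive factor) -/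
def Lm (A B C : Pt) (l : I3) (p : Pt) : ℝ :=
  D3 A B C * ((l.1 : ℝ) * D3 p B C + l.2.1 * D3 p C A + l.2.2 * D3 p A B)

theorem Lm_comb {A B C p a b c : Pt} (l : I3) {α β γ : ℝ} (hs : α + β + γ = 1)
    (h1 : p.1 = α * a.1 + β * b.1 + γ * c.1) (h2 : p.2 = α * a.2 + β * b.2 + γ * c.2) :
    Lm A B C l p = α * Lm A B C l a + β * Lm A B C l b + γ * Lm A B C l c := by
  unfold Lm
  rw [D3_comb hs h1 h2, D3_comb hs h1 h2, D3_comb hs h1 h2]
  ring

theorem Lm_Pw (A B C : Pt) {S : ℤ} (hS : 0 < S) (l w : I3) (hw : sm w = S) :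
    Lm A B C l (Pw A B C S w) = (dt l w : ℝ) * (D3 A B C ^ 2 / S) := by
  obtain ⟨w1, w2, w3⟩ := w
  unfold sm at hw
  simp only at hw
  have h3 : w3 = S - w1 - w2 := by linarith
  subst h3
  have hSr : (S : ℝ) ≠ 0 := by exact_mod_cast hS.ne'
  unfold Lm Pw dt D3
  push_cast
  field_simp
  ring

def nonn (w : Fin 8 → I3) (l : I3) (s : Cell) : Bool :=
  0 ≤ dt l (w s.1) && 0 ≤ dt l (w s.2.1) && 0 ≤ dt l (w s.2.2)

def posi (w : Fin 8 → I3) (l : I3) (s : Cell) : Bool :=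
  0 < dt l (w s.1) || 0 < dt l (w s.2.1) || 0 < dt l (w s.2.2)

def ng (l : I3) : I3 := (-l.1, -l.2.1, -l.2.2)

def sepb (w : Fin 8 → I3) (l : I3) (s t : Cell) : Bool :=
  nonn w l s && nonn w (ng l) t && (posi w l s || posi w (ng l) t)

section

variable {A B C : Pt} {w : Fin 8 → I3} {S : ℤ}

theorem val_nonneg (hS : 0 < S) (hw : ∀ k, sm (w k) = S) {l : I3} {s : Cell}
    (h : nonn w l s = true) {p : Pt}
    (hp : Ins p (Pw A B C S (w s.1)) (Pw A B C S (w s.2.1)) (Pw A B C S (w s.2.2))) :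
    0 ≤ Lm A B C l p := by
  obtain ⟨α, β, γ, h1, h2, h3, h4, h5, h6⟩ := hp
  rw [Lm_comb l h4 h5 h6, Lm_Pw A B C hS l _ (hw _), Lm_Pw A B C hS l _ (hw _),
    Lm_Pw A B C hS l _ (hw _)]
  simp only [nonn, Bool.and_eq_true, decide_eq_true_eq] at h
  obtain ⟨⟨g1, g2⟩, g3⟩ := h
  have hSr : (0 : ℝ) < S := by exact_mod_cast hS
  have g1' : (0 : ℝ) ≤ dt l (w s.1) := by exact_mod_cast g1
  have g2' : (0 : ℝ) ≤ dt l (w s.2.1) := by exact_mod_cast g2
  have g3' : (0 : ℝ) ≤ dt l (w s.2.2) := by exact_mod_cast g3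
  positivity

theorem val_pos (nd : D3 A B C ≠ 0) (hS : 0 < S) (hw : ∀ k, sm (w k) = S) {l : I3} {s : Cell}
    (h : nonn w l s = true) (h' : posi w l s = true) {p : Pt}
    (hp : Ins p (Pw A B C S (w s.1)) (Pw A B C S (w s.2.1)) (Pw A B C S (w s.2.2))) :
    0 < Lm A B C l p := by
  obtain ⟨α, β, γ, h1, h2, h3, h4, h5, h6⟩ := hp
  rw [Lm_comb l h4 h5 h6, Lm_Pw A B C hS l _ (hw _), Lm_Pw A B C hS l _ (hw _),
    Lm_Pw A B C hS l _ (hw _)]
  simp only [nonn, Bool.and_eq_true, decide_eq_true_eq] at h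
  obtain ⟨⟨g1, g2⟩, g3⟩ := h
  have hSr : (0 : ℝ) < S := by exact_mod_cast hS
  have hD : 0 < D3 A B C ^ 2 / S := by positivity
  have g1' : (0 : ℝ) ≤ dt l (w s.1) := by exact_mod_cast g1
  have g2' : (0 : ℝ) ≤ dt l (w s.2.1) := by exact_mod_cast g2
  have g3' : (0 : ℝ) ≤ dt l (w s.2.2) := by exact_mod_cast g3
  simp only [posi, Bool.or_eq_true, decide_eq_true_eq] at h'
  have e1 : 0 ≤ α * ((dt l (w s.1) : ℝ) * (D3 A B C ^ 2 / S)) := by positivity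
  have e2 : 0 ≤ β * ((dt l (w s.2.1) : ℝ) * (D3 A B C ^ 2 / S)) := by positivity
  have e3 : 0 ≤ γ * ((dt l (w s.2.2) : ℝ) * (D3 A B C ^ 2 / S)) := by positivity
  rcases h' with (h' | h') | h'
  · have : (0 : ℝ) < dt l (w s.1) := by exact_mod_cast h'
    have : 0 < α * ((dt l (w s.1) : ℝ) * (D3 A B C ^ 2 / S)) := by positivity
    linarith
  · have : (0 : ℝ) < dt l (w s.2.1) := by exact_mod_cast h'
    have : 0 < β * ((dt l (w s.2.1) : ℝ) * (D3 A B C ^ 2 / S)) := by positivity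
    linarith
  · have : (0 : ℝ) < dt l (w s.2.2) := by exact_mod_cast h'
    have : 0 < γ * ((dt l (w s.2.2) : ℝ) * (D3 A B C ^ 2 / S)) := by positivity
    linarith

theorem Lm_neg (l : I3) (p : Pt) : Lm A B C (ng l) p = - Lm A B C l p := by
  unfold Lm ng
  push_cast
  ring

theorem sep_disj (nd : D3 A B C ≠ 0) (hS : 0 < S) (hw : ∀ k, sm (w k) = S) {l : I3}
    {s t : Cell} (h : sepb w l s t = true) {p : Pt}
    (hp : Ins p (Pw A B C S (w s.1)) (Pw A B C S (w s.2.1)) (Pw A B C S (w s.2.2)))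
    (hq : Ins p (Pw A B C S (w t.1)) (Pw A B C S (w t.2.1)) (Pw A B C S (w t.2.2))) :
    False := by
  simp only [sepb, Bool.and_eq_true, Bool.or_eq_true] at h
  obtain ⟨⟨h1, h2⟩, h3⟩ := h
  have e1 := val_nonneg (A := A) (B := B) (C := C) hS hw h1 hp
  have e2 := val_nonneg (A := A) (B := B) (C := C) hS hw h2 hq
  rw [Lm_neg] at e2
  rcases h3 with h3 | h3
  · have := val_pos nd hS hw h1 h3 hp
    linarith
  · have := val_pos nd hS hw h2 h3 hq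
    rw [Lm_neg] at this
    linarith

/-- all coordinates of the cell are nonnegative and no coordinate vanishes identically -/
def inn (w : Fin 8 → I3) (s : Cell) : Bool :=
  nonn w (1, 0, 0) s && nonn w (0, 1, 0) s && nonn w (0, 0, 1) s &&
    posi w (1, 0, 0) s && posi w (0, 1, 0) s && posi w (0, 0, 1) s

theorem inn_ins (nd : D3 A B C ≠ 0) (hS : 0 < S) (hw : ∀ k, sm (w k) = S) {s : Cell}
    (h : inn w s = true) {p : Pt}
    (hp : Ins p (Pw A B C S (w s.1)) (Pw A B C S (w s.2.1)) (Pw A B C S (w s.2.2))) :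
    Ins p A B C := by
  simp only [inn, Bool.and_eq_true] at h
  obtain ⟨⟨⟨⟨⟨h1, h2⟩, h3⟩, h4⟩, h5⟩, h6⟩ := h
  have e1 := val_pos nd hS hw h1 h4 hp
  have e2 := val_pos nd hS hw h2 h5 hp
  have e3 := val_pos nd hS hw h3 h6 hp
  unfold Lm at e1 e2 e3
  simp only [Int.cast_one, one_mul, Int.cast_zero, zero_mul, add_zero, zero_add] at e1 e2 e3
  have hD : 0 < D3 A B C ^ 2 := by positivity
  refine ⟨D3 A B C * D3 p B C / D3 A B C ^ 2, D3 A B C * D3 p C A / D3 A B C ^ 2,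
    D3 A B C * D3 p A B / D3 A B C ^ 2, div_pos e1 hD, div_pos e2 hD, div_pos e3 hD, ?_, ?_, ?_⟩
  · field_simp
    unfold D3; ring
  · field_simp
    unfold D3; ring
  · field_simp
    unfold D3; ring

end

/-- validity of a partial drawing inside a triangle -/
structure Val {V : Type} (P : V → Pt) (N : V → Prop) (R : V → V → Prop) (x y z : V) : Prop where
  ins : ∀ v, N v → Ins (P v) (P x) (P y) (P z)
  inj : ∀ v v', N v → N v' → P v = P v' → v = v'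
  edge : ∀ u v, R u v → ∀ p, Ins p (P u) (P v) (P v) → Ins p (P x) (P y) (P z)
  ve : ∀ u v, R u v → ∀ s, N s → ¬ Ins (P s) (P u) (P v) (P v)
  ee : ∀ u v u' v', R u v → R u' v' → ∀ p, Ins p (P u) (P v) (P v) → Ins p (P u') (P v') (P v') →
    (u = u' ∧ v = v') ∨ (u = v' ∧ v = u')

theorem Ins.self (p : Pt) : Ins p p p p :=
  ⟨1 / 3, 1 / 3, 1 / 3, by norm_num, by norm_num, by norm_num, by norm_num, by ring, by ring⟩

theorem Ins.eq {p q : Pt} (h : Ins p q q q) : p = q := by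
  obtain ⟨α, β, γ, _, _, _, h4, h5, h6⟩ := h
  ext
  · rw [h5]; linear_combination q.1 * h4
  · rw [h6]; linear_combination q.2 * h4

theorem glue {V : Type} {P : V → Pt} {x y z : V} {w : Fin 8 → I3} {S : ℤ} {n : ℕ}
    (QV : Fin 8 → V) (Fc : Fin n → Cell) (VL : List (Fin 8)) (EL : List (Fin 8 × Fin 8))
    (LL : List I3) (N : Fin n → V → Prop) (R : Fin n → V → V → Prop)
    (nd : D3 (P x) (P y) (P z) ≠ 0) (hS : 0 < S) (hw : ∀ k, sm (w k) = S)
    (hP : ∀ k, P (QV k) = Pw (P x) (P y) (P z) S (w k))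
    (hV : ∀ i, Val P (N i) (R i) (QV (Fc i).1) (QV (Fc i).2.1) (QV (Fc i).2.2))
    (d1 : ∀ s ∈ VL.map (fun k => (k, k, k)) ++ EL.map (fun q => (q.1, q.2, q.2)) ++
      List.ofFn Fc, ∀ t ∈ VL.map (fun k => (k, k, k)) ++ EL.map (fun q => (q.1, q.2, q.2)) ++
      List.ofFn Fc, s = t ∨ ∃ l ∈ LL, sepb w l s t = true)
    (d2 : ∀ s ∈ VL.map (fun k => (k, k, k)) ++ EL.map (fun q => (q.1, q.2, q.2)) ++
      List.ofFn Fc, inn w s = true)
    (d3 : ∀ i j, Fc i = Fc j → i = j)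
    (d4 : ∀ q ∈ EL, q.1 ≠ q.2)
    (d5 : ∀ i, (Fc i).1 ≠ (Fc i).2.1 ∧ (Fc i).2.1 ≠ (Fc i).2.2) :
    Val P (fun v => (∃ k ∈ VL, v = QV k) ∨ ∃ i, N i v)
      (fun u v => (∃ q ∈ EL, u = QV q.1 ∧ v = QV q.2) ∨ ∃ i, R i u v) x y z := by
  set CL := VL.map (fun k => (k, k, k)) ++ EL.map (fun q => (q.1, q.2, q.2)) ++ List.ofFn Fc
    with hCL
  have mV : ∀ k ∈ VL, ((k, k, k) : Cell) ∈ CL := by
    intro k hk
    rw [hCL]
    exact List.mem_append_left _ (List.mem_append_left _ (List.mem_map_of_mem hk))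
  have mE : ∀ q ∈ EL, ((q.1, q.2, q.2) : Cell) ∈ CL := by
    intro q hq
    rw [hCL]
    exact List.mem_append_left _ (List.mem_append_right _ (List.mem_map.mpr ⟨q, hq, rfl⟩))
  have mF : ∀ i, Fc i ∈ CL := by
    intro i
    rw [hCL]
    exact List.mem_append_right _ ((List.mem_ofFn' Fc (Fc i)).mpr ⟨i, rfl⟩)
  -- homes of vertices
  have hN : ∀ v, ((∃ k ∈ VL, v = QV k) ∨ ∃ i, N i v) → ∃ s ∈ CL,
      Ins (P v) (P (QV s.1)) (P (QV s.2.1)) (P (QV s.2.2)) ∧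
      ((∃ k ∈ VL, s = (k, k, k) ∧ v = QV k) ∨ ∃ i, s = Fc i ∧ N i v) := by
    rintro v (⟨k, hk, rfl⟩ | ⟨i, hi⟩)
    · exact ⟨(k, k, k), mV k hk, Ins.self _, Or.inl ⟨k, hk, rfl, rfl⟩⟩
    · exact ⟨Fc i, mF i, (hV i).ins v hi, Or.inr ⟨i, rfl, hi⟩⟩
  have hR : ∀ u v, ((∃ q ∈ EL, u = QV q.1 ∧ v = QV q.2) ∨ ∃ i, R i u v) → ∃ s ∈ CL,
      (∀ p, Ins p (P u) (P v) (P v) → Ins p (P (QV s.1)) (P (QV s.2.1)) (P (QV s.2.2))) ∧
      ((∃ q ∈ EL, s = (q.1, q.2, q.2) ∧ u = QV q.1 ∧ v = QV q.2) ∨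
        ∃ i, s = Fc i ∧ R i u v) := by
    rintro u v (⟨q, hq, rfl, rfl⟩ | ⟨i, hi⟩)
    · exact ⟨(q.1, q.2, q.2), mE q hq, fun p hp => hp, Or.inl ⟨q, hq, rfl, rfl, rfl⟩⟩
    · exact ⟨Fc i, mF i, (hV i).edge u v hi, Or.inr ⟨i, rfl, hi⟩⟩
  have hdis : ∀ s ∈ CL, ∀ t ∈ CL, ∀ p, Ins p (P (QV s.1)) (P (QV s.2.1)) (P (QV s.2.2)) →
      Ins p (P (QV t.1)) (P (QV t.2.1)) (P (QV t.2.2)) → s = t := by
    intro s hs t ht p h1 h2
    rcases d1 s hs t ht with h | ⟨l, _, hl⟩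
    · exact h
    · exfalso
      rw [hP, hP, hP] at h1 h2
      exact sep_disj nd hS hw hl h1 h2
  have hin : ∀ s ∈ CL, ∀ p, Ins p (P (QV s.1)) (P (QV s.2.1)) (P (QV s.2.2)) →
      Ins p (P x) (P y) (P z) := by
    intro s hs p h1
    rw [hP, hP, hP] at h1
    exact inn_ins nd hS hw (d2 s hs) h1
  refine ⟨?_, ?_, ?_, ?_, ?_⟩
  · intro v hv
    obtain ⟨s, hs, h1, _⟩ := hN v hv
    exact hin s hs _ h1
  · intro v v' hv hv' he
    obtain ⟨s, hs, h1, h2⟩ := hN v hv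
    obtain ⟨t, ht, g1, g2⟩ := hN v' hv'
    rw [← he] at g1
    have hst := hdis s hs t ht _ h1 g1
    subst hst
    rcases h2 with ⟨k, hk, rfl, rfl⟩ | ⟨i, rfl, hi⟩
    · rcases g2 with ⟨k', hk', e1, rfl⟩ | ⟨j, e1, hj⟩
      · have : k = k' := congrArg Prod.fst e1
        rw [this]
      · exfalso
        apply (d5 j).1
        rw [← e1]
    · rcases g2 with ⟨k', hk', e1, rfl⟩ | ⟨j, e1, hj⟩
      · exfalso
        apply (d5 i).1
        rw [e1]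
      · have := d3 _ _ e1
        subst this
        exact (hV i).inj v v' hi hj he
  · intro u v huv p hp
    obtain ⟨s, hs, h1, _⟩ := hR u v huv
    exact hin s hs _ (h1 p hp)
  · intro u v huv r hr hc
    obtain ⟨s, hs, h1, h2⟩ := hR u v huv
    obtain ⟨t, ht, g1, g2⟩ := hN r hr
    have hst := hdis s hs t ht _ (h1 _ hc) g1
    subst hst
    rcases h2 with ⟨q, hq, rfl, rfl, rfl⟩ | ⟨i, rfl, hi⟩
    · rcases g2 with ⟨k', hk', e1, rfl⟩ | ⟨j, e1, hj⟩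
      · apply d4 q hq
        have e2 : q.1 = k' := congrArg Prod.fst e1
        have e3 : q.2 = k' := congrArg (fun s => s.2.1) e1
        rw [e2, e3]
      · apply (d5 j).2
        rw [← e1]
    · rcases g2 with ⟨k', hk', e1, rfl⟩ | ⟨j, e1, hj⟩
      · apply (d5 i).1
        rw [e1]
      · have := d3 _ _ e1
        subst this
        exact (hV i).ve u v hi r hj hc
  · intro u v u' v' huv huv' p hp hp'
    obtain ⟨s, hs, h1, h2⟩ := hR u v huv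
    obtain ⟨t, ht, g1, g2⟩ := hR u' v' huv'
    have hst := hdis s hs t ht _ (h1 _ hp) (g1 _ hp')
    subst hst
    rcases h2 with ⟨q, hq, rfl, rfl, rfl⟩ | ⟨i, rfl, hi⟩
    · rcases g2 with ⟨q', hq', e1, rfl, rfl⟩ | ⟨j, e1, hj⟩
      · left
        obtain ⟨e2, e3⟩ := Prod.mk.inj e1
        have e4 := (Prod.mk.inj e3).1
        rw [e2, e4]
        exact ⟨rfl, rfl⟩
      · exfalso
        apply (d5 j).2
        rw [← e1]
    · rcases g2 with ⟨q', hq', e1, rfl, rfl⟩ | ⟨j, e1, hj⟩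
      · exfalso
        apply (d5 i).2
        rw [e1]
      · have := d3 _ _ e1
        subst this
        exact (hV i).ee u v u' v' hi hj p hp hp'

end Pool.Agent.Helper23.Free
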