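import Pool.Agent.Helper23.Free.Color

set_option autoImplicit false

namespace Pool.Agent.Helper23.Free

open Classical in
noncomputable def zer (p : Pt) : ℕ := if p.2 = 0 then 1 else 0

noncomputable def col (p : Pt) : Bool := decide (0 ≤ p.2)

noncomputable def zc {V : Type} (f : V → Pt) {T : Fr} (e : In T → V) : ℕ :=
  ∑ i : In T, zer (f (e i))

theorem zer_le (p : Pt) : zer p ≤ 1 := by
  unfold zer; split_ifs <;> omega

theorem zer_of_ne {p : Pt} (h : p.2 ≠ 0) : zer p = 0 := by
  unfold zer; rw [if_neg h]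

theorem zc_nil {V : Type} (f : V → Pt) (e : In .nil → V) : zc f e = 0 := by
  unfold zc
  apply Finset.sum_eq_zero
  intro i _
  exact i.elim

theorem zc_st {V : Type} (f : V → Pt) {a b c : Fr} (e : In (.st a b c) → V) :
    zc f e = zer (f (e (Sum.inl ()))) + (zc f (fun i => e (Sum.inr (Sum.inl i))) +
      (zc f (fun i => e (Sum.inr (Sum.inr (Sum.inl i)))) +
        zc f (fun i => e (Sum.inr (Sum.inr (Sum.inr i)))))) := by
  show (∑ i : Unit ⊕ (In a ⊕ (In b ⊕ In c)), zer (f (e i))) = _
  rw [Fintype.sum_sum_type, Fintype.sum_sum_type, Fintype.sum_sum_type]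
  simp [zc]

theorem zc_bg {V : Type} (f : V → Pt) {T : Fin 9 → Fr} (e : In (.bg T) → V) :
    zc f e = (∑ k : Fin 5, zer (f (e (Sum.inl k)))) +
      ∑ i : Fin 9, zc f (fun j => e (Sum.inr ⟨i, j⟩)) := by
  show (∑ i : Fin 5 ⊕ ((i : Fin 9) × In (T i)), zer (f (e i))) = _
  rw [Fintype.sum_sum_type, Fintype.sum_sigma]
  rfl

theorem zc_le_card {V : Type} (f : V → Pt) {T : Fr} (e : In T → V) :
    zc f e ≤ Fintype.card (In T) := by
  unfold zc
  calc ∑ i : In T, zer (f (e i)) ≤ ∑ i : In T, 1 := Finset.sum_le_sum (fun i _ => zer_le _)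
    _ = Fintype.card (In T) := by simp

theorem pos_of_ins {p a b c : Pt} (nd : D3 a b c ≠ 0) (h : Ins p a b c) (ha : 0 ≤ a.2)
    (hb : 0 ≤ b.2) (hc : 0 ≤ c.2) : p.2 ≠ 0 := by
  obtain ⟨α, β, γ, h1, h2, h3, h4, h5, h6⟩ := h
  intro h0
  rw [h0] at h6
  have e1 : 0 ≤ α * a.2 := by positivity
  have e2 : 0 ≤ β * b.2 := by positivity
  have e3 : 0 ≤ γ * c.2 := by positivity
  have f1 : α * a.2 = 0 := by linarith
  have f2 : β * b.2 = 0 := by linarith
  have f3 : γ * c.2 = 0 := by linarith
  have g1 : a.2 = 0 := by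
    rcases mul_eq_zero.mp f1 with h | h
    · linarith
    · exact h
  have g2 : b.2 = 0 := by
    rcases mul_eq_zero.mp f2 with h | h
    · linarith
    · exact h
  have g3 : c.2 = 0 := by
    rcases mul_eq_zero.mp f3 with h | h
    · linarith
    · exact h
  apply nd
  unfold D3
  rw [g1, g2, g3]; ring

theorem neg_of_ins {p a b c : Pt} (nd : D3 a b c ≠ 0) (h : Ins p a b c) (ha : a.2 ≤ 0)
    (hb : b.2 ≤ 0) (hc : c.2 ≤ 0) : p.2 ≠ 0 := by
  obtain ⟨α, β, γ, h1, h2, h3, h4, h5, h6⟩ := h
  have := pos_of_ins (p := (p.1, -p.2)) (a := (a.1, -a.2)) (b := (b.1, -b.2))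
    (c := (c.1, -c.2)) ?_ ⟨α, β, γ, h1, h2, h3, h4, h5, by simp only; rw [h6]; ring⟩
    (by simpa using ha) (by simpa using hb) (by simpa using hc)
  · intro h0
    apply this
    simp [h0]
  · intro h0
    apply nd
    unfold D3 at h0 ⊢
    simp only at h0
    linarith

theorem zc_mono {V : Type} {G : SimpleGraph V} {f : V → Pt} (hf : Dw G f) {T : Fr} {x y z : V}
    {e : In T → V} (h : Pl G T x y z e)
    (hi : ∀ i, Ins (f (e i)) (f x) (f y) (f z)) (h1 : col (f x) = col (f y))
    (h2 : col (f y) = col (f z)) : zc f e = 0 := by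
  have nd := hf.nondeg h.xy h.yz h.xz
  unfold zc
  apply Finset.sum_eq_zero
  intro i _
  apply zer_of_ne
  unfold col at h1 h2
  rw [decide_eq_decide] at h1 h2
  rcases le_or_gt 0 (f x).2 with hx | hx
  · exact pos_of_ins nd (hi i) hx (h1.mp hx) (h2.mp (h1.mp hx))
  · have hy : (f y).2 < 0 := by
      by_contra hc
      push Not at hc
      linarith [h1.mpr hc]
    have hz : (f z).2 < 0 := by
      by_contra hc
      push Not at hc
      linarith [h2.mpr hc]
    exact neg_of_ins nd (hi i) hx.le hy.le hz.le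

/-- bounds for the number of zeros in properly drawn fragments -/
def Good (T : Fr) (bx cy dz : ℕ) : Prop :=
  ∀ (V : Type) (G : SimpleGraph V) (f : V → Pt), Dw G f → ∀ (x y z : V) (e : In T → V),
    Pl G T x y z e → (∀ i, Ins (f (e i)) (f x) (f y) (f z)) →
      zc f e ≤ vl bx cy dz (col (f x)) (col (f y)) (col (f z))

theorem vl_le {b : ℕ} (p q r : Bool) : vl b b b p q r ≤ b := by
  unfold vl; split_ifs <;> omega

theorem good_of_le {T : Fr} {b : ℕ} (hb : Fintype.card (In T) ≤ b) : Good T b b b := by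
  intro V G f hf x y z e h hi
  by_cases h1 : col (f x) = col (f y)
  · by_cases h2 : col (f y) = col (f z)
    · rw [zc_mono hf h hi h1 h2]; exact Nat.zero_le _
    · have : vl b b b (col (f x)) (col (f y)) (col (f z)) = b := by
        unfold vl; rw [if_pos h1, if_neg h2]
      rw [this]; exact (zc_le_card f e).trans hb
  · have : vl b b b (col (f x)) (col (f y)) (col (f z)) = b := by
      unfold vl; rw [if_neg h1]; split_ifs <;> rfl
    rw [this]; exact (zc_le_card f e).trans hb

theorem good_mono {T : Fr} {b b' g g' : ℕ} (h : Good T b b g) (hb : b ≤ b') (hg : g ≤ g') :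
    Good T b' b' g' := by
  intro V G f hf x y z e hp hi
  refine (h V G f hf x y z e hp hi).trans ?_
  unfold vl; split_ifs <;> omega

section st

variable {V : Type} {G : SimpleGraph V} {f : V → Pt} {a b c : Fr} {x y z : V}
  {e : In (.st a b c) → V}

theorem c1_ins (h : Pl G (.st a b c) x y z e) (hf : Dw G f)
    (hi : ∀ i, Ins (f (e i)) (f x) (f y) (f z)) (i : In a) :
    Ins (f (e (Sum.inr (Sum.inl i)))) (f (e (Sum.inl ()))) (f y) (f z) := by
  refine allIns h.c1 hf h.ty h.yz h.tz h.c1.nx h.c1.ny h.c1.nz i ?_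
  have hh := h.c1.hdx i
  exact k4child hf h.yz h.xz.symm h.xy.symm h.ty h.tz h.tx (hi _).rot (h.c1.nx _) hh.2.1 hh.2.2
    (hi _).rot

theorem c2_ins (h : Pl G (.st a b c) x y z e) (hf : Dw G f)
    (hi : ∀ i, Ins (f (e i)) (f x) (f y) (f z)) (i : In b) :
    Ins (f (e (Sum.inr (Sum.inr (Sum.inl i))))) (f x) (f (e (Sum.inl ()))) (f z) := by
  refine allIns h.c2 hf h.tx.symm h.tz h.xz h.c2.nx h.c2.ny h.c2.nz i ?_
  have hh := h.c2.hdx i
  exact (k4child hf h.xz h.yz.symm h.xy h.tx h.tz h.ty (hi _).swap23 (h.c2.ny _) hh.1 hh.2.2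
    (hi _).swap23).swap12

theorem c3_ins (h : Pl G (.st a b c) x y z e) (hf : Dw G f)
    (hi : ∀ i, Ins (f (e i)) (f x) (f y) (f z)) (i : In c) :
    Ins (f (e (Sum.inr (Sum.inr (Sum.inr i))))) (f x) (f y) (f (e (Sum.inl ()))) := by
  refine allIns h.c3 hf h.xy h.ty.symm h.tx.symm h.c3.nx h.c3.ny h.c3.nz i ?_
  have hh := h.c3.hdx i
  exact (k4child hf h.xy h.yz h.xz h.tx h.ty h.tz (hi _) (h.c3.nz _) hh.1 hh.2.1 (hi _)).rot

end st

/-- double fans -/
def Dx : ℕ → Fr
  | 0 => .nil
  | n + 1 => .st (Dx n) .nil .nil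

theorem card_st (a b c : Fr) : Fintype.card (In (.st a b c)) =
    1 + Fintype.card (In a) + Fintype.card (In b) + Fintype.card (In c) := by
  show Fintype.card (Unit ⊕ (In a ⊕ (In b ⊕ In c))) = _
  rw [Fintype.card_sum, Fintype.card_sum, Fintype.card_sum]
  simp [add_assoc]

theorem card_nil : Fintype.card (In .nil) = 0 := rfl

theorem card_bg (T : Fin 9 → Fr) : Fintype.card (In (.bg T)) =
    5 + ∑ i, Fintype.card (In (T i)) := by
  show Fintype.card (Fin 5 ⊕ ((i : Fin 9) × In (T i))) = _
  rw [Fintype.card_sum, Fintype.card_sigma]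
  simp

theorem card_Dx (n : ℕ) : Fintype.card (In (Dx n)) = n := by
  induction n with
  | zero => rfl
  | succ n ih => rw [Dx, card_st, ih, card_nil]; omega

theorem Dx_one (n : ℕ) : ∀ {V : Type} {G : SimpleGraph V} {f : V → Pt}, Dw G f →
    ∀ {x y z : V} {e : In (Dx n) → V}, Pl G (Dx n) x y z e →
    (∀ i, Ins (f (e i)) (f x) (f y) (f z)) → col (f y) = col (f z) → zc f e ≤ 1 := by
  induction n with
  | zero =>
    intro V G f _ x y z e _ _ _
    have : zc (T := Fr.nil) f e = 0 := zc_nil f e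
    exact this.le.trans (by norm_num)
  | succ n ih =>
    intro V G f hf x y z e h hi hyz
    have hc := c1_ins h hf hi
    have e0 : zc f e = zer (f (e (Sum.inl ()))) + (zc f (fun i => e (Sum.inr (Sum.inl i))) +
        (0 + 0)) := by
      have := zc_st (a := Dx n) (b := .nil) (c := .nil) f e
      rw [zc_nil, zc_nil] at this
      exact this
    by_cases ht : (f (e (Sum.inl ()))).2 = 0
    · have hz : zc f (fun i => e (Sum.inr (Sum.inl i))) = 0 := by
        unfold zc
        apply Finset.sum_eq_zero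
        intro i _
        apply zer_of_ne
        have nd := hf.nondeg h.ty h.yz h.tz
        unfold col at hyz
        rw [decide_eq_decide] at hyz
        rcases le_or_gt 0 (f y).2 with hy | hy
        · exact pos_of_ins nd (hc i) ht.ge hy (hyz.mp hy)
        · have hz : (f z).2 < 0 := by
            by_contra hcc
            push Not at hcc
            linarith [hyz.mpr hcc]
          exact neg_of_ins nd (hc i) ht.le hy.le hz.le
      rw [hz] at e0
      rw [e0]
      have := zer_le (f (e (Sum.inl ())))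
      omega
    · rw [zer_of_ne ht] at e0
      have := ih hf h.c1 hc hyz
      omega

theorem good_Dx (n : ℕ) : Good (Dx n) 1 n n := by
  intro V G f hf x y z e h hi
  by_cases h2 : col (f y) = col (f z)
  · by_cases h1 : col (f x) = col (f y)
    · rw [zc_mono hf h hi h1 h2]; exact Nat.zero_le _
    · have : vl 1 n n (col (f x)) (col (f y)) (col (f z)) = 1 := by
        unfold vl; rw [if_neg h1, if_neg (fun hh => h1 (hh.trans h2.symm))]
      rw [this]
      exact Dx_one n hf h hi h2
  · have : vl 1 n n (col (f x)) (col (f y)) (col (f z)) = n := by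
      unfold vl
      by_cases h1 : col (f x) = col (f y)
      · rw [if_pos h1, if_neg h2]
      · rw [if_neg h1, if_pos]
        revert h1 h2
        cases col (f x) <;> cases col (f y) <;> cases col (f z) <;> simp
    rw [this]
    exact (zc_le_card f e).trans (card_Dx n).le

end Pool.Agent.Helper23.Free
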