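import Pool.Agent.Helper23.Free.Geo

set_option autoImplicit false

namespace Pool.Agent.Helper23.Free

theorem tr_aux {a1 a2 a3 b1 b2 b3 : ℝ} (h1 : b1 < 0) (h2 : b2 < 0) (h3 : b3 < 0)
    (h12 : 0 < a1 * b2 - a2 * b1) (h23 : 0 < a2 * b3 - a3 * b2) : 0 < a1 * b3 - a3 * b1 := by
  have e1 := mul_pos h12 (neg_pos.mpr h3)
  have e2 := mul_pos h23 (neg_pos.mpr h1)
  have e3 : 0 < (-b2) * (a1 * b3 - a3 * b1) := by nlinarith
  exact (pos_iff_pos_of_mul_pos e3).mp (neg_pos.mpr h2)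

theorem ng_aux {a0 a1 a2 b0 b1 b2 : ℝ} (h0 : b0 ≤ 0) (h1 : b1 ≤ 0) (h2 : b2 ≤ 0)
    (h01 : 0 < a0 * b1 - a1 * b0) (h12 : 0 < a1 * b2 - a2 * b1) : b1 < 0 := by
  rcases eq_or_lt_of_le h1 with h | h
  · subst h
    exfalso
    have e1 : 0 < a1 * (-b0) := by linarith
    have e2 : 0 < a1 * b2 := by linarith
    rcases lt_trichotomy a1 0 with h | h | h
    · nlinarith
    · subst h; linarith
    · nlinarith
  · exact h

theorem cyc4 {a1 a2 a3 a4 b1 b2 b3 b4 : ℝ}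
    (h12 : 0 < a1 * b2 - a2 * b1) (h23 : 0 < a2 * b3 - a3 * b2)
    (h34 : 0 < a3 * b4 - a4 * b3) (h41 : 0 < a4 * b1 - a1 * b4) :
    0 < b1 ∨ 0 < b2 ∨ 0 < b3 ∨ 0 < b4 := by
  by_contra hc
  push Not at hc
  obtain ⟨g1, g2, g3, g4⟩ := hc
  have n1 := ng_aux g4 g1 g2 h41 h12
  have n2 := ng_aux g1 g2 g3 h12 h23
  have n3 := ng_aux g2 g3 g4 h23 h34
  have n4 := ng_aux g3 g4 g1 h34 h41
  have e13 := tr_aux n1 n2 n3 h12 h23
  have e14 := tr_aux n1 n3 n4 e13 h34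
  linarith

theorem cyc5 {a1 a2 a3 a4 a5 b1 b2 b3 b4 b5 : ℝ}
    (h12 : 0 < a1 * b2 - a2 * b1) (h23 : 0 < a2 * b3 - a3 * b2)
    (h34 : 0 < a3 * b4 - a4 * b3) (h45 : 0 < a4 * b5 - a5 * b4)
    (h51 : 0 < a5 * b1 - a1 * b5) :
    0 < b1 ∨ 0 < b2 ∨ 0 < b3 ∨ 0 < b4 ∨ 0 < b5 := by
  by_contra hc
  push Not at hc
  obtain ⟨g1, g2, g3, g4, g5⟩ := hc
  have n1 := ng_aux g5 g1 g2 h51 h12
  have n2 := ng_aux g1 g2 g3 h12 h23
  have n3 := ng_aux g2 g3 g4 h23 h34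
  have n4 := ng_aux g3 g4 g5 h34 h45
  have n5 := ng_aux g4 g5 g1 h45 h51
  have e13 := tr_aux n1 n2 n3 h12 h23
  have e14 := tr_aux n1 n3 n4 e13 h34
  have e15 := tr_aux n1 n4 n5 e14 h45
  linarith

theorem pos_or_neg {a b : ℝ} (h : 0 < a * b) : (0 < a ∧ 0 < b) ∨ (a < 0 ∧ b < 0) := by
  rcases lt_trichotomy a 0 with ha | ha | ha
  · right; exact ⟨ha, by by_contra hb; push Not at hb; nlinarith⟩
  · subst ha; simp at h
  · left; exact ⟨ha, by by_contra hb; push Not at hb; nlinarith⟩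

theorem link4 {v a b c d : Pt} (h1 : 0 < D3 v a b * D3 v b c) (h2 : 0 < D3 v b c * D3 v c d)
    (h3 : 0 < D3 v c d * D3 v d a) :
    (v.2 < a.2 ∨ v.2 < b.2 ∨ v.2 < c.2 ∨ v.2 < d.2) ∧
      (a.2 < v.2 ∨ b.2 < v.2 ∨ c.2 < v.2 ∨ d.2 < v.2) := by
  have key : ∀ {v a b c d : Pt}, 0 < D3 v a b → 0 < D3 v b c → 0 < D3 v c d → 0 < D3 v d a →
      (v.2 < a.2 ∨ v.2 < b.2 ∨ v.2 < c.2 ∨ v.2 < d.2) ∧
      (a.2 < v.2 ∨ b.2 < v.2 ∨ c.2 < v.2 ∨ d.2 < v.2) := by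
    intro v a b c d g1 g2 g3 g4
    unfold D3 at g1 g2 g3 g4
    constructor
    · have := cyc4 (a1 := a.1 - v.1) (b1 := a.2 - v.2) (a2 := b.1 - v.1) (b2 := b.2 - v.2)
        (a3 := c.1 - v.1) (b3 := c.2 - v.2) (a4 := d.1 - v.1) (b4 := d.2 - v.2)
        (by linarith) (by linarith) (by linarith) (by linarith)
      simpa [sub_pos] using this
    · have := cyc4 (a1 := v.1 - a.1) (b1 := v.2 - a.2) (a2 := v.1 - b.1) (b2 := v.2 - b.2)
        (a3 := v.1 - c.1) (b3 := v.2 - c.2) (a4 := v.1 - d.1) (b4 := v.2 - d.2)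
        (by linarith) (by linarith) (by linarith) (by linarith)
      simpa [sub_pos] using this
  rcases pos_or_neg h1 with ⟨p1, p2⟩ | ⟨p1, p2⟩
  · have p3 : 0 < D3 v c d := (pos_iff_pos_of_mul_pos h2).mp p2
    have p4 : 0 < D3 v d a := (pos_iff_pos_of_mul_pos h3).mp p3
    exact key p1 p2 p3 p4
  · have p3 : D3 v c d < 0 := by
      rcases pos_or_neg h2 with h | h
      · linarith [h.1]
      · exact h.2
    have p4 : D3 v d a < 0 := by
      rcases pos_or_neg h3 with h | h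
      · linarith [h.1]
      · exact h.2
    have := key (v := v) (a := a) (b := d) (c := c) (d := b)
      (by have := D3_swap23 v d a; linarith) (by have := D3_swap23 v c d; linarith)
      (by have := D3_swap23 v b c; linarith) (by have := D3_swap23 v a b; linarith)
    tauto

theorem link5 {v a b c d e : Pt} (h1 : 0 < D3 v a b * D3 v b c) (h2 : 0 < D3 v b c * D3 v c d)
    (h3 : 0 < D3 v c d * D3 v d e) (h4 : 0 < D3 v d e * D3 v e a) :
    (v.2 < a.2 ∨ v.2 < b.2 ∨ v.2 < c.2 ∨ v.2 < d.2 ∨ v.2 < e.2) ∧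
      (a.2 < v.2 ∨ b.2 < v.2 ∨ c.2 < v.2 ∨ d.2 < v.2 ∨ e.2 < v.2) := by
  have key : ∀ {v a b c d e : Pt}, 0 < D3 v a b → 0 < D3 v b c → 0 < D3 v c d →
      0 < D3 v d e → 0 < D3 v e a →
      (v.2 < a.2 ∨ v.2 < b.2 ∨ v.2 < c.2 ∨ v.2 < d.2 ∨ v.2 < e.2) ∧
      (a.2 < v.2 ∨ b.2 < v.2 ∨ c.2 < v.2 ∨ d.2 < v.2 ∨ e.2 < v.2) := by
    intro v a b c d e g1 g2 g3 g4 g5
    unfold D3 at g1 g2 g3 g4 g5
    constructor
    · have := cyc5 (a1 := a.1 - v.1) (b1 := a.2 - v.2) (a2 := b.1 - v.1) (b2 := b.2 - v.2)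
        (a3 := c.1 - v.1) (b3 := c.2 - v.2) (a4 := d.1 - v.1) (b4 := d.2 - v.2)
        (a5 := e.1 - v.1) (b5 := e.2 - v.2)
        (by linarith) (by linarith) (by linarith) (by linarith) (by linarith)
      simpa [sub_pos] using this
    · have := cyc5 (a1 := v.1 - a.1) (b1 := v.2 - a.2) (a2 := v.1 - b.1) (b2 := v.2 - b.2)
        (a3 := v.1 - c.1) (b3 := v.2 - c.2) (a4 := v.1 - d.1) (b4 := v.2 - d.2)
        (a5 := v.1 - e.1) (b5 := v.2 - e.2)
        (by linarith) (by linarith) (by linarith) (by linarith) (by linarith)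
      simpa [sub_pos] using this
  rcases pos_or_neg h1 with ⟨p1, p2⟩ | ⟨p1, p2⟩
  · have p3 : 0 < D3 v c d := (pos_iff_pos_of_mul_pos h2).mp p2
    have p4 : 0 < D3 v d e := (pos_iff_pos_of_mul_pos h3).mp p3
    have p5 : 0 < D3 v e a := (pos_iff_pos_of_mul_pos h4).mp p4
    exact key p1 p2 p3 p4 p5
  · have p3 : D3 v c d < 0 := by
      rcases pos_or_neg h2 with h | h
      · linarith [h.1]
      · exact h.2
    have p4 : D3 v d e < 0 := by
      rcases pos_or_neg h3 with h | h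
      · linarith [h.1]
      · exact h.2
    have p5 : D3 v e a < 0 := by
      rcases pos_or_neg h4 with h | h
      · linarith [h.1]
      · exact h.2
    have := key (v := v) (a := a) (b := e) (c := d) (d := c) (e := b)
      (by have := D3_swap23 v e a; linarith) (by have := D3_swap23 v d e; linarith)
      (by have := D3_swap23 v c d; linarith) (by have := D3_swap23 v b c; linarith)
      (by have := D3_swap23 v a b; linarith)
    tauto

end Pool.Agent.Helper23.Free
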