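import Pool.Agent.Helper23.Free.Rate

set_option autoImplicit false

namespace Pool.Agent.Helper23.Free

theorem centerIns {V : Type} {G : SimpleGraph V} {f : V → Pt} {S : Fr} {p q r : V}
    {e : In S → V} (h : Pl G S p q r e) (hf : Dw G f) {m o1 o2 o3 : V}
    (h12 : G.Adj o1 o2) (h23 : G.Adj o2 o3) (h13 : G.Adj o1 o3) (m1 : G.Adj m o1)
    (m2 : G.Adj m o2) (m3 : G.Adj m o3) (hm : Ins (f m) (f o1) (f o2) (f o3))
    (nm : ∀ i, e i ≠ m) (n1 : ∀ i, e i ≠ o1) (n2 : ∀ i, e i ≠ o2) (n3 : ∀ i, e i ≠ o3)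
    (ha : ∀ i, G.Adj (e (hd S i)) m ∧ G.Adj (e (hd S i)) o1 ∧ G.Adj (e (hd S i)) o2)
    (i : In S) : Ins (f (e i)) (f m) (f o1) (f o2) := by
  refine allIns h hf m1 h12 m2 nm n1 n2 i ?_
  obtain ⟨a1, a2, a3⟩ := ha i
  exact k4child hf h12 h23 h13 m1 m2 m3 hm (nm _) a2 a3
    (hf.step h12 h23 h13 hm a1.symm (n1 _) (n2 _) (n3 _))

def X (T : Fr) : ℕ → Fr
  | 0 => .nil
  | m + 1 => .st T T (X T m)

theorem card_X (T : Fr) (m : ℕ) : Fintype.card (In (X T m)) =
    m * (1 + 2 * Fintype.card (In T)) := by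
  induction m with
  | zero => rw [X, card_nil]; ring
  | succ m ih => rw [X, card_st, ih]; ring

theorem X_proper {T : Fr} {b : ℕ} (hT : Good T b b b) (m : ℕ) :
    ∀ {V : Type} {G : SimpleGraph V} {f : V → Pt}, Dw G f → ∀ {x y z : V}
      {e : In (X T m) → V}, Pl G (X T m) x y z e →
      (∀ i, Ins (f (e i)) (f x) (f y) (f z)) → zc f e ≤ m * (2 * b + 1) := by
  induction m with
  | zero =>
    intro V G f _ x y z e _ _
    have : zc (T := Fr.nil) f e = 0 := zc_nil f e
    exact this.le.trans (Nat.zero_le _)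
  | succ m ih =>
    intro V G f hf x y z e h hi
    have e0 : zc f e = zer (f (e (Sum.inl ()))) + (zc f (fun i => e (Sum.inr (Sum.inl i))) +
        (zc f (fun i => e (Sum.inr (Sum.inr (Sum.inl i)))) +
          zc f (fun i => e (Sum.inr (Sum.inr (Sum.inr i)))))) := by
      exact zc_st (a := T) (b := T) (c := X T m) f e
    have h1 := (hT V G f hf _ _ _ _ (Pl.c1 (a := T) (b := T) (c := X T m) h)
      (c1_ins (a := T) (b := T) (c := X T m) h hf hi)).trans (vl_le _ _ _)
    have h2 := (hT V G f hf _ _ _ _ (Pl.c2 (a := T) (b := T) (c := X T m) h)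
      (c2_ins (a := T) (b := T) (c := X T m) h hf hi)).trans (vl_le _ _ _)
    have h3 := ih hf (Pl.c3 (a := T) (b := T) (c := X T m) h)
      (c3_ins (a := T) (b := T) (c := X T m) h hf hi)
    have h4 := zer_le (f (e (Sum.inl ())))
    rw [e0, Nat.succ_mul]
    omega

theorem X_all {T : Fr} {b : ℕ} (hT : Good T b b b) (m : ℕ) :
    ∀ {V : Type} {G : SimpleGraph V} {f : V → Pt}, Dw G f → ∀ {x y z : V}
      {e : In (X T m) → V}, Pl G (X T m) x y z e →
      zc f e ≤ m * (2 * b + 1) + Fintype.card (In T) := by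
  induction m with
  | zero =>
    intro V G f _ x y z e _
    have : zc (T := Fr.nil) f e = 0 := zc_nil f e
    exact this.le.trans (Nat.zero_le _)
  | succ m ih =>
    intro V G f hf x y z e h
    have e0 : zc f e = zer (f (e (Sum.inl ()))) + (zc f (fun i => e (Sum.inr (Sum.inl i))) +
        (zc f (fun i => e (Sum.inr (Sum.inr (Sum.inl i)))) +
          zc f (fun i => e (Sum.inr (Sum.inr (Sum.inr i)))))) := by
      exact zc_st (a := T) (b := T) (c := X T m) f e
    have p1 := Pl.c1 (a := T) (b := T) (c := X T m) h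
    have p2 := Pl.c2 (a := T) (b := T) (c := X T m) h
    have p3 := Pl.c3 (a := T) (b := T) (c := X T m) h
    have tx : G.Adj (e (Sum.inl ())) x := Pl.tx (a := T) (b := T) (c := X T m) h
    have ty : G.Adj (e (Sum.inl ())) y := Pl.ty (a := T) (b := T) (c := X T m) h
    have tz : G.Adj (e (Sum.inl ())) z := Pl.tz (a := T) (b := T) (c := X T m) h
    have h4 := zer_le (f (e (Sum.inl ())))
    have g1 := fun hi => (hT V G f hf _ _ _ _ p1 hi).trans (vl_le _ _ _)
    have g2 := fun hi => (hT V G f hf _ _ _ _ p2 hi).trans (vl_le _ _ _)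
    have n1 := zc_le_card f (fun i => e (Sum.inr (Sum.inl i)))
    have n2 := zc_le_card f (fun i => e (Sum.inr (Sum.inr (Sum.inl i))))
    rcases hf.k4 h.xy h.yz h.xz tx ty tz with hc | hc | hc | hc
    · have hi : ∀ i, Ins (f (e i)) (f x) (f y) (f z) :=
        fun i => allIns h hf h.xy h.yz h.xz h.nx h.ny h.nz i hc
      have := X_proper hT (m + 1) hf h hi
      omega
    · -- x is the centre
      have q2 := g2 (fun i => centerIns p2 hf (m := x) (o1 := e (Sum.inl ())) (o2 := z)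
        (o3 := y) tz h.yz.symm ty tx.symm h.xz h.xy hc.swap23 p2.nx p2.ny p2.nz
        (fun i => h.ny _) p2.hdx i)
      have q3 := X_proper hT m hf p3 (fun i => (centerIns p3 hf (m := x) (o1 := y)
        (o2 := e (Sum.inl ())) (o3 := z) ty.symm tz h.yz h.xy tx.symm h.xz
        hc.swap12 p3.nx p3.ny p3.nz (fun i => h.nz _) p3.hdx i))
      rw [e0, Nat.succ_mul]
      omega
    · -- y is the centre
      have q1 := g1 (fun i => (centerIns p1 hf (m := y) (o1 := e (Sum.inl ())) (o2 := z)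
        (o3 := x) tz h.xz.symm tx ty.symm h.yz h.xy.symm hc.rot
        p1.ny p1.nx p1.nz (fun i => h.nx _)
        (fun i => ⟨(p1.hdx i).2.1, (p1.hdx i).1, (p1.hdx i).2.2⟩) i).swap12)
      have q3 := X_proper hT m hf p3 (fun i => (centerIns p3 hf (m := y) (o1 := x)
        (o2 := e (Sum.inl ())) (o3 := z) tx.symm tz h.xz h.xy.symm ty.symm h.yz
        hc p3.ny p3.nx p3.nz (fun i => h.nz _)
        (fun i => ⟨(p3.hdx i).2.1, (p3.hdx i).1, (p3.hdx i).2.2⟩) i).swap12)
      rw [e0, Nat.succ_mul]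
      omega
    · -- z is the centre
      have q1 := g1 (fun i => (centerIns p1 hf (m := z) (o1 := e (Sum.inl ())) (o2 := y)
        (o3 := x) ty h.xy.symm tx tz.symm h.yz.symm h.xz.symm hc.swap13
        p1.nz p1.nx p1.ny (fun i => h.nx _)
        (fun i => ⟨(p1.hdx i).2.2, (p1.hdx i).1, (p1.hdx i).2.1⟩) i).rot)
      have q2 := g2 (fun i => (centerIns p2 hf (m := z) (o1 := x)
        (o2 := e (Sum.inl ())) (o3 := y) tx.symm ty h.xy h.xz.symm tz.symm h.yz.symm
        hc.swap23 p2.nz p2.nx p2.ny (fun i => h.ny _)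
        (fun i => ⟨(p2.hdx i).2.2, (p2.hdx i).1, (p2.hdx i).2.1⟩) i).rot)
      have q3 := ih hf p3
      rw [e0, Nat.succ_mul]
      omega

end Pool.Agent.Helper23.Free
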