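import Pool.Agent.Helper23.Free.Planar
import Pool.Agent.Helper23.Free.Xm

set_option autoImplicit false

namespace Pool.Agent.Helper23.Free

/-- number of vertices on the x-axis in any drawing of the graph -/
theorem zeros_le {T : Fr} {b : ℕ} (hT : Good T b b b) (m : ℕ)
    {f : W (X T m) → Pt} (hf : Dw (Gr (X T m)) f) (S : Finset (W (X T m)))
    (hS : ∀ v ∈ S, (f v).2 = 0) :
    S.card ≤ 3 + (m * (2 * b + 1) + Fintype.card (In T)) := by
  classical
  have h1 := X_all hT m hf (G_pl (X T m))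
  have h2 : S.card ≤ ∑ v : W (X T m), zer (f v) := by
    calc S.card = ∑ v ∈ S, 1 := by simp
      _ = ∑ v ∈ S, zer (f v) := by
        apply Finset.sum_congr rfl
        intro v hv
        unfold zer
        rw [if_pos (hS v hv)]
      _ ≤ ∑ v : W (X T m), zer (f v) :=
        Finset.sum_le_sum_of_subset (Finset.subset_univ S)
  have h3 : ∑ v : W (X T m), zer (f v) = (∑ k : Fin 3, zer (f (Sum.inl k))) +
      zc f (Sum.inr : In (X T m) → W (X T m)) := by
    rw [Fintype.sum_sum_type]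
    rfl
  have h4 : (∑ k : Fin 3, zer (f (Sum.inl k))) ≤ 3 := by
    calc (∑ k : Fin 3, zer (f (Sum.inl k))) ≤ ∑ k : Fin 3, 1 :=
          Finset.sum_le_sum (fun k _ => zer_le _)
      _ = 3 := by simp
  omega

theorem card_W (T : Fr) : Fintype.card (W T) = 3 + Fintype.card (In T) := by
  show Fintype.card (Fin 3 ⊕ In T) = _
  rw [Fintype.card_sum]
  simp

theorem main :
    ¬ (∃ c : ℝ, 0 < c ∧
      ∀ (V : Type) [Fintype V] [DecidableEq V] (G : SimpleGraph V),
        (∃ f : V → ℝ × ℝ, Function.Injective f ∧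
          (∀ u v w : V, G.Adj u v → w ≠ u → w ≠ v → f w ∉ segment ℝ (f u) (f v)) ∧
          (∀ u v x y : V, G.Adj u v → G.Adj x y → ¬(u = x ∧ v = y) → ¬(u = y ∧ v = x) →
            ∀ p ∈ segment ℝ (f u) (f v), p ∈ segment ℝ (f x) (f y) →
              p ∈ f '' (({u, v} : Set V) ∩ {x, y}))) →
        (∃ (m : ℕ) (T : SimpleGraph (Fin m)) (bag : Fin m → Finset V),
          T.IsTree ∧ (∀ i, (bag i).card ≤ 5) ∧ (∀ v, ∃ i, v ∈ bag i) ∧
          (∀ u v, G.Adj u v → ∃ i, u ∈ bag i ∧ v ∈ bag i) ∧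
          (∀ v, (T.induce {i | v ∈ bag i}).Connected)) →
        ∃ S : Finset V, c * (Fintype.card V : ℝ) ≤ (S.card : ℝ) ∧
          ∀ P : Finset (ℝ × ℝ), P.card = S.card →
            ∃ f : V → ℝ × ℝ, Function.Injective f ∧
              (∀ u v w : V, G.Adj u v → w ≠ u → w ≠ v → f w ∉ segment ℝ (f u) (f v)) ∧
              (∀ u v x y : V, G.Adj u v → G.Adj x y → ¬(u = x ∧ v = y) → ¬(u = y ∧ v = x) →
                ∀ p ∈ segment ℝ (f u) (f v), p ∈ segment ℝ (f x) (f y) →
                  p ∈ f '' (({u, v} : Set V) ∩ {x, y})) ∧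
              S.image f = P) := by
  rintro ⟨c, hc, H⟩
  obtain ⟨T, b, hN, hT, hb, hrate⟩ := rate (c / 8) (by linarith)
  obtain ⟨m, hm⟩ := exists_nat_ge (8 / c)
  classical
  obtain ⟨S, hS, hP⟩ := H (W (X T m)) (Gr (X T m))
    ⟨ps (X T m), (G_dw _).inj, (G_dw _).ve, (G_dw _).ee⟩ (G_td (X T m))
  set P : Finset (ℝ × ℝ) := (Finset.range S.card).image (fun i : ℕ => ((i : ℝ), (0 : ℝ)))
    with hPdef
  have hPcard : P.card = S.card := by
    rw [hPdef, Finset.card_image_of_injective]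
    · simp
    · intro i j hij
      have h1 : ((i : ℝ), (0 : ℝ)).1 = ((j : ℝ), (0 : ℝ)).1 := congrArg Prod.fst hij
      simp only at h1
      exact_mod_cast h1
  obtain ⟨f, hf1, hf2, hf3, hf4⟩ := hP P hPcard
  have hz : ∀ v ∈ S, (f v).2 = 0 := by
    intro v hv
    have : f v ∈ P := by rw [← hf4]; exact Finset.mem_image_of_mem f hv
    rw [hPdef, Finset.mem_image] at this
    obtain ⟨i, _, hi⟩ := this
    rw [← hi]
  have hle := zeros_le hT m (f := f) ⟨hf1, hf2, hf3⟩ S hz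
  rw [card_W, card_X] at hS
  set N := Fintype.card (In T) with hNdef
  have hNr : (1 : ℝ) ≤ N := by exact_mod_cast hN
  have hbr : (1 : ℝ) ≤ b := by exact_mod_cast hb
  have hler : (S.card : ℝ) ≤ 3 + (m * (2 * b + 1) + N) := by exact_mod_cast hle
  push_cast at hS
  have hmc : 8 ≤ c * m := by
    have := (div_le_iff₀ hc).mp hm
    linarith
  have hm0 : (0 : ℝ) ≤ m := Nat.cast_nonneg m
  have k1 : (m : ℝ) * (2 * b + 1) ≤ 3 * (c / 8) * (m * N) := by
    have : (2 * (b : ℝ) + 1) ≤ 3 * (c / 8 * N) := by linarith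
    calc (m : ℝ) * (2 * b + 1) ≤ m * (3 * (c / 8 * N)) := mul_le_mul_of_nonneg_left this hm0
      _ = 3 * (c / 8) * (m * N) := by ring
  have k2 : (3 : ℝ) + N ≤ (c / 2) * (m * N) := by
    have : (4 : ℝ) * N ≤ (c * m / 2) * N := by
      apply mul_le_mul_of_nonneg_right _ (by linarith)
      linarith
    calc (3 : ℝ) + N ≤ 4 * N := by linarith
      _ ≤ (c * m / 2) * N := this
      _ = (c / 2) * (m * N) := by ring
  have k3 : 0 < c * m * N := by
    have : (0 : ℝ) < c * m := by linarith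
    positivity
  have k4 : 0 ≤ c * (3 + (m : ℝ)) := by positivity
  have k5 : c * (3 + (m : ℝ) * (1 + 2 * N)) = c * (3 + m) + 2 * (c * m * N) := by ring
  have k6 : 3 * (c / 8) * (m * (N : ℝ)) + (c / 2) * (m * N) = 7 / 8 * (c * m * N) := by ring
  linarith

end Pool.Agent.Helper23.Free
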