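import Pool.Agent.Helper23.Free.TDext

set_option autoImplicit false

namespace Pool.Agent.Helper23.Free

theorem td_bg {T : Fin 9 → Fr}
    (ih : ∀ i : Fin 9, ∀ {V : Type} [DecidableEq V] {x y z : V} {e : In (T i) → V} {S : Set V}
      {BB : Set (Finset V)}, Function.Injective e → (∀ i, e i ∉ S) → TD S BB → ∀ B ∈ BB,
      x ∈ B → y ∈ B → z ∈ B → ∃ BB' : Set (Finset V), BB ⊆ BB' ∧ TD (S ∪ Set.range e) BB' ∧
      ∀ u v, Ed (T i) x y z e u v → ∃ C ∈ BB', u ∈ C ∧ v ∈ C)
    {V : Type} [DecidableEq V] {x y z : V} {e : In (.bg T) → V} {S : Set V}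
    {BB : Set (Finset V)} (hinj : Function.Injective e) (hS : ∀ i, e i ∉ S) (h : TD S BB)
    (B : Finset V) (hB : B ∈ BB) (hx : x ∈ B) (hy : y ∈ B) (hz : z ∈ B) :
    ∃ BB' : Set (Finset V), BB ⊆ BB' ∧ TD (S ∪ Set.range e) BB' ∧
      ∀ u v, Ed (.bg T) x y z e u v → ∃ C ∈ BB', u ∈ C ∧ v ∈ C := by
  set bb := bv x y (fun k => e (Sum.inl k)) with hbb
  have hsub : ({x, y, z} : Finset V) ⊆ B := by
    intro w hw
    simp only [Finset.mem_insert, Finset.mem_singleton] at hw
    rcases hw with rfl | rfl | rfl <;> assumption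
  have ne : ∀ k l : Fin 5, k ≠ l → e (Sum.inl k) ≠ e (Sum.inl l) := by
    intro k l hkl hc
    apply hkl
    have := hinj hc
    injection this
  have bb1 : bb 1 = x := rfl
  have bb2 : bb 2 = y := rfl
  -- the five bags
  set C0 : Finset V := insert (bb 0) {x, y, z} with hC0
  set C1 : Finset V := insert (bb 3) {bb 0, bb 1, bb 2} with hC1
  set C2 : Finset V := insert (bb 6) {bb 3, bb 0, bb 1, bb 2} with hC2
  set C3 : Finset V := insert (bb 4) {bb 6, bb 3, bb 0, bb 1} with hC3
  set C4 : Finset V := insert (bb 5) {bb 4, bb 6, bb 0, bb 1} with hC4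
  have k0 : TD (insert (bb 0) S) (insert C0 BB) :=
    h.add (hS (Sum.inl 0)) hB hsub ((Finset.card_le_three).trans (by norm_num))
  have k1 : TD (insert (bb 3) (insert (bb 0) S)) (insert C1 (insert C0 BB)) := by
    refine k0.add ?_ (B := C0) (Set.mem_insert _ _) ?_
      ((Finset.card_le_three).trans (by norm_num))
    · rintro (hc | hc)
      · exact ne 1 0 (by decide) hc
      · exact hS _ hc
    · intro w hw
      simp only [Finset.mem_insert, Finset.mem_singleton, bb1, bb2] at hw
      rcases hw with rfl | rfl | rfl <;> simp [C0]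
  have k2 : TD (insert (bb 6) (insert (bb 3) (insert (bb 0) S)))
      (insert C2 (insert C1 (insert C0 BB))) := by
    refine k1.add ?_ (B := C1) (Set.mem_insert _ _) (Finset.Subset.refl _)
      (Finset.card_le_four)
    · rintro (hc | hc | hc)
      · exact ne 4 1 (by decide) hc
      · exact ne 4 0 (by decide) hc
      · exact hS _ hc
  have k3 : TD (insert (bb 4) (insert (bb 6) (insert (bb 3) (insert (bb 0) S))))
      (insert C3 (insert C2 (insert C1 (insert C0 BB)))) := by
    refine k2.add ?_ (B := C2) (Set.mem_insert _ _) ?_ (Finset.card_le_four)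
    · rintro (hc | hc | hc | hc)
      · exact ne 2 4 (by decide) hc
      · exact ne 2 1 (by decide) hc
      · exact ne 2 0 (by decide) hc
      · exact hS _ hc
    · intro w hw
      simp only [C2, Finset.mem_insert, Finset.mem_singleton] at hw ⊢
      tauto
  have k4 : TD (insert (bb 5) (insert (bb 4) (insert (bb 6) (insert (bb 3)
      (insert (bb 0) S))))) (insert C4 (insert C3 (insert C2 (insert C1 (insert C0 BB))))) := by
    refine k3.add ?_ (B := C3) (Set.mem_insert _ _) ?_ (Finset.card_le_four)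
    · rintro (hc | hc | hc | hc | hc)
      · exact ne 3 2 (by decide) hc
      · exact ne 3 4 (by decide) hc
      · exact ne 3 1 (by decide) hc
      · exact ne 3 0 (by decide) hc
      · exact hS _ hc
    · intro w hw
      simp only [C3, Finset.mem_insert, Finset.mem_singleton] at hw ⊢
      tauto
  set S5 : Set V := insert (bb 5) (insert (bb 4) (insert (bb 6) (insert (bb 3)
      (insert (bb 0) S)))) with hS5
  set B5 : Set (Finset V) := insert C4 (insert C3 (insert C2 (insert C1 (insert C0 BB))))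
    with hB5
  have m4 : C4 ∈ B5 := Or.inl rfl
  have m3 : C3 ∈ B5 := Or.inr (Or.inl rfl)
  have m2 : C2 ∈ B5 := Or.inr (Or.inr (Or.inl rfl))
  have m0 : C0 ∈ B5 := Or.inr (Or.inr (Or.inr (Or.inr (Or.inl rfl))))
  have hface : ∀ i : Fin 9, ∃ C ∈ B5, bb (FC i).1 ∈ C ∧ bb (FC i).2.1 ∈ C ∧
      bb (FC i).2.2 ∈ C := by
    intro i
    fin_cases i
    · exact ⟨C2, m2, by simp [C2, FC], by simp [C2, FC], by simp [C2, FC]⟩
    · exact ⟨C4, m4, by simp [C4, FC], by simp [C4, FC], by simp [C4, FC]⟩
    · exact ⟨C2, m2, by simp [C2, FC], by simp [C2, FC], by simp [C2, FC]⟩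
    · exact ⟨C2, m2, by simp [C2, FC], by simp [C2, FC], by simp [C2, FC]⟩
    · exact ⟨C4, m4, by simp [C4, FC], by simp [C4, FC], by simp [C4, FC]⟩
    · exact ⟨C3, m3, by simp [C3, FC], by simp [C3, FC], by simp [C3, FC]⟩
    · exact ⟨C3, m3, by simp [C3, FC], by simp [C3, FC], by simp [C3, FC]⟩
    · exact ⟨C4, m4, by simp [C4, FC], by simp [C4, FC], by simp [C4, FC]⟩
    · exact ⟨C4, m4, by simp [C4, FC], by simp [C4, FC], by simp [C4, FC]⟩
  have hedge : ∀ q ∈ bE, ∃ C ∈ B5, bb q.1 ∈ C ∧ bb q.2 ∈ C := by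
    intro q hq
    simp only [bE, List.mem_cons, List.not_mem_nil, or_false] at hq
    rcases hq with rfl | rfl | rfl | rfl | rfl | rfl | rfl | rfl | rfl | rfl | rfl | rfl |
      rfl | rfl
    · exact ⟨C2, m2, by simp [C2], by simp [C2]⟩
    · exact ⟨C2, m2, by simp [C2], by simp [C2]⟩
    · exact ⟨C2, m2, by simp [C2], by simp [C2]⟩
    · exact ⟨C3, m3, by simp [C3], by simp [C3]⟩
    · exact ⟨C4, m4, by simp [C4], by simp [C4]⟩
    · exact ⟨C2, m2, by simp [C2], by simp [C2]⟩
    · exact ⟨C2, m2, by simp [C2], by simp [C2]⟩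
    · exact ⟨C2, m2, by simp [C2], by simp [C2]⟩
    · exact ⟨C3, m3, by simp [C3], by simp [C3]⟩
    · exact ⟨C4, m4, by simp [C4], by simp [C4]⟩
    · exact ⟨C2, m2, by simp [C2], by simp [C2]⟩
    · exact ⟨C3, m3, by simp [C3], by simp [C3]⟩
    · exact ⟨C4, m4, by simp [C4], by simp [C4]⟩
    · exact ⟨C4, m4, by simp [C4], by simp [C4]⟩
  -- children one by one
  have key : ∀ I : Finset (Fin 9), ∃ BB' : Set (Finset V), B5 ⊆ BB' ∧
      TD (S5 ∪ {v | ∃ i ∈ I, ∃ j, v = e (Sum.inr ⟨i, j⟩)}) BB' ∧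
      ∀ i ∈ I, ∀ u v, Ed (T i) (bb (FC i).1) (bb (FC i).2.1) (bb (FC i).2.2)
        (fun j => e (Sum.inr ⟨i, j⟩)) u v → ∃ C ∈ BB', u ∈ C ∧ v ∈ C := by
    intro I
    induction I using Finset.induction_on with
    | empty =>
      refine ⟨B5, Set.Subset.refl _, ?_, fun i hi => absurd hi (Finset.notMem_empty i)⟩
      have : S5 ∪ {v | ∃ i ∈ (∅ : Finset (Fin 9)), ∃ j : In (T i), v = e (Sum.inr ⟨i, j⟩)}
          = S5 := by
        ext w; simp
      rw [this]; exact k4
    | insert i0 I hi0 hI =>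
      obtain ⟨BB1, s1, kI, qI⟩ := hI
      obtain ⟨C, hC, c1, c2, c3⟩ := hface i0
      obtain ⟨BB2, s2, kJ, qJ⟩ := ih i0 (x := bb (FC i0).1) (y := bb (FC i0).2.1)
        (z := bb (FC i0).2.2) (e := fun j => e (Sum.inr ⟨i0, j⟩)) (by
          intro j k hjk
          have := hinj hjk
          injection this with h1
          injection h1 with _ h2) (by
          rintro j ((hc | hc | hc | hc | hc | hc) | ⟨i, hi, k, hk⟩)
          · have := hinj hc
            injection this
          · have := hinj hc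
            injection this
          · have := hinj hc
            injection this
          · have := hinj hc
            injection this
          · have := hinj hc
            injection this
          · exact hS _ hc
          · have := hinj hk
            injection this with h1
            injection h1 with h2 h3
            subst h2
            exact hi0 hi) kI C (s1 hC) c1 c2 c3
      refine ⟨BB2, fun D hD => s2 (s1 hD), ?_, ?_⟩
      · have : S5 ∪ {v | ∃ i ∈ insert i0 I, ∃ j : In (T i), v = e (Sum.inr ⟨i, j⟩)} =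
          (S5 ∪ {v | ∃ i ∈ I, ∃ j : In (T i), v = e (Sum.inr ⟨i, j⟩)}) ∪
            Set.range (fun j => e (Sum.inr ⟨i0, j⟩)) := by
          ext w
          constructor
          · rintro (hw | ⟨i, hi, j, rfl⟩)
            · exact Or.inl (Or.inl hw)
            · rcases Finset.mem_insert.mp hi with rfl | hi
              · exact Or.inr ⟨j, rfl⟩
              · exact Or.inl (Or.inr ⟨i, hi, j, rfl⟩)
          · rintro ((hw | ⟨i, hi, j, rfl⟩) | ⟨j, rfl⟩)
            · exact Or.inl hw
            · exact Or.inr ⟨i, Finset.mem_insert_of_mem hi, j, rfl⟩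
            · exact Or.inr ⟨i0, Finset.mem_insert_self _ _, j, rfl⟩
        rw [this]; exact kJ
      · intro i hi u v huv
        rcases Finset.mem_insert.mp hi with rfl | hi
        · exact qJ u v huv
        · obtain ⟨D, hD, h2⟩ := qI i hi u v huv
          exact ⟨D, s2 hD, h2⟩
  obtain ⟨BB', s, k, q⟩ := key Finset.univ
  refine ⟨BB', ?_, ?_, ?_⟩
  · intro D hD
    exact s (Or.inr (Or.inr (Or.inr (Or.inr (Or.inr hD)))))
  · have : S ∪ Set.range e = S5 ∪
        {v | ∃ i ∈ (Finset.univ : Finset (Fin 9)), ∃ j : In (T i), v = e (Sum.inr ⟨i, j⟩)} := by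
      ext w
      constructor
      · rintro (hw | ⟨i, rfl⟩)
        · exact Or.inl (Or.inr (Or.inr (Or.inr (Or.inr (Or.inr hw)))))
        · match i with
          | Sum.inl k =>
            left
            fin_cases k
            · exact Or.inr (Or.inr (Or.inr (Or.inr (Or.inl rfl))))
            · exact Or.inr (Or.inr (Or.inr (Or.inl rfl)))
            · exact Or.inr (Or.inl rfl)
            · exact Or.inl rfl
            · exact Or.inr (Or.inr (Or.inl rfl))
          | Sum.inr ⟨i, j⟩ => exact Or.inr ⟨i, Finset.mem_univ _, j, rfl⟩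
      · rintro ((rfl | rfl | rfl | rfl | rfl | hw) | ⟨i, _, j, rfl⟩)
        · exact Or.inr ⟨_, rfl⟩
        · exact Or.inr ⟨_, rfl⟩
        · exact Or.inr ⟨_, rfl⟩
        · exact Or.inr ⟨_, rfl⟩
        · exact Or.inr ⟨_, rfl⟩
        · exact Or.inl hw
        · exact Or.inr ⟨_, rfl⟩
    rw [this]; exact k
  · rintro u v (⟨rfl, rfl⟩ | ⟨p, hp, rfl, rfl⟩ | ⟨i, h1⟩)
    · exact ⟨C0, s m0, by
        show bb 0 ∈ C0
        simp [C0], by simp [C0]⟩
    · obtain ⟨C, hC, h2⟩ := hedge p hp
      exact ⟨C, s hC, h2⟩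
    · exact q i (Finset.mem_univ _) u v h1

theorem td_ext (T : Fr) : ∀ {V : Type} [DecidableEq V] {x y z : V} {e : In T → V} {S : Set V}
    {BB : Set (Finset V)}, Function.Injective e → (∀ i, e i ∉ S) → TD S BB → ∀ B ∈ BB,
    x ∈ B → y ∈ B → z ∈ B → ∃ BB' : Set (Finset V), BB ⊆ BB' ∧ TD (S ∪ Set.range e) BB' ∧
      ∀ u v, Ed T x y z e u v → ∃ C ∈ BB', u ∈ C ∧ v ∈ C := by
  induction T with
  | nil =>
    intro V _ x y z e S BB _ _ h B _ _ _ _
    refine ⟨BB, Set.Subset.refl _, ?_, fun u v huv => huv.elim⟩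
    have : Set.range e = ∅ := by
      ext v; constructor
      · rintro ⟨i, _⟩; exact i.elim
      · intro h; exact h.elim
    rw [this, Set.union_empty]; exact h
  | st a b c iha ihb ihc =>
    intro V _ x y z e S BB hinj hS h B hB hx hy hz
    exact td_st iha ihb ihc hinj hS h B hB hx hy hz
  | bg T ih =>
    intro V _ x y z e S BB hinj hS h B hB hx hy hz
    exact td_bg (fun i => ih i) hinj hS h B hB hx hy hz

end Pool.Agent.Helper23.Free
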