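import Pool.Agent.Helper23.Free.Draw
import Pool.Agent.Helper23.Free.TDbg

set_option autoImplicit false

namespace Pool.Agent.Helper23.Free

abbrev W (T : Fr) : Type := Fin 3 ⊕ In T

def tri (T : Fr) (u v : W T) : Prop :=
  (u = Sum.inl 0 ∧ v = Sum.inl 1) ∨ (u = Sum.inl 1 ∧ v = Sum.inl 2) ∨
    (u = Sum.inl 0 ∧ v = Sum.inl 2)

def Rl (T : Fr) (u v : W T) : Prop :=
  tri T u v ∨ Ed T (Sum.inl 0) (Sum.inl 1) (Sum.inl 2) Sum.inr u v

def Gr (T : Fr) : SimpleGraph (W T) := SimpleGraph.fromRel (Rl T)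

noncomputable def ps (T : Fr) : W T → Pt :=
  Sum.elim ![(0, 0), (1, 0), (0, 1)] (pos T (0, 0) (1, 0) (0, 1))

theorem nd0 : D3 ((0, 0) : Pt) (1, 0) (0, 1) ≠ 0 := by unfold D3; norm_num

theorem ps_val (T : Fr) : Val (ps T) (fun v => ∃ i, v = Sum.inr i)
    (Ed T (Sum.inl 0) (Sum.inl 1) (Sum.inl 2) Sum.inr) (Sum.inl 0 : W T) (Sum.inl 1)
    (Sum.inl 2) :=
  draw T (ps T) Sum.inr nd0 (fun _ => rfl)

theorem not_Ins_corner {T : Fr} (k : Fin 3) :
    ¬ Ins (ps T (Sum.inl k)) (ps T (Sum.inl 0)) (ps T (Sum.inl 1)) (ps T (Sum.inl 2)) := by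
  have n := nd0
  fin_cases k
  · exact not_Ins_self n
  · intro h
    exact not_Ins_self (a := (1, 0)) (b := (0, 1)) (c := (0, 0)) (by rwa [D3_rot]) h.rot
  · intro h
    exact not_Ins_self (a := (0, 1)) (b := (0, 0)) (c := (1, 0)) (by rwa [D3_rot, D3_rot])
      h.rot.rot

theorem ps_inj (T : Fr) : Function.Injective (ps T) := by
  rintro (a | a) (b | b) h
  · have : a = b := by
      have h' : (![(0, 0), (1, 0), (0, 1)] : Fin 3 → Pt) a =
        (![(0, 0), (1, 0), (0, 1)] : Fin 3 → Pt) b := h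
      fin_cases a <;> fin_cases b <;> first | rfl | (exfalso; simp at h')
    rw [this]
  · exfalso
    have := (ps_val T).ins (Sum.inr b) ⟨b, rfl⟩
    rw [← h] at this
    exact not_Ins_corner a this
  · exfalso
    have := (ps_val T).ins (Sum.inr a) ⟨a, rfl⟩
    rw [h] at this
    exact not_Ins_corner b this
  · exact (ps_val T).inj _ _ ⟨a, rfl⟩ ⟨b, rfl⟩ h

theorem os_D3 {p a b : Pt} (h : Ins p a b b) : D3 p a b = 0 := by
  obtain ⟨α, β, γ, _, _, _, h4, h5, h6⟩ := h
  rw [D3_comb h4 h5 h6]; unfold D3; ring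

theorem ins_D3 {p a b c : Pt} (nd : D3 a b c ≠ 0) (h : Ins p a b c) : D3 p a b ≠ 0 := by
  obtain ⟨α, β, γ, _, _, h3, h4, h5, h6⟩ := h
  rw [D3_comb h4 h5 h6]
  have e1 : D3 a a b = 0 := by unfold D3; ring
  have e2 : D3 b a b = 0 := by unfold D3; ring
  have e3 : D3 c a b = D3 a b c := by rw [← D3_rot c a b]
  rw [e1, e2, e3]
  have := mul_ne_zero h3.ne' nd
  simpa using this

/-- a point of an open side is not inside -/
theorem side_not_ins {a b c p : Pt} (nd : D3 a b c ≠ 0) (h : Ins p a b b) : ¬ Ins p a b c :=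
  fun h' => ins_D3 nd h' (os_D3 h)

theorem side_side {a b c p : Pt} (nd : D3 a b c ≠ 0) (h : Ins p a b b) (h' : Ins p b c c) :
    False := by
  have e := os_D3 h
  obtain ⟨α, β, γ, _, h2, h3, h4, h5, h6⟩ := h'
  rw [D3_comb h4 h5 h6] at e
  have e2 : D3 b a b = 0 := by unfold D3; ring
  have e3 : D3 c a b = D3 a b c := by rw [← D3_rot c a b]
  rw [e2, e3] at e
  have : (β + γ) * D3 a b c = 0 := by linarith
  rcases mul_eq_zero.mp this with h | h
  · linarith
  · exact nd h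

theorem Ins.os_symm {p a b : Pt} (h : Ins p a b b) : Ins p b a a := by
  obtain ⟨α, β, γ, h1, h2, h3, h4, h5, h6⟩ := h
  exact ⟨β + γ, α / 2, α / 2, by linarith, by linarith, by linarith, by linarith,
    by linarith, by linarith⟩

theorem end_not_os {a b : Pt} (hab : a ≠ b) : ¬ Ins a a b b := by
  rintro ⟨α, β, γ, h1, h2, h3, h4, h5, h6⟩
  apply hab
  have hα : α = 1 - (β + γ) := by linarith
  have hp : 0 < β + γ := by linarith
  ext
  · have : (β + γ) * (a.1 - b.1) = 0 := by rw [hα] at h5; linarith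
    rcases mul_eq_zero.mp this with h | h <;> linarith
  · have : (β + γ) * (a.2 - b.2) = 0 := by rw [hα] at h6; linarith
    rcases mul_eq_zero.mp this with h | h <;> linarith

theorem R_ve (T : Fr) (u v : W T) (h : Rl T u v) (s : W T) : ¬ Ins (ps T s) (ps T u) (ps T v)
    (ps T v) := by
  have n := nd0
  rcases h with h | h
  · -- a side
    have key : ∀ i j k : Fin 3, D3 (ps T (Sum.inl i)) (ps T (Sum.inl j)) (ps T (Sum.inl k)) ≠ 0 →
        (∀ p, Ins p (ps T (Sum.inl 0)) (ps T (Sum.inl 1)) (ps T (Sum.inl 2)) →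
          Ins p (ps T (Sum.inl i)) (ps T (Sum.inl j)) (ps T (Sum.inl k))) →
        i ≠ j → (∀ l : Fin 3, l = i ∨ l = j ∨ l = k) →
        ¬ Ins (ps T s) (ps T (Sum.inl i)) (ps T (Sum.inl j)) (ps T (Sum.inl j)) := by
      intro i j k nd hp hij hl hc
      rcases s with l | s
      · rcases hl l with rfl | rfl | rfl
        · exact end_not_os (fun e => hij (by simpa using ps_inj T e)) hc
        · exact end_not_os (fun e => hij (by simpa using (ps_inj T e).symm)) hc.os_symm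
        · have := os_D3 hc
          apply nd
          rw [D3_rot, D3_rot] at this
          rw [← this]
      · exact side_not_ins nd hc (hp _ ((ps_val T).ins _ ⟨s, rfl⟩))
    rcases h with ⟨rfl, rfl⟩ | ⟨rfl, rfl⟩ | ⟨rfl, rfl⟩
    · exact key 0 1 2 n (fun p hp => hp) (by decide) (by decide)
    · exact key 1 2 0 (by rw [D3_rot]; exact n) (fun p hp => hp.rot) (by decide) (by decide)
    · exact key 0 2 1 (by rw [D3_swap23]; exact neg_ne_zero.mpr n) (fun p hp => hp.swap23)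
        (by decide) (by decide)
  · intro hc
    rcases s with l | s
    · exact not_Ins_corner l ((ps_val T).edge u v h _ hc)
    · exact (ps_val T).ve u v h _ ⟨s, rfl⟩ hc

theorem R_ne (T : Fr) (u v : W T) (h : Rl T u v) : u ≠ v := by
  rintro rfl
  exact R_ve T u u h u (Ins.self _)

theorem R_ee (T : Fr) (u v u' v' : W T) (h : Rl T u v) (h' : Rl T u' v') (p : Pt)
    (hp : Ins p (ps T u) (ps T v) (ps T v)) (hp' : Ins p (ps T u') (ps T v') (ps T v')) :
    (u = u' ∧ v = v') ∨ (u = v' ∧ v = u') := by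
  have n := nd0
  have side : ∀ u v : W T, tri T u v → Ins p (ps T u) (ps T v) (ps T v) →
      ¬ Ins p (ps T (Sum.inl 0)) (ps T (Sum.inl 1)) (ps T (Sum.inl 2)) := by
    rintro u v (⟨rfl, rfl⟩ | ⟨rfl, rfl⟩ | ⟨rfl, rfl⟩) hp hc
    · exact side_not_ins n hp hc
    · exact side_not_ins (c := ps T (Sum.inl 0)) (by rw [D3_rot]; exact n) hp hc.rot
    · exact side_not_ins (c := ps T (Sum.inl 1)) (by rw [D3_swap23]; exact neg_ne_zero.mpr n)
        hp hc.swap23
  rcases h with h | h <;> rcases h' with h' | h'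
  · have n1 : D3 (ps T (Sum.inl 1)) (ps T (Sum.inl 2)) (ps T (Sum.inl 0)) ≠ 0 := by
      rw [D3_rot]; exact n
    have n2 : D3 (ps T (Sum.inl 2)) (ps T (Sum.inl 0)) (ps T (Sum.inl 1)) ≠ 0 := by
      rw [D3_rot, D3_rot]; exact n
    rcases h with ⟨rfl, rfl⟩ | ⟨rfl, rfl⟩ | ⟨rfl, rfl⟩ <;>
      rcases h' with ⟨rfl, rfl⟩ | ⟨rfl, rfl⟩ | ⟨rfl, rfl⟩
    · exact Or.inl ⟨rfl, rfl⟩
    · exact (side_side n hp hp').elim
    · exact (side_side n2 hp'.os_symm hp).elim
    · exact (side_side n hp' hp).elim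
    · exact Or.inl ⟨rfl, rfl⟩
    · exact (side_side n1 hp hp'.os_symm).elim
    · exact (side_side n2 hp.os_symm hp').elim
    · exact (side_side n1 hp' hp.os_symm).elim
    · exact Or.inl ⟨rfl, rfl⟩
  · exact (side u v h hp ((ps_val T).edge _ _ h' _ hp')).elim
  · exact (side u' v' h' hp' ((ps_val T).edge _ _ h _ hp)).elim
  · exact (ps_val T).ee u v u' v' h h' p hp hp'

theorem G_adj {T : Fr} {u v : W T} (h : (Gr T).Adj u v) : u ≠ v ∧ (Rl T u v ∨ Rl T v u) := h

theorem G_ve (T : Fr) (u v : W T) (h : (Gr T).Adj u v) (s : W T) :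
    ¬ Ins (ps T s) (ps T u) (ps T v) (ps T v) := by
  rcases (G_adj h).2 with h | h
  · exact R_ve T u v h s
  · exact fun hc => R_ve T v u h s hc.os_symm

theorem G_ee (T : Fr) (u v u' v' : W T) (h : (Gr T).Adj u v) (h' : (Gr T).Adj u' v') (p : Pt)
    (hp : Ins p (ps T u) (ps T v) (ps T v)) (hp' : Ins p (ps T u') (ps T v') (ps T v')) :
    (u = u' ∧ v = v') ∨ (u = v' ∧ v = u') := by
  rcases (G_adj h).2 with h | h <;> rcases (G_adj h').2 with h' | h'
  · exact R_ee T u v u' v' h h' p hp hp'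
  · have := R_ee T u v v' u' h h' p hp hp'.os_symm
    tauto
  · have := R_ee T v u u' v' h h' p hp.os_symm hp'
    tauto
  · have := R_ee T v u v' u' h h' p hp.os_symm hp'.os_symm
    tauto

theorem seg_cases {p a b : Pt} (h : p ∈ segment ℝ a b) : p = a ∨ p = b ∨ Ins p a b b := by
  obtain ⟨s, t, hs, ht, hst, h1, h2⟩ := seg_mem h
  rcases eq_or_lt_of_le hs with hs | hs
  · right; left
    have : t = 1 := by linarith
    subst this
    subst hs
    ext
    · rw [h1]; ring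
    · rw [h2]; ring
  · rcases eq_or_lt_of_le ht with ht | ht
    · left
      have : s = 1 := by linarith
      subst this
      subst ht
      ext
      · rw [h1]; ring
      · rw [h2]; ring
    · right; right
      exact ⟨s, t / 2, t / 2, hs, by linarith, by linarith, by linarith, by linarith,
        by linarith⟩

theorem G_dw (T : Fr) : Dw (Gr T) (ps T) := by
  have hve : ∀ u v w : W T, (Gr T).Adj u v → w ≠ u → w ≠ v →
      ps T w ∉ segment ℝ (ps T u) (ps T v) := by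
    intro u v w h h1 h2 hc
    rcases seg_cases hc with hc | hc | hc
    · exact h1 (ps_inj T hc)
    · exact h2 (ps_inj T hc)
    · exact G_ve T u v h w hc
  refine ⟨ps_inj T, hve, ?_⟩
  intro u v x y h h' n1 n2 p hp hp'
  have e1 : ∀ w : W T, w ∈ ({u, v} : Set (W T)) → p = ps T w →
      p ∈ ps T '' (({u, v} : Set (W T)) ∩ {x, y}) := by
    intro w hw hpw
    refine ⟨w, ⟨hw, ?_⟩, hpw.symm⟩
    by_contra hc
    simp only [Set.mem_insert_iff, Set.mem_singleton_iff, not_or] at hc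
    rw [hpw] at hp'
    exact hve x y w h' hc.1 hc.2 hp'
  have e2 : ∀ w : W T, w ∈ ({x, y} : Set (W T)) → p = ps T w →
      p ∈ ps T '' (({u, v} : Set (W T)) ∩ {x, y}) := by
    intro w hw hpw
    refine ⟨w, ⟨?_, hw⟩, hpw.symm⟩
    by_contra hc
    simp only [Set.mem_insert_iff, Set.mem_singleton_iff, not_or] at hc
    rw [hpw] at hp
    exact hve u v w h hc.1 hc.2 hp
  rcases seg_cases hp with hc | hc | hc
  · exact e1 u (by simp) hc
  · exact e1 v (by simp) hc
  · rcases seg_cases hp' with hc' | hc' | hc'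
    · exact e2 x (by simp) hc'
    · exact e2 y (by simp) hc'
    · exfalso
      rcases G_ee T u v x y h h' p hc hc' with h3 | h3
      · exact n1 h3
      · exact n2 h3

theorem G_pl (T : Fr) : Pl (Gr T) T (Sum.inl 0) (Sum.inl 1) (Sum.inl 2) Sum.inr where
  xy := ⟨by simp, Or.inl (Or.inl (Or.inl ⟨rfl, rfl⟩))⟩
  yz := ⟨by simp, Or.inl (Or.inl (Or.inr (Or.inl ⟨rfl, rfl⟩)))⟩
  xz := ⟨by simp, Or.inl (Or.inl (Or.inr (Or.inr ⟨rfl, rfl⟩)))⟩
  inj := Sum.inr_injective
  nx := by simp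
  ny := by simp
  nz := by simp
  ed := fun u v h => ⟨R_ne T u v (Or.inr h), Or.inl (Or.inr h)⟩

open SimpleGraph in
theorem G_td (T : Fr) : ∃ (m : ℕ) (R : SimpleGraph (Fin m)) (bag : Fin m → Finset (W T)),
    R.IsTree ∧ (∀ i, (bag i).card ≤ 5) ∧ (∀ v, ∃ i, v ∈ bag i) ∧
    (∀ u v, (Gr T).Adj u v → ∃ i, u ∈ bag i ∧ v ∈ bag i) ∧
    (∀ v, (R.induce {i | v ∈ bag i}).Connected) := by
  classical
  set B : Finset (W T) := {Sum.inl 0, Sum.inl 1, Sum.inl 2} with hB
  have st := TD.start B ((Finset.card_le_three).trans (by norm_num))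
  obtain ⟨BB, s, ⟨ι, hι, R, bag, h1, h2, h3, h4, h5, h6⟩, q⟩ := td_ext T (e := Sum.inr)
    Sum.inr_injective (fun i => by simp [B]) st B rfl (x := Sum.inl 0) (y := Sum.inl 1)
    (z := Sum.inl 2) (by simp [B]) (by simp [B]) (by simp [B])
  have hall : ∀ v : W T, v ∈ (B : Set (W T)) ∪ Set.range (Sum.inr : In T → W T) := by
    rintro (k | i)
    · left
      fin_cases k <;> simp [B]
    · exact Or.inr ⟨i, rfl⟩
  let σ := Fintype.equivFin ι
  refine ⟨Fintype.card ι, R.comap σ.symm, fun i => bag (σ.symm i), ?_, fun i => h2 _, ?_, ?_, ?_⟩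
  · have iso : R.comap σ.symm ≃g R := ⟨σ.symm, by simp⟩
    exact iso.isTree_iff.mpr h1
  · intro v
    obtain ⟨⟨i, hi⟩⟩ := (h6 v (hall v)).nonempty
    exact ⟨σ i, by simpa using hi⟩
  · have key : ∀ u v : W T, Rl T u v → ∃ i, u ∈ bag i ∧ v ∈ bag i := by
      rintro u v (h | h)
      · obtain ⟨i, hi⟩ := h5 B (s rfl)
        refine ⟨i, ?_⟩
        rw [hi]
        rcases h with ⟨rfl, rfl⟩ | ⟨rfl, rfl⟩ | ⟨rfl, rfl⟩ <;> simp [B]
      · obtain ⟨C, hC, hu, hv⟩ := q u v h
        obtain ⟨i, rfl⟩ := h5 C hC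
        exact ⟨i, hu, hv⟩
    intro u v h
    rcases (G_adj h).2 with h | h
    · obtain ⟨i, hi⟩ := key u v h
      exact ⟨σ i, by simpa using hi⟩
    · obtain ⟨i, hi⟩ := key v u h
      exact ⟨σ i, by simpa using hi.symm⟩
  · intro v
    have hc := h6 v (hall v)
    let ψ : R.induce {i | v ∈ bag i} →g
        (R.comap σ.symm).induce {i | v ∈ bag (σ.symm i)} :=
      { toFun := fun i => ⟨σ i.1, by
          show v ∈ bag (σ.symm (σ i.1))
          rw [σ.symm_apply_apply]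
          exact i.2⟩
        map_rel' := by
          rintro ⟨i, hi⟩ ⟨j, hj⟩ hij
          simpa using hij }
    rw [connected_iff_exists_forall_reachable] at hc ⊢
    obtain ⟨a, ha⟩ := hc
    refine ⟨ψ a, ?_⟩
    rintro ⟨i, hi⟩
    have := (ha ⟨σ.symm i, hi⟩).map ψ
    have e : ψ ⟨σ.symm i, hi⟩ = ⟨i, hi⟩ := by
      apply Subtype.ext
      exact σ.apply_symm_apply i
    rw [e] at this
    exact this

end Pool.Agent.Helper23.Free
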