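import Pool.Agent.Helper23.Free.Defs
import Pool.Agent.Helper23.Free.Link

set_option autoImplicit false

namespace Pool.Agent.Helper23.Free

variable {V : Type} {G : SimpleGraph V} {f : V → Pt}

theorem FC_fst : ∀ i : Fin 9, (FC i).1 = 0 ∨ (FC i).1 = 6 := by decide

theorem conn (T : Fr) : ∀ {x y z : V} {e : In T → V}, Pl G T x y z e → ∀ Q : V → Prop,
    (∀ i j : In T, G.Adj (e i) (e j) → Q (e i) → Q (e j)) → ∀ i : In T,
      (Q (e i) ↔ Q (e (hd T i))) := by
  induction T with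
  | nil => intro x y z e _ Q _ i; exact i.elim
  | st a b c iha ihb ihc =>
    intro x y z e h Q hQ i
    match i with
    | Sum.inl () => exact Iff.rfl
    | Sum.inr (Sum.inl i) =>
      have h1 := iha h.c1 Q (fun i j => hQ _ _) i
      have h2 := (h.c1.hdx i).1
      exact h1.trans ⟨hQ _ _ h2, hQ _ _ h2.symm⟩
    | Sum.inr (Sum.inr (Sum.inl i)) =>
      have h1 := ihb h.c2 Q (fun i j => hQ _ _) i
      have h2 := (h.c2.hdx i).2.1
      exact h1.trans ⟨hQ _ _ h2, hQ _ _ h2.symm⟩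
    | Sum.inr (Sum.inr (Sum.inr i)) =>
      have h1 := ihc h.c3 Q (fun i j => hQ _ _) i
      have h2 := (h.c3.hdx i).2.2
      exact h1.trans ⟨hQ _ _ h2, hQ _ _ h2.symm⟩
  | bg T ih =>
    intro x y z e h Q hQ i
    have base : ∀ k : Fin 5, (Q (e (Sum.inl k)) ↔ Q (e (Sum.inl 0))) := by
      have st : ∀ k l : Fin 5, G.Adj (e (Sum.inl k)) (e (Sum.inl l)) →
          (Q (e (Sum.inl k)) ↔ Q (e (Sum.inl l))) :=
        fun k l hkl => ⟨hQ _ _ hkl, hQ _ _ hkl.symm⟩
      have a1 : G.Adj (e (Sum.inl 1)) (e (Sum.inl 0)) := h.bA (p := 3) (q := 0) (by decide)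
      have a2 : G.Adj (e (Sum.inl 2)) (e (Sum.inl 0)) := h.bA (p := 4) (q := 0) (by decide)
      have a3 : G.Adj (e (Sum.inl 3)) (e (Sum.inl 0)) := h.bA (p := 5) (q := 0) (by decide)
      have a4 : G.Adj (e (Sum.inl 4)) (e (Sum.inl 1)) := h.bA (p := 6) (q := 3) (by decide)
      intro k
      fin_cases k
      · exact Iff.rfl
      · exact st _ _ a1
      · exact st _ _ a2
      · exact st _ _ a3
      · exact (st _ _ a4).trans (st _ _ a1)
    match i with
    | Sum.inl k => exact base k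
    | Sum.inr ⟨i, j⟩ =>
      have h1 := ih i (h.ch i) Q (fun i j => hQ _ _) j
      have h2 := ((h.ch i).hdx j).1
      rcases FC_fst i with hf | hf
      · rw [hf] at h2
        have h3 : G.Adj (e (Sum.inr ⟨i, hd (T i) j⟩)) (e (Sum.inl 0)) := h2
        exact h1.trans ⟨hQ _ _ h3, hQ _ _ h3.symm⟩
      · rw [hf] at h2
        have h3 : G.Adj (e (Sum.inr ⟨i, hd (T i) j⟩)) (e (Sum.inl 4)) := h2
        exact (h1.trans ⟨hQ _ _ h3, hQ _ _ h3.symm⟩).trans (base 4)

/-- if the first vertex is inside then all vertices are inside -/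
theorem allIns {T : Fr} {x y z : V} {e : In T → V} (h : Pl G T x y z e) (hf : Dw G f)
    {X Y Z : V} (hXY : G.Adj X Y) (hYZ : G.Adj Y Z) (hXZ : G.Adj X Z)
    (nX : ∀ i, e i ≠ X) (nY : ∀ i, e i ≠ Y) (nZ : ∀ i, e i ≠ Z) (i : In T)
    (h0 : Ins (f (e (hd T i))) (f X) (f Y) (f Z)) : Ins (f (e i)) (f X) (f Y) (f Z) := by
  refine (conn T h (fun v => Ins (f v) (f X) (f Y) (f Z)) ?_ i).mpr h0
  intro i j hij hi
  exact hf.step hXY hYZ hXZ hi hij (nX j) (nY j) (nZ j)

/-- K4 with centre `m` inside `o1 o2 o3`; a vertex adjacent to `m, o1, o2` lies in that face -/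
theorem k4child (hf : Dw G f) {m o1 o2 o3 w : V} (h12 : G.Adj o1 o2) (h23 : G.Adj o2 o3)
    (h13 : G.Adj o1 o3) (m1 : G.Adj m o1) (m2 : G.Adj m o2) (m3 : G.Adj m o3)
    (hm : Ins (f m) (f o1) (f o2) (f o3)) (wm : w ≠ m) (w1 : G.Adj w o1) (w2 : G.Adj w o2)
    (hw : Ins (f w) (f o1) (f o2) (f o3)) :
    Ins (f w) (f m) (f o1) (f o2) := by
  have nd := hf.nondeg h12 h23 h13
  have w3 : w ≠ o3 := by
    rintro rfl
    exact not_Ins_self (a := f w) (b := f o1) (c := f o2) (by rw [D3_rot, D3_rot]; exact nd)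
      hw.rot.rot
  rcases locate (t := f m) (x := f o3) (y := f o1) (z := f o2) hm.rot' hw.rot' with
    h | h | h | h | h | h
  · exact h
  · exfalso
    have := hf.step m3.symm m2 h23.symm h w1 h13.ne m1.ne.symm h12.ne
    exact extreme nd (Cl.right _ _ _) hm.cl (Cl.left _ _ _) this
  · exfalso
    have := hf.step h13.symm m1.symm m3.symm h w2 h23.ne h12.symm.ne m2.ne.symm
    exact extreme (a := f o2) (b := f o3) (c := f o1) (by rwa [D3_rot])
      (Cl.left _ _ _) (Cl.right _ _ _) hm.rot.cl this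
  · exact absurd h (hf.ve m o3 w m3 wm w3)
  · exact absurd h (hf.ve m o1 w m1 wm w1.ne)
  · exact absurd h (hf.ve m o2 w m2 wm w2.ne)

def nF (i : Fin 9) (w : Fin 7) : Bool :=
  w ≠ (FC i).1 && w ≠ (FC i).2.1 && w ≠ (FC i).2.2

/-- finite facts about the base graph -/
theorem reach : ∀ i : Fin 9, ∀ w : Fin 7, nF i w = true → ∃ o : Fin 7, o.val < 3 ∧ nF i o = true ∧
    (w = o ∨ bA w o = true ∨ ∃ q : Fin 7, nF i q = true ∧ bA w q = true ∧ bA q o = true) := by
  decide +kernel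

theorem nbr : ∀ i : Fin 9, (∃ w : Fin 7, nF i w = true ∧ bA (FC i).1 w = true) ∧
    (∃ w : Fin 7, nF i w = true ∧ bA (FC i).2.1 w = true) ∧
    (∃ w : Fin 7, nF i w = true ∧ bA (FC i).2.2 w = true) := by
  decide +kernel

end Pool.Agent.Helper23.Free
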