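import Pool.Agent.Helper23.Free.Steps

set_option autoImplicit false

namespace Pool.Agent.Helper23.Free

theorem chain {T : Fr} {b : ℕ} (hT : Good T b b b) (j : ℕ) :
    ∃ (T' : Fr) (b' : ℕ), Good T' b' b' (b' + 2 ^ j * b) ∧ b' + 2 ≤ 6 ^ (j + 1) * (b + 2) ∧
      6 ^ j * (6 * Fintype.card (In T) + b + 2) ≤ Fintype.card (In T') ∧
      5 * (2 ^ j * b) ≤ b' := by
  induction j with
  | zero =>
    refine ⟨.bg (TA T b), 6 * b + 6, ?_, by omega, ?_, by omega⟩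
    · exact good_mono (good_A hT) (le_refl _) (by omega)
    · rw [card_TA]; omega
  | succ j ih =>
    obtain ⟨T', b', h1, h2, h3, h4⟩ := ih
    refine ⟨.bg (TB T'), 6 * b' + 5, ?_, ?_, ?_, ?_⟩
    · have := good_B h1 h4
      have e : 2 ^ (j + 1) * b = 2 * (2 ^ j * b) := by ring
      rw [e]
      exact this
    · have e : 6 ^ (j + 1 + 1) * (b + 2) = 6 * (6 ^ (j + 1) * (b + 2)) := by ring
      rw [e]; omega
    · have e : 6 ^ (j + 1) * (6 * Fintype.card (In T) + b + 2) =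
        6 * (6 ^ j * (6 * Fintype.card (In T) + b + 2)) := by ring
      rw [card_TB, e]; omega
    · have e : 2 ^ (j + 1) * b = 2 * (2 ^ j * b) := by ring
      rw [e]; omega

def RA : Set ℝ := {r | ∃ (T : Fr) (b : ℕ), 0 < Fintype.card (In T) ∧ Good T b b b ∧
  r = ((b : ℝ) + 2) / Fintype.card (In T)}

theorem RA_step {r : ℝ} (hr : r ∈ RA) (j : ℕ) :
    ∃ r' ∈ RA, r' ≤ r * (1 + (1 / 3) ^ j / 6) / (1 + r / 6) := by
  obtain ⟨T, b, hN, hT, rfl⟩ := hr
  obtain ⟨T', b', h1, h2, h3, h4⟩ := chain hT j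
  set N := Fintype.card (In T) with hNd
  set N' := Fintype.card (In T') with hNd'
  have hN' : 0 < N' := lt_of_lt_of_le (by positivity) h3
  refine ⟨_, ⟨T', b' + 2 ^ j * b, hN', good_mono h1 (by omega) (le_refl _), rfl⟩, ?_⟩
  have hNr : (0 : ℝ) < N := by exact_mod_cast hN
  have hN'r : (0 : ℝ) < N' := by exact_mod_cast hN'
  have h2r : ((b' : ℝ) + 2) ≤ 6 ^ (j + 1) * (b + 2) := by exact_mod_cast h2
  have h3r : (6 : ℝ) ^ j * (6 * N + b + 2) ≤ N' := by exact_mod_cast h3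
  have hb : (0 : ℝ) ≤ b := Nat.cast_nonneg b
  have h6 : (0 : ℝ) < 6 ^ j := by positivity
  have e3 : (2 : ℝ) ^ j = 6 ^ j * (1 / 3) ^ j := by
    rw [← mul_pow]; norm_num
  have hth : (0 : ℝ) < (1 / 3) ^ j := by positivity
  have num : ((b' + 2 ^ j * b : ℕ) : ℝ) + 2 ≤ 6 ^ j * (6 * (b + 2) * (1 + (1 / 3) ^ j / 6)) := by
    push_cast
    rw [e3]
    have : (6 : ℝ) ^ (j + 1) = 6 * 6 ^ j := by ring
    rw [this] at h2r
    have h7 : (6 : ℝ) ^ j * (1 / 3) ^ j * b ≤ 6 ^ j * ((1 / 3) ^ j * (b + 2)) := by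
      have : 0 ≤ (6 : ℝ) ^ j * (1 / 3) ^ j := by positivity
      nlinarith
    nlinarith
  calc (((b' + 2 ^ j * b : ℕ) : ℝ) + 2) / N'
      ≤ 6 ^ j * (6 * (b + 2) * (1 + (1 / 3) ^ j / 6)) / N' := by gcongr
    _ ≤ 6 ^ j * (6 * (b + 2) * (1 + (1 / 3) ^ j / 6)) / (6 ^ j * (6 * N + b + 2)) := by gcongr
    _ = ((b : ℝ) + 2) / N * (1 + (1 / 3) ^ j / 6) / (1 + ((b : ℝ) + 2) / N / 6) := by
      field_simp
      ring

theorem rate (ε : ℝ) (hε : 0 < ε) : ∃ (T : Fr) (b : ℕ), 0 < Fintype.card (In T) ∧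
    Good T b b b ∧ 1 ≤ b ∧ (b : ℝ) ≤ ε * Fintype.card (In T) := by
  have hne : RA.Nonempty := by
    refine ⟨_, Dx 1, 1, by rw [card_Dx]; norm_num, good_of_le (by rw [card_Dx]), rfl⟩
  have hbd : BddBelow RA := by
    refine ⟨0, ?_⟩
    rintro r ⟨T, b, h1, h2, rfl⟩
    positivity
  have hpos : ∀ r ∈ RA, 0 < r := by
    rintro r ⟨T, b, h1, h2, rfl⟩
    have : (0 : ℝ) < Fintype.card (In T) := by exact_mod_cast h1
    positivity
  have hinf : sInf RA ≤ 0 := by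
    by_contra hc
    push Not at hc
    set ρ := sInf RA with hρ
    obtain ⟨j, hj⟩ := exists_pow_lt_of_lt_one (show 0 < ρ / 2 by linarith)
      (show (1 / 3 : ℝ) < 1 by norm_num)
    have hlt : ρ < ρ * (1 + ρ / 6) / (1 + ρ / 12) := by
      rw [lt_div_iff₀ (by linarith)]
      nlinarith
    obtain ⟨r, hr, hr2⟩ := exists_lt_of_csInf_lt hne hlt
    obtain ⟨r', hr', hr'2⟩ := RA_step hr j
    have h1 : ρ ≤ r' := csInf_le hbd hr'
    have h2 : ρ ≤ r := csInf_le hbd hr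
    have h3 : r' < ρ := by
      have hden : 0 < 1 + r / 6 := by linarith
      have hden2 : 0 < 1 + ρ / 6 := by linarith
      have hden3 : 0 < 1 + ρ / 12 := by linarith
      rw [lt_div_iff₀ hden3] at hr2
      calc r' ≤ r * (1 + (1 / 3) ^ j / 6) / (1 + r / 6) := hr'2
        _ ≤ r * (1 + ρ / 12) / (1 + r / 6) := by
          have : (1 / 3 : ℝ) ^ j / 6 ≤ ρ / 12 := by linarith
          have hr0 : 0 < r := hpos r hr
          gcongr
        _ ≤ r * (1 + ρ / 12) / (1 + ρ / 6) := by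
          have hr0 : 0 < r := hpos r hr
          gcongr
        _ < ρ := by
          rw [div_lt_iff₀ hden2]
          linarith
    linarith
  obtain ⟨r, ⟨T, b, h1, h2, rfl⟩, hr⟩ := exists_lt_of_csInf_lt hne
    (lt_of_le_of_lt hinf hε)
  have hN : (0 : ℝ) < Fintype.card (In T) := by exact_mod_cast h1
  refine ⟨T, b + 1, h1, good_mono h2 (by omega) (by omega), by omega, ?_⟩
  rw [div_lt_iff₀ hN] at hr
  push_cast
  linarith

end Pool.Agent.Helper23.Free
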