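import Pool.Agent.Helper23.Free.Good

set_option autoImplicit false

namespace Pool.Agent.Helper23.Free

theorem bg_bound {T : Fin 9 → Fr} {bx cy dz : Fin 9 → ℕ}
    (hT : ∀ i, Good (T i) (bx i) (cy i) (dz i)) {V : Type} {G : SimpleGraph V} {f : V → Pt}
    {x y z : V} {e : In (.bg T) → V} (h : Pl G (.bg T) x y z e) (hf : Dw G f)
    (hi : ∀ i, Ins (f (e i)) (f x) (f y) (f z)) :
    ∃ c : Fin 7 → Bool, valid c = true ∧ c 1 = col (f x) ∧ c 2 = col (f y) ∧
      zc f e ≤ 5 + ∑ i : Fin 9, vl (bx i) (cy i) (dz i) (c (FC i).1) (c (FC i).2.1)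
        (c (FC i).2.2) := by
  refine ⟨fun p => col (f (Bv x y e p)), ?_, rfl, rfl, ?_⟩
  · exact valid_of_heights (fun p => (f (Bv x y e p)).2) (fun p hp => higher h hf hi p hp)
  · rw [zc_bg]
    apply Nat.add_le_add
    · calc ∑ k : Fin 5, zer (f (e (Sum.inl k))) ≤ ∑ k : Fin 5, 1 :=
            Finset.sum_le_sum (fun k _ => zer_le _)
        _ = 5 := by simp
    · apply Finset.sum_le_sum
      intro i _
      exact hT i V G f hf _ _ _ _ (h.ch i) (ch_proper h hf hi i)

theorem good_nil : Good .nil 0 0 0 := good_of_le (by rw [card_nil])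

def TA (T : Fr) (n : ℕ) : Fin 9 → Fr := ![T, T, .nil, T, T, Dx n, .nil, T, T]

def TB (T : Fr) : Fin 9 → Fr := ![.nil, .nil, .nil, T, T, T, T, T, T]

theorem card_TA (T : Fr) (n : ℕ) : Fintype.card (In (.bg (TA T n))) =
    5 + 6 * Fintype.card (In T) + n := by
  rw [card_bg]
  set N := Fintype.card (In T) with hN
  have key : ∀ i, Fintype.card (In (TA T n i)) = ![N, N, 0, N, N, n, 0, N, N] i := by
    intro i
    fin_cases i
    · rfl
    · rfl
    · rfl
    · rfl
    · rfl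
    · exact card_Dx n
    · rfl
    · rfl
    · rfl
  rw [Finset.sum_congr rfl (fun i _ => key i)]
  simp only [Fin.sum_univ_succ]
  simp
  ring

theorem card_TB (T : Fr) : Fintype.card (In (.bg (TB T))) =
    5 + 6 * Fintype.card (In T) := by
  rw [card_bg]
  set N := Fintype.card (In T) with hN
  have key : ∀ i, Fintype.card (In (TB T i)) = ![0, 0, 0, N, N, N, N, N, N] i := by
    intro i
    fin_cases i <;> rfl
  rw [Finset.sum_congr rfl (fun i _ => key i)]
  simp only [Fin.sum_univ_succ]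
  simp
  ring

theorem vl_uni (b : ℕ) (c : Fin 7 → Bool) (i : Fin 9) :
    vl b b b (c (FC i).1) (c (FC i).2.1) (c (FC i).2.2) = (ns c i + sp c i) * b := by
  rw [vl_iso]; ring

theorem vl_dx (n : ℕ) (p q r : Bool) : vl 1 n n p q r ≤ 1 + b2n (q != r) * n := by
  unfold vl b2n
  cases p <;> cases q <;> cases r <;> simp

theorem nssp_le (c : Fin 7 → Bool) (i : Fin 9) : ns c i + sp c i ≤ 1 := by
  unfold ns sp b2n
  cases c (FC i).1 <;> cases c (FC i).2.1 <;> cases c (FC i).2.2 <;> simp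

theorem good_A {T : Fr} {b : ℕ} (hT : Good T b b b) :
    Good (.bg (TA T b)) (6 * b + 6) (6 * b + 6) (7 * b + 6) := by
  intro V G f hf x y z e h hi
  have hG : ∀ i, Good (TA T b i) (![b, b, 0, b, b, 1, 0, b, b] i)
      (![b, b, 0, b, b, b, 0, b, b] i) (![b, b, 0, b, b, b, 0, b, b] i) := by
    intro i
    fin_cases i
    · exact hT
    · exact hT
    · exact good_nil
    · exact hT
    · exact hT
    · exact good_Dx b
    · exact good_nil
    · exact hT
    · exact hT
  obtain ⟨c, hv, hcx, hcy, hle⟩ := bg_bound hG h hf hi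
  have hsum : ∑ i : Fin 9, vl (![b, b, 0, b, b, 1, 0, b, b] i)
      (![b, b, 0, b, b, b, 0, b, b] i) (![b, b, 0, b, b, b, 0, b, b] i) (c (FC i).1)
        (c (FC i).2.1) (c (FC i).2.2) ≤
      1 + ((ns c 0 + sp c 0) + (ns c 1 + sp c 1) + (ns c 3 + sp c 3) + (ns c 4 + sp c 4) +
        (ns c 7 + sp c 7) + (ns c 8 + sp c 8) + b2n (c 4 != c 3)) * b := by
    have e : ∀ g : Fin 9 → ℕ, ∑ i : Fin 9, g i =
        g 0 + g 1 + g 2 + g 3 + g 4 + g 5 + g 6 + g 7 + g 8 := by
      intro g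
      simp only [Fin.sum_univ_succ, Fin.sum_univ_zero]
      simp
      ring
    rw [e]
    have h0 := vl_uni b c 0
    have h1 := vl_uni b c 1
    have h3 := vl_uni b c 3
    have h4 := vl_uni b c 4
    have h7 := vl_uni b c 7
    have h8 := vl_uni b c 8
    have h2 : vl 0 0 0 (c (FC 2).1) (c (FC 2).2.1) (c (FC 2).2.2) = 0 := by
      have := vl_uni 0 c 2
      simpa using this
    have h6 : vl 0 0 0 (c (FC 6).1) (c (FC 6).2.1) (c (FC 6).2.2) = 0 := by
      have := vl_uni 0 c 6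
      simpa using this
    have h5 : vl 1 b b (c (FC 5).1) (c (FC 5).2.1) (c (FC 5).2.2) ≤
      1 + b2n (c 4 != c 3) * b := vl_dx b _ _ _
    show vl b b b (c (FC 0).1) (c (FC 0).2.1) (c (FC 0).2.2) +
      vl b b b (c (FC 1).1) (c (FC 1).2.1) (c (FC 1).2.2) +
      vl 0 0 0 (c (FC 2).1) (c (FC 2).2.1) (c (FC 2).2.2) +
      vl b b b (c (FC 3).1) (c (FC 3).2.1) (c (FC 3).2.2) +
      vl b b b (c (FC 4).1) (c (FC 4).2.1) (c (FC 4).2.2) +
      vl 1 b b (c (FC 5).1) (c (FC 5).2.1) (c (FC 5).2.2) +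
      vl 0 0 0 (c (FC 6).1) (c (FC 6).2.1) (c (FC 6).2.2) +
      vl b b b (c (FC 7).1) (c (FC 7).2.1) (c (FC 7).2.2) +
      vl b b b (c (FC 8).1) (c (FC 8).2.1) (c (FC 8).2.2) ≤ _
    rw [h0, h1, h2, h3, h4, h6, h7, h8]
    linarith
  by_cases h1 : col (f x) = col (f y)
  · by_cases h2 : col (f y) = col (f z)
    · rw [zc_mono hf h hi h1 h2]; exact Nat.zero_le _
    · have e1 : vl (6 * b + 6) (6 * b + 6) (7 * b + 6) (col (f x)) (col (f y)) (col (f z)) =
          7 * b + 6 := by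
        unfold vl; rw [if_pos h1, if_neg h2]
      rw [e1]
      have k := fun i => nssp_le c i
      have k5 : b2n (c 4 != c 3) ≤ 1 := by unfold b2n; split_ifs <;> omega
      have k' : (ns c 0 + sp c 0) + (ns c 1 + sp c 1) + (ns c 3 + sp c 3) + (ns c 4 + sp c 4) +
        (ns c 7 + sp c 7) + (ns c 8 + sp c 8) + b2n (c 4 != c 3) ≤ 7 := by
        have := k 0; have := k 1; have := k 3; have := k 4; have := k 7; have := k 8
        omega
      have := Nat.mul_le_mul_right b k'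
      omega
  · have e1 : vl (6 * b + 6) (6 * b + 6) (7 * b + 6) (col (f x)) (col (f y)) (col (f z)) =
        6 * b + 6 := by
      unfold vl; rw [if_neg h1]; split_ifs <;> rfl
    rw [e1]
    have hc := fun7 c
    have k' := decA (c 0) (c 1) (c 2) (c 3) (c 4) (c 5) (c 6) (by rw [← hc]; exact hv)
      (by rw [hcx, hcy]; exact h1)
    rw [← hc] at k'
    have := Nat.mul_le_mul_right b k'
    omega

theorem good_B {T : Fr} {b d : ℕ} (hT : Good T b b (b + d)) (hd : 5 * d ≤ b) :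
    Good (.bg (TB T)) (6 * b + 5) (6 * b + 5) (6 * b + 5 + 2 * d) := by
  intro V G f hf x y z e h hi
  have hG : ∀ i, Good (TB T i) (![0, 0, 0, b, b, b, b, b, b] i)
      (![0, 0, 0, b, b, b, b, b, b] i)
      (![0, 0, 0, b + d, b + d, b + d, b + d, b + d, b + d] i) := by
    intro i
    fin_cases i
    · exact good_nil
    · exact good_nil
    · exact good_nil
    · exact hT
    · exact hT
    · exact hT
    · exact hT
    · exact hT
    · exact hT
  obtain ⟨c, hv, hcx, hcy, hle⟩ := bg_bound hG h hf hi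
  have hsum : ∑ i : Fin 9, vl (![0, 0, 0, b, b, b, b, b, b] i)
      (![0, 0, 0, b, b, b, b, b, b] i)
      (![0, 0, 0, b + d, b + d, b + d, b + d, b + d, b + d] i) (c (FC i).1)
        (c (FC i).2.1) (c (FC i).2.2) =
      ((ns c 3 + sp c 3) + (ns c 4 + sp c 4) + (ns c 5 + sp c 5) + (ns c 6 + sp c 6) +
        (ns c 7 + sp c 7) + (ns c 8 + sp c 8)) * b +
      (sp c 3 + sp c 4 + sp c 5 + sp c 6 + sp c 7 + sp c 8) * d := by
    have e : ∀ g : Fin 9 → ℕ, ∑ i : Fin 9, g i =
        g 0 + g 1 + g 2 + g 3 + g 4 + g 5 + g 6 + g 7 + g 8 := by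
      intro g
      simp only [Fin.sum_univ_succ, Fin.sum_univ_zero]
      simp
      ring
    rw [e]
    have h3 := vl_iso b (b + d) c 3
    have h4 := vl_iso b (b + d) c 4
    have h5 := vl_iso b (b + d) c 5
    have h6 := vl_iso b (b + d) c 6
    have h7 := vl_iso b (b + d) c 7
    have h8 := vl_iso b (b + d) c 8
    have h0 : ∀ i, vl 0 0 0 (c (FC i).1) (c (FC i).2.1) (c (FC i).2.2) = 0 := by
      intro i
      have := vl_uni 0 c i
      simpa using this
    show vl 0 0 0 (c (FC 0).1) (c (FC 0).2.1) (c (FC 0).2.2) +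
      vl 0 0 0 (c (FC 1).1) (c (FC 1).2.1) (c (FC 1).2.2) +
      vl 0 0 0 (c (FC 2).1) (c (FC 2).2.1) (c (FC 2).2.2) +
      vl b b (b + d) (c (FC 3).1) (c (FC 3).2.1) (c (FC 3).2.2) +
      vl b b (b + d) (c (FC 4).1) (c (FC 4).2.1) (c (FC 4).2.2) +
      vl b b (b + d) (c (FC 5).1) (c (FC 5).2.1) (c (FC 5).2.2) +
      vl b b (b + d) (c (FC 6).1) (c (FC 6).2.1) (c (FC 6).2.2) +
      vl b b (b + d) (c (FC 7).1) (c (FC 7).2.1) (c (FC 7).2.2) +
      vl b b (b + d) (c (FC 8).1) (c (FC 8).2.1) (c (FC 8).2.2) = _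
    rw [h0, h0, h0, h3, h4, h5, h6, h7, h8]
    ring
  have hc := fun7 c
  have k' := decB (c 0) (c 1) (c 2) (c 3) (c 4) (c 5) (c 6) (by rw [← hc]; exact hv)
  rw [← hc] at k'
  set K := (ns c 3 + sp c 3) + (ns c 4 + sp c 4) + (ns c 5 + sp c 5) + (ns c 6 + sp c 6) +
        (ns c 7 + sp c 7) + (ns c 8 + sp c 8) with hK
  set S := sp c 3 + sp c 4 + sp c 5 + sp c 6 + sp c 7 + sp c 8 with hS
  have hK6 : K ≤ 6 := by
    have k := fun i => nssp_le c i
    have := k 3; have := k 4; have := k 5; have := k 6; have := k 7; have := k 8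
    omega
  rw [hsum] at hle
  obtain ⟨L, hL⟩ : ∃ L, K + L = 6 := ⟨6 - K, by omega⟩
  by_cases h1 : col (f x) = col (f y)
  · by_cases h2 : col (f y) = col (f z)
    · rw [zc_mono hf h hi h1 h2]; exact Nat.zero_le _
    · have e1 : vl (6 * b + 5) (6 * b + 5) (6 * b + 5 + 2 * d) (col (f x)) (col (f y))
          (col (f z)) = 6 * b + 5 + 2 * d := by
        unfold vl; rw [if_pos h1, if_neg h2]
      rw [e1]
      have k2 : S ≤ 2 + 5 * L := by
        split_ifs at k' <;> omega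
      have k3 : S * d ≤ 2 * d + L * b := by
        calc S * d ≤ (2 + 5 * L) * d := Nat.mul_le_mul_right d k2
          _ = 2 * d + L * (5 * d) := by ring
          _ ≤ 2 * d + L * b := Nat.add_le_add_left (Nat.mul_le_mul_left L hd) _
      have k4 : K * b + L * b = 6 * b := by rw [← add_mul, hL]
      omega
  · have e1 : vl (6 * b + 5) (6 * b + 5) (6 * b + 5 + 2 * d) (col (f x)) (col (f y))
        (col (f z)) = 6 * b + 5 := by
      unfold vl; rw [if_neg h1]; split_ifs <;> rfl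
    rw [e1]
    have k2 : S ≤ 5 * L := by
      rw [if_pos (by rw [hcx, hcy]; exact h1)] at k'
      omega
    have k3 : S * d ≤ L * b := by
      calc S * d ≤ (5 * L) * d := Nat.mul_le_mul_right d k2
        _ = L * (5 * d) := by ring
        _ ≤ L * b := Nat.mul_le_mul_left L hd
    have k4 : K * b + L * b = 6 * b := by rw [← add_mul, hL]
    omega

end Pool.Agent.Helper23.Free
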