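import Pool.Agent.Helper23.Free.Defs

set_option autoImplicit false

namespace Pool.Agent.Helper23.Free

open SimpleGraph

theorem leaf_tree {ι : Type} [Fintype ι] {R : SimpleGraph ι} (hR : R.IsTree) (p : ι) :
    ((R ⊕g (⊥ : SimpleGraph Unit)) ⊔ SimpleGraph.edge (Sum.inl p) (Sum.inr ())).IsTree := by
  rw [isTree_iff_connected_and_card] at hR ⊢
  obtain ⟨h1, h2⟩ := hR
  refine ⟨h1.sum_sup_edge ?_, ?_⟩
  · rw [connected_iff_exists_forall_reachable]
    exact ⟨(), fun w => by cases w; exact Reachable.refl _⟩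
  · have e1 : ((R ⊕g (⊥ : SimpleGraph Unit)) ⊔ SimpleGraph.edge (Sum.inl p) (Sum.inr ())).edgeSet
        = insert s(Sum.inl p, Sum.inr ()) (R ⊕g (⊥ : SimpleGraph Unit)).edgeSet := by
      rw [edgeSet_sup, edgeSet_edge_of_ne (by simp)]
      ext q; simp
    have e2 : s(Sum.inl p, Sum.inr ()) ∉ (R ⊕g (⊥ : SimpleGraph Unit)).edgeSet := by
      simp
    have e3 : Nat.card (R ⊕g (⊥ : SimpleGraph Unit)).edgeSet = Nat.card R.edgeSet := by
      rw [Nat.card_congr edgeSetSumEquiv, Nat.card_sum]
      simp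
    rw [e1, Nat.card_coe_set_eq, Set.ncard_insert_of_notMem e2 (Set.toFinite _),
      ← Nat.card_coe_set_eq, e3, h2]
    simp

/-- a tree decomposition of width at most 4 with vertex set `S` and set of bags `BB` -/
def TD {V : Type} (S : Set V) (BB : Set (Finset V)) : Prop :=
  ∃ (ι : Type) (_ : Fintype ι) (R : SimpleGraph ι) (bag : ι → Finset V), R.IsTree ∧
    (∀ i, (bag i).card ≤ 5) ∧ (∀ i, ∀ v ∈ bag i, v ∈ S) ∧ (∀ i, bag i ∈ BB) ∧
    (∀ B ∈ BB, ∃ i, bag i = B) ∧ (∀ v ∈ S, (R.induce {i | v ∈ bag i}).Connected)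

theorem TD.start {V : Type} (B : Finset V) (hB : B.card ≤ 5) :
    TD (B : Set V) {B} := by
  refine ⟨Unit, inferInstance, ⊥, fun _ => B, ?_, fun _ => hB, fun _ v hv => hv, fun _ => rfl,
    fun B' hB' => ⟨(), (Set.mem_singleton_iff.mp hB').symm⟩, ?_⟩
  · exact IsTree.of_subsingleton
  · intro v hv
    rw [connected_iff_exists_forall_reachable]
    refine ⟨⟨(), hv⟩, fun w => ?_⟩
    have : w = ⟨(), hv⟩ := by
      rcases w with ⟨⟨⟩, _⟩
      rfl
    rw [this]

theorem TD.add {V : Type} [DecidableEq V] {S : Set V} {BB : Set (Finset V)} (h : TD S BB)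
    {v : V} (hv : v ∉ S) {B B' : Finset V} (hB : B ∈ BB) (hsub : B' ⊆ B) (hc : B'.card ≤ 4) :
    TD (insert v S) (insert (insert v B') BB) := by
  obtain ⟨ι, hι, R, bag, h1, h2, h3, h4, h5, h6⟩ := h
  obtain ⟨p, hp⟩ := h5 B hB
  refine ⟨ι ⊕ Unit, inferInstance, _, Sum.elim bag (fun _ => insert v B'), leaf_tree h1 p,
    ?_, ?_, ?_, ?_, ?_⟩
  · rintro (i | i)
    · exact h2 i
    · exact (Finset.card_insert_le _ _).trans (by omega)
  · rintro (i | i) w hw
    · exact Set.mem_insert_of_mem _ (h3 i w hw)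
    · simp only [Sum.elim_inr, Finset.mem_insert] at hw
      rcases hw with rfl | hw
      · exact Set.mem_insert _ _
      · exact Set.mem_insert_of_mem _ (h3 p w (by rw [hp]; exact hsub hw))
  · rintro (i | i)
    · exact Set.mem_insert_of_mem _ (h4 i)
    · exact Set.mem_insert _ _
  · intro C hC
    rcases Set.mem_insert_iff.mp hC with rfl | hC
    · exact ⟨Sum.inr (), rfl⟩
    · obtain ⟨i, hi⟩ := h5 C hC
      exact ⟨Sum.inl i, hi⟩
  · intro w hw
    by_cases hwS : w ∈ S
    · have hcon := h6 w hwS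
      rw [connected_iff_exists_forall_reachable] at hcon
      -- lift reachability
      let φ : R.induce {i | w ∈ bag i} →g
          ((R ⊕g (⊥ : SimpleGraph Unit)) ⊔ SimpleGraph.edge (Sum.inl p) (Sum.inr ())).induce
            {i | w ∈ Sum.elim bag (fun _ => insert v B') i} :=
        { toFun := fun i => ⟨Sum.inl i.1, i.2⟩
          map_rel' := by
            rintro ⟨i, hi⟩ ⟨j, hj⟩ hij
            simp only [comap_adj, Function.Embedding.subtype_apply] at hij ⊢
            left
            simpa using hij }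
      rw [connected_iff_exists_forall_reachable]
      obtain ⟨a, ha⟩ := hcon
      refine ⟨φ a, ?_⟩
      rintro ⟨i | i, hi⟩
      · exact (ha ⟨i, hi⟩).map φ
      · have hwB' : w ∈ B' := by
          simp only [Set.mem_ofPred_eq, Sum.elim_inr, Finset.mem_insert] at hi
          rcases hi with rfl | hi
          · exact absurd hwS hv
          · exact hi
        have hwp : w ∈ bag p := by rw [hp]; exact hsub hwB'
        refine ((ha ⟨p, hwp⟩).map φ).trans (Adj.reachable ?_)
        simp only [comap_adj, Function.Embedding.subtype_apply]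
        right
        simp only [SimpleGraph.edge, ne_eq]
        rw [fromEdgeSet_adj]
        exact ⟨rfl, fun hc => by cases hc⟩
    · have hwv : w = v := by
        rcases Set.mem_insert_iff.mp hw with h | h
        · exact h
        · exact absurd h hwS
      subst hwv
      rw [connected_iff_exists_forall_reachable]
      refine ⟨⟨Sum.inr (), by simp⟩, ?_⟩
      rintro ⟨i | i, hi⟩
      · exact absurd (h3 i w hi) hv
      · exact Reachable.refl _

end Pool.Agent.Helper23.Free
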