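import Pool.Agent.Helper23.Free.TD

set_option autoImplicit false

namespace Pool.Agent.Helper23.Free

theorem td_st {a b c : Fr}
    (iha : ∀ {V : Type} [DecidableEq V] {x y z : V} {e : In a → V} {S : Set V}
      {BB : Set (Finset V)}, Function.Injective e → (∀ i, e i ∉ S) → TD S BB → ∀ B ∈ BB,
      x ∈ B → y ∈ B → z ∈ B → ∃ BB' : Set (Finset V), BB ⊆ BB' ∧ TD (S ∪ Set.range e) BB' ∧
      ∀ u v, Ed a x y z e u v → ∃ C ∈ BB', u ∈ C ∧ v ∈ C)
    (ihb : ∀ {V : Type} [DecidableEq V] {x y z : V} {e : In b → V} {S : Set V}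
      {BB : Set (Finset V)}, Function.Injective e → (∀ i, e i ∉ S) → TD S BB → ∀ B ∈ BB,
      x ∈ B → y ∈ B → z ∈ B → ∃ BB' : Set (Finset V), BB ⊆ BB' ∧ TD (S ∪ Set.range e) BB' ∧
      ∀ u v, Ed b x y z e u v → ∃ C ∈ BB', u ∈ C ∧ v ∈ C)
    (ihc : ∀ {V : Type} [DecidableEq V] {x y z : V} {e : In c → V} {S : Set V}
      {BB : Set (Finset V)}, Function.Injective e → (∀ i, e i ∉ S) → TD S BB → ∀ B ∈ BB,
      x ∈ B → y ∈ B → z ∈ B → ∃ BB' : Set (Finset V), BB ⊆ BB' ∧ TD (S ∪ Set.range e) BB' ∧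
      ∀ u v, Ed c x y z e u v → ∃ C ∈ BB', u ∈ C ∧ v ∈ C)
    {V : Type} [DecidableEq V] {x y z : V} {e : In (.st a b c) → V} {S : Set V}
    {BB : Set (Finset V)} (hinj : Function.Injective e) (hS : ∀ i, e i ∉ S) (h : TD S BB)
    (B : Finset V) (hB : B ∈ BB) (hx : x ∈ B) (hy : y ∈ B) (hz : z ∈ B) :
    ∃ BB' : Set (Finset V), BB ⊆ BB' ∧ TD (S ∪ Set.range e) BB' ∧
      ∀ u v, Ed (.st a b c) x y z e u v → ∃ C ∈ BB', u ∈ C ∧ v ∈ C := by
  set t := e (Sum.inl ()) with ht
  have hsub : ({x, y, z} : Finset V) ⊆ B := by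
    intro w hw
    simp only [Finset.mem_insert, Finset.mem_singleton] at hw
    rcases hw with rfl | rfl | rfl <;> assumption
  have k0 := h.add (hS (Sum.inl ())) hB hsub ((Finset.card_le_three).trans (by norm_num))
  set C0 : Finset V := insert t {x, y, z} with hC0
  have tC : t ∈ C0 := by simp [C0]
  have xC : x ∈ C0 := by simp [C0]
  have yC : y ∈ C0 := by simp [C0]
  have zC : z ∈ C0 := by simp [C0]
  have i1 : Function.Injective (fun i => e (Sum.inr (Sum.inl i)) : In a → V) := by
    intro i j hij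
    have := hinj hij
    injection this with h1
    injection h1
  have i2 : Function.Injective (fun i => e (Sum.inr (Sum.inr (Sum.inl i))) : In b → V) := by
    intro i j hij
    have := hinj hij
    injection this with h1
    injection h1 with h2
    injection h2
  have i3 : Function.Injective (fun i => e (Sum.inr (Sum.inr (Sum.inr i))) : In c → V) := by
    intro i j hij
    have := hinj hij
    injection this with h1
    injection h1 with h2
    injection h2
  obtain ⟨B1, s1, k1, q1⟩ := iha (x := t) (y := y) (z := z) i1 (fun i hi => by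
    rcases Set.mem_insert_iff.mp hi with hi | hi
    · have := hinj hi
      injection this
    · exact hS _ hi) k0 C0 (Set.mem_insert _ _) tC yC zC
  obtain ⟨B2, s2, k2, q2⟩ := ihb (x := x) (y := t) (z := z) i2 (fun i hi => by
    rcases hi with hi | ⟨j, hj⟩
    · rcases Set.mem_insert_iff.mp hi with hi | hi
      · have := hinj hi
        injection this
      · exact hS _ hi
    · have := hinj hj
      injection this with h1
      injection h1) k1 C0 (s1 (Set.mem_insert _ _)) xC tC zC
  obtain ⟨B3, s3, k3, q3⟩ := ihc (x := x) (y := y) (z := t) i3 (fun i hi => by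
    rcases hi with (hi | ⟨j, hj⟩) | ⟨j, hj⟩
    · rcases Set.mem_insert_iff.mp hi with hi | hi
      · have := hinj hi
        injection this
      · exact hS _ hi
    · have := hinj hj
      injection this with h1
      injection h1
    · have := hinj hj
      injection this with h1
      injection h1 with h2
      injection h2) k2 C0 (s2 (s1 (Set.mem_insert _ _))) xC yC tC
  refine ⟨B3, fun C hC => s3 (s2 (s1 (Set.mem_insert_of_mem _ hC))), ?_, ?_⟩
  · have : S ∪ Set.range e = ((insert t S ∪ Set.range (fun i => e (Sum.inr (Sum.inl i)))) ∪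
        Set.range (fun i => e (Sum.inr (Sum.inr (Sum.inl i))))) ∪
        Set.range (fun i => e (Sum.inr (Sum.inr (Sum.inr i)))) := by
      ext w
      constructor
      · rintro (hw | ⟨i, rfl⟩)
        · exact Or.inl (Or.inl (Or.inl (Set.mem_insert_of_mem _ hw)))
        · match i with
          | Sum.inl () => exact Or.inl (Or.inl (Or.inl (Set.mem_insert _ _)))
          | Sum.inr (Sum.inl i) => exact Or.inl (Or.inl (Or.inr ⟨i, rfl⟩))
          | Sum.inr (Sum.inr (Sum.inl i)) => exact Or.inl (Or.inr ⟨i, rfl⟩)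
          | Sum.inr (Sum.inr (Sum.inr i)) => exact Or.inr ⟨i, rfl⟩
      · rintro (((hw | ⟨i, rfl⟩) | ⟨i, rfl⟩) | ⟨i, rfl⟩)
        · rcases Set.mem_insert_iff.mp hw with rfl | hw
          · exact Or.inr ⟨_, rfl⟩
          · exact Or.inl hw
        · exact Or.inr ⟨_, rfl⟩
        · exact Or.inr ⟨_, rfl⟩
        · exact Or.inr ⟨_, rfl⟩
    rw [this]; exact k3
  · rintro u v (⟨rfl, h1⟩ | h1 | h1 | h1)
    · refine ⟨C0, s3 (s2 (s1 (Set.mem_insert _ _))), tC, ?_⟩
      rcases h1 with rfl | rfl | rfl <;> assumption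
    · obtain ⟨C, hC, h2⟩ := q1 u v h1
      exact ⟨C, s3 (s2 hC), h2⟩
    · obtain ⟨C, hC, h2⟩ := q2 u v h1
      exact ⟨C, s3 hC, h2⟩
    · obtain ⟨C, hC, h2⟩ := q3 u v h1
      exact ⟨C, hC, h2⟩

end Pool.Agent.Helper23.Free
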